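import Mathlib

set_option autoImplicit false

open scoped ContDiff

namespace Pool.Agent.P.MP_ede858_pr

/-- The modified Bessel function of the first kind, by its power series (used for `x > 0`). -/
noncomputable def besselI (μ x : ℝ) : ℝ :=
  ∑' k : ℕ, (x / 2) ^ (2 * (k : ℝ) + μ) / ((k.factorial : ℝ) * Real.Gamma ((k : ℝ) + μ + 1))

/-- Hyperbolic complete monotonicity: for every `u > 0` the product `f (u v) f (u / v)` is a
completely monotone function of `w = v + 1 / v` on `(2, ∞)`. -/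
def IsHCM (f : ℝ → ℝ) : Prop :=
  ∀ u : ℝ, 0 < u → ∃ g : ℝ → ℝ, ContDiffOn ℝ ∞ g (Set.Ioi 2) ∧
    (∀ (n : ℕ) (w : ℝ), 2 < w → 0 ≤ (-1) ^ n * iteratedDeriv n g w) ∧
    ∀ v : ℝ, 0 < v → v ≠ 1 → f (u * v) * f (u / v) = g (v + 1 / v)

end Pool.Agent.P.MP_ede858_pr
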