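import Mathlib

set_option autoImplicit false

open MeasureTheory

namespace Pool.Agent.P.MP_ede858_pr

/-- The measure on `(0, ∞)` with density `f`. -/
noncomputable def law (f : ℝ → ℝ) : Measure ℝ :=
  (volume.restrict (Set.Ioi (0 : ℝ))).withDensity (fun x => ENNReal.ofReal (f x))

/-- The measure on `(0, ∞)` with density `f` divided by its integral over `(0, ∞)`. -/
noncomputable def nlaw (f : ℝ → ℝ) : Measure ℝ :=
  law (fun x => f x / ∫ y in Set.Ioi (0 : ℝ), f y)

/-- Self-decomposability: for every `c ∈ (0, 1)` the law `P` of `X` is the law of `c X + Y` with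
`Y` independent of `X`. -/
def IsSD (P : Measure ℝ) : Prop :=
  ∀ c : ℝ, 0 < c → c < 1 → ∃ Q : Measure ℝ, IsProbabilityMeasure Q ∧
    P = Measure.conv (P.map (fun x => c * x)) Q

/-- Generalized gamma convolution: the Laplace transform is
`exp (- a s + ∫ log (t / (s + t)) dU(t))`, the integral over `(0, ∞)`. -/
def IsGGC (P : Measure ℝ) : Prop :=
  ∃ a : ℝ, 0 ≤ a ∧ ∃ U : Measure ℝ, ∀ s : ℝ, 0 ≤ s →
    IntegrableOn (fun t => Real.log (t / (s + t))) (Set.Ioi 0) U ∧
    ∫ x, Real.exp (-(s * x)) ∂P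
      = Real.exp (-(a * s) + ∫ t in Set.Ioi 0, Real.log (t / (s + t)) ∂U)

/-- The coefficient `(A)_k (B)_k / ((C)_k k!)` of the Gauss series `F(A, B; C; w)`. -/
noncomputable def hyp (A B C : ℝ) (k : ℕ) : ℝ :=
  (ascPochhammer ℝ k).eval A * (ascPochhammer ℝ k).eval B
    / ((ascPochhammer ℝ k).eval C * (k.factorial : ℝ))

/-- The coefficient of `w ^ k` in the formal series `2 B F(A, B + 1; C; w) / F(A, B; C; w)`. -/
noncomputable def cf (A B C : ℝ) (k : ℕ) : ℝ :=
  2 * B * PowerSeries.coeff k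
    (PowerSeries.mk (hyp A (B + 1) C) * (PowerSeries.mk (hyp A B C))⁻¹)

/-- The entire function `h(x) = ∑ cf k x ^ (2 k) / (2 k)!`. -/
noncomputable def lev (A B C x : ℝ) : ℝ :=
  ∑' k : ℕ, cf A B C k * x ^ (2 * k) / ((2 * k).factorial : ℝ)

/-- The supremum of `h'(x) / h(x)` over `x > 0`. -/
noncomputable def kap (A B C : ℝ) : ℝ :=
  sSup {y : ℝ | ∃ x : ℝ, 0 < x ∧ y = deriv (lev A B C) x / lev A B C x}

end Pool.Agent.P.MP_ede858_pr
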