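import Mathlib

/-! Completely monotone functions on `(2, ∞)` are log-convex. -/

set_option autoImplicit false

open Set Filter Topology Polynomial
open scoped ContDiff

namespace Pool.Agent.P.MP_ede858_pr

def CM (g : ℝ → ℝ) : Prop :=
  ∃ d : ℕ → ℝ → ℝ, (∀ x, 2 < x → d 0 x = g x) ∧
    (∀ n x, 2 < x → HasDerivAt (d n) (-d (n + 1) x) x) ∧ ∀ n x, 2 < x → 0 ≤ d n x

theorem CM_of_iteratedDeriv {g : ℝ → ℝ} (h1 : ContDiffOn ℝ ∞ g (Ioi 2))
    (h2 : ∀ (n : ℕ) (w : ℝ), 2 < w → 0 ≤ (-1) ^ n * iteratedDeriv n g w) : CM g := by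
  refine ⟨fun n x => (-1) ^ n * iteratedDeriv n g x, fun x _ => by simp, fun n x hx => ?_, h2⟩
  have h3 : ContDiffAt ℝ ∞ g x := h1.contDiffAt (Ioi_mem_nhds hx)
  have h4 : DifferentiableAt ℝ (iteratedDeriv n g) x := by
    have h5 := h1.differentiableOn_iteratedDerivWithin (m := n)
      (by exact_mod_cast ENat.natCast_lt_top n) (uniqueDiffOn_Ioi 2)
    have h6 := (h5 x hx).differentiableAt (Ioi_mem_nhds hx)
    refine h6.congr_of_eventuallyEq ?_
    filter_upwards [Ioi_mem_nhds hx] with y hy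
    exact (iteratedDerivWithin_of_isOpen isOpen_Ioi hy).symm
  have h7 := h4.hasDerivAt.const_mul ((-1 : ℝ) ^ n)
  refine h7.congr_deriv ?_
  simp only
  rw [iteratedDeriv_succ, pow_succ]; ring

theorem CM.nonneg {g : ℝ → ℝ} (h : CM g) {x : ℝ} (hx : 2 < x) : 0 ≤ g x := by
  obtain ⟨d, h0, -, h2⟩ := h
  rw [← h0 x hx]; exact h2 0 x hx

theorem CM.shift {g : ℝ → ℝ} (h : CM g) {s : ℝ} (hs : 0 < s) : CM (fun x => g (x + s)) := by
  obtain ⟨d, h0, h1, h2⟩ := h
  refine ⟨fun n x => d n (x + s), fun x hx => h0 _ (by linarith), fun n x hx => ?_,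
    fun n x hx => h2 n _ (by linarith)⟩
  exact (h1 n (x + s) (by linarith)).comp_add_const x s

theorem CM.diff {g : ℝ → ℝ} (h : CM g) {s : ℝ} (hs : 0 < s) : CM (fun x => g x - g (x + s)) := by
  obtain ⟨d, h0, h1, h2⟩ := h
  refine ⟨fun n x => d n x - d n (x + s), fun x hx => by
    simp only
    rw [h0 _ hx, h0 _ (by linarith)], fun n x hx => ?_, fun n x hx => ?_⟩
  · have := (h1 n x hx).sub ((h1 n (x + s) (by linarith)).comp_add_const x s)
    refine this.congr_deriv ?_
    simp only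
    ring
  · have hanti : AntitoneOn (d n) (Ioi 2) := by
      apply antitoneOn_of_deriv_nonpos (convex_Ioi 2)
      · exact fun y hy => (h1 n y hy).continuousAt.continuousWithinAt
      · rw [interior_Ioi]
        exact fun y hy => (h1 n y hy).differentiableAt.differentiableWithinAt
      · rw [interior_Ioi]
        intro y hy
        rw [(h1 n y hy).deriv]
        have := h2 (n + 1) y hy
        linarith
    have := hanti (show x ∈ Ioi 2 from hx) (show x + s ∈ Ioi 2 from by
      show 2 < x + s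
      linarith) (by linarith)
    linarith

/-- the shift operator -/
def shiftL (s : ℝ) : Module.End ℝ (ℝ → ℝ) where
  toFun g := fun x => g (x + s)
  map_add' _ _ := rfl
  map_smul' _ _ := rfl

theorem CM.pow_shift {s : ℝ} (hs : 0 < s) (i : ℕ) : ∀ {g : ℝ → ℝ}, CM g →
    CM ((shiftL s ^ i) g) := by
  induction i with
  | zero => intro g h; exact h
  | succ i ih => intro g h; rw [pow_succ]; exact ih (h.shift hs)

theorem CM.pow_diff {s : ℝ} (hs : 0 < s) (i : ℕ) : ∀ {g : ℝ → ℝ}, CM g →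
    CM (((1 - shiftL s) ^ i) g) := by
  induction i with
  | zero => intro g h; exact h
  | succ i ih => intro g h; rw [pow_succ]; exact ih (h.diff hs)

theorem CM.quad {g : ℝ → ℝ} (h : CM g) {s x : ℝ} (hs : 0 < s) (hx : 2 < x) (N : ℕ) (t : ℝ) :
    0 ≤ (N * (N - 1) : ℝ) * g (x + s + s) + N * g (x + s) - 2 * (N * t) * (N * g (x + s)) +
      (N * t) ^ 2 * g x := by
  let Lf : ℝ[X] →ₗ[ℝ] ℝ :=
    { toFun := fun p => (aeval (shiftL s) p) g x
      map_add' := fun p q => by simp
      map_smul' := fun c p => by simp }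
  have hB : ∀ ν, 0 ≤ Lf (bernsteinPolynomial ℝ N ν) := by
    intro ν
    have h1 := ((h.pow_diff hs (N - ν)).pow_shift hs ν).nonneg hx
    have e : Lf (bernsteinPolynomial ℝ N ν) =
        (N.choose ν : ℝ) * ((shiftL s ^ ν) (((1 - shiftL s) ^ (N - ν)) g)) x := by
      simp [Lf, bernsteinPolynomial]
    rw [e]
    positivity
  have s0 := congrArg Lf (bernsteinPolynomial.sum ℝ N)
  have s1 := congrArg Lf (bernsteinPolynomial.sum_smul ℝ N)
  have s2 := congrArg Lf (bernsteinPolynomial.sum_mul_smul ℝ N)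
  have l0 : Lf 1 = g x := by simp [Lf]
  have l1 : Lf X = g (x + s) := by simp [Lf, shiftL]
  have l2 : Lf (X ^ 2) = g (x + s + s) := by
    simp [Lf, pow_two, shiftL]
  rw [map_sum, l0] at s0
  simp only [map_sum, map_nsmul] at s1 s2
  simp only [l1, l2, nsmul_eq_mul] at s1 s2
  have c1 : ∀ ν : ℕ, ((ν * (ν - 1) : ℕ) : ℝ) = ν * (ν - 1) := by
    intro ν
    cases ν with
    | zero => simp
    | succ ν => simp
  simp only [c1] at s2
  rw [← s0, ← s1, ← s2, Finset.mul_sum, Finset.mul_sum, ← Finset.sum_add_distrib,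
    ← Finset.sum_sub_distrib, ← Finset.sum_add_distrib]
  apply Finset.sum_nonneg
  intro ν _
  have := mul_nonneg (sq_nonneg ((ν : ℝ) - N * t)) (hB ν)
  nlinarith

theorem CM.quad' {g : ℝ → ℝ} (h : CM g) {s x : ℝ} (hs : 0 < s) (hx : 2 < x) (t : ℝ) :
    0 ≤ g (x + s + s) - 2 * t * g (x + s) + t ^ 2 * g x := by
  by_contra hcon
  push Not at hcon
  set Q := g (x + s + s) - 2 * t * g (x + s) + t ^ 2 * g x with hQ
  obtain ⟨N, hN⟩ := exists_nat_gt (|g (x + s) - g (x + s + s)| / (-Q))
  have hN0 : (0 : ℝ) < N := lt_of_le_of_lt (div_nonneg (abs_nonneg _) (by linarith)) hN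
  rw [div_lt_iff₀ (by linarith)] at hN
  have h1 := h.quad hs hx N t
  have h2 : (N * (N - 1) : ℝ) * g (x + s + s) + N * g (x + s) - 2 * (N * t) * (N * g (x + s)) +
      (N * t) ^ 2 * g x = N * (N * Q + (g (x + s) - g (x + s + s))) := by rw [hQ]; ring
  rw [h2] at h1
  have h3 := le_abs_self (g (x + s) - g (x + s + s))
  have h4 : N * Q + (g (x + s) - g (x + s + s)) < 0 := by linarith
  nlinarith

theorem CM.log_mid {g : ℝ → ℝ} (h : CM g) (hpos : ∀ x, 2 < x → 0 < g x) {s x : ℝ} (hs : 0 < s)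
    (hx : 2 < x) : Real.log (g (x + s)) - Real.log (g x) ≤
      Real.log (g (x + s + s)) - Real.log (g (x + s)) := by
  have p0 := hpos x hx
  have p1 := hpos (x + s) (by linarith)
  have p2 := hpos (x + s + s) (by linarith)
  have h1 := h.quad' hs hx (g (x + s) / g x)
  have h2 : g (x + s) * g (x + s) ≤ g (x + s + s) * g x := by
    have e : g (x + s + s) - 2 * (g (x + s) / g x) * g (x + s) + (g (x + s) / g x) ^ 2 * g x =
        (g (x + s + s) * g x - g (x + s) * g (x + s)) / g x := by field_simp; ring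
    rw [e] at h1
    have := (div_nonneg_iff.1 h1)
    rcases this with h3 | h3
    · linarith [h3.1]
    · linarith [h3.2]
  have h3 := Real.log_le_log (by positivity) h2
  rw [Real.log_mul p1.ne' p1.ne', Real.log_mul p2.ne' p0.ne'] at h3
  linarith

theorem CM.log_deriv_mono {g : ℝ → ℝ} (h : CM g) (hpos : ∀ x, 2 < x → 0 < g x) {x y p q : ℝ}
    (hx : 2 < x) (hxy : x < y) (hp : HasDerivAt (fun w => Real.log (g w)) p x)
    (hq : HasDerivAt (fun w => Real.log (g w)) q y) : p ≤ q := by
  have key : ∀ s, 0 < s → ∀ M : ℕ, Real.log (g (x + s)) - Real.log (g x) ≤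
      Real.log (g (x + M * s + s)) - Real.log (g (x + M * s)) := by
    intro s hs M
    induction M with
    | zero => simp
    | succ M ih =>
      have h1 := h.log_mid hpos hs (x := x + M * s) (by
        have : (0 : ℝ) ≤ M * s := by positivity
        linarith)
      have e : x + ((M + 1 : ℕ) : ℝ) * s = x + M * s + s := by push_cast; ring
      rw [e]
      linarith
  have hseq : Tendsto (fun M : ℕ => (y - x) / ((M : ℝ) + 1)) atTop (𝓝[>] 0) := by
    apply tendsto_nhdsWithin_iff.2
    constructor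
    · have := tendsto_one_div_add_atTop_nhds_zero_nat (𝕜 := ℝ).const_mul (y - x)
      simpa [div_eq_mul_inv] using this
    · refine Eventually.of_forall (fun M => ?_)
      show 0 < (y - x) / ((M : ℝ) + 1)
      apply div_pos (by linarith) (by positivity)
  refine le_of_tendsto_of_tendsto' (hp.tendsto_slope_zero_right.comp hseq)
    (hq.tendsto_slope_zero_right.comp hseq) (fun M => ?_)
  have hs : 0 < (y - x) / ((M : ℝ) + 1) := div_pos (by linarith) (by positivity)
  have h1 := key _ hs (M + 1)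
  have e : x + ((M + 1 : ℕ) : ℝ) * ((y - x) / ((M : ℝ) + 1)) = y := by
    push_cast; field_simp; ring
  rw [e] at h1
  simp only [Function.comp, smul_eq_mul]
  exact mul_le_mul_of_nonneg_left h1 (inv_nonneg.2 hs.le)

end Pool.Agent.P.MP_ede858_pr
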