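import Mathlib
import Pool.Agent.P.MP_ede858_pr.Defs2

set_option autoImplicit false

open Set Filter Topology MeasureTheory ProbabilityTheory Real

namespace Pool.Agent.P.MP_ede858_pr

/-! General facts on Laplace transforms. -/

/-- The Laplace transform of a measure. -/
noncomputable def lap (P : Measure ℝ) (s : ℝ) : ℝ := ∫ x, exp (-(s * x)) ∂P

/-- Exponential integrability to the right of `s0`. -/
def ExpInt (P : Measure ℝ) (s0 : ℝ) : Prop :=
  ∀ s, s0 < s → Integrable (fun x => exp (-(s * x))) P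

theorem lap_eq_mgf (P : Measure ℝ) : lap P = mgf (fun x : ℝ => -x) P := by
  funext s
  simp [lap, mgf]

theorem ExpInt.mem {P : Measure ℝ} {s0 s : ℝ} (h : ExpInt P s0) (hs : s0 < s) :
    s ∈ interior (integrableExpSet (fun x : ℝ => -x) P) := by
  refine interior_maximal (t := Ioi s0) (fun t ht => ?_) isOpen_Ioi hs
  simpa [integrableExpSet] using h t ht

theorem ExpInt.hasDerivAt {P : Measure ℝ} {s0 s : ℝ} (h : ExpInt P s0) (hs : s0 < s) :
    HasDerivAt (lap P) (-∫ x, x * exp (-(s * x)) ∂P) s := by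
  rw [lap_eq_mgf, ← integral_neg]
  convert hasDerivAt_mgf (h.mem hs) using 3
  simp

theorem ExpInt.integrable_mul {P : Measure ℝ} {s0 s : ℝ} (h : ExpInt P s0) (hs : s0 < s) :
    Integrable (fun x => x * exp (-(s * x))) P := by
  have := (integrable_pow_mul_exp_of_mem_interior_integrableExpSet (h.mem hs) 1).neg
  refine this.congr (Eventually.of_forall (fun x => ?_))
  simp

theorem ExpInt.analytic {P : Measure ℝ} {s0 : ℝ} (h : ExpInt P s0) :
    AnalyticOnNhd ℝ (lap P) (Ioi s0) := by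
  rw [lap_eq_mgf]
  exact fun s hs => analyticAt_mgf (h.mem hs)

theorem ExpInt.pos {P : Measure ℝ} [IsProbabilityMeasure P] {s0 s : ℝ} (h : ExpInt P s0)
    (hs : s0 < s) : 0 < lap P s := by
  rw [lap_eq_mgf]
  exact mgf_pos (by simpa using h s hs)

theorem lap_zero (P : Measure ℝ) [IsProbabilityMeasure P] : lap P 0 = 1 := by
  simp [lap]

theorem law_integral {f : ℝ → ℝ} (hm : AEMeasurable f (volume.restrict (Ioi 0)))
    (h0 : ∀ x, 0 < x → 0 ≤ f x) (g : ℝ → ℝ) :
    ∫ x, g x ∂(law f) = ∫ x in Ioi (0 : ℝ), g x * f x := by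
  unfold law
  rw [integral_withDensity_eq_integral_toReal_smul₀ hm.ennreal_ofReal (by simp)]
  refine setIntegral_congr_fun measurableSet_Ioi (fun x hx => ?_)
  simp only [smul_eq_mul]
  rw [ENNReal.toReal_ofReal (h0 x hx), mul_comm]

theorem law_integrable {f : ℝ → ℝ} (hm : AEMeasurable f (volume.restrict (Ioi 0)))
    (h0 : ∀ x, 0 < x → 0 ≤ f x) (g : ℝ → ℝ) :
    Integrable g (law f) ↔ IntegrableOn (fun x => g x * f x) (Ioi (0 : ℝ)) := by
  unfold law
  rw [integrable_withDensity_iff_integrable_smul₀' hm.ennreal_ofReal (by simp)]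
  refine integrableOn_congr_fun (fun x hx => ?_) measurableSet_Ioi
  simp only [smul_eq_mul]
  rw [ENNReal.toReal_ofReal (h0 x hx), mul_comm]

theorem law_pos (f : ℝ → ℝ) : ∀ᵐ x ∂(law f), 0 < x :=
  (withDensity_absolutelyContinuous _ _).ae_le (ae_restrict_mem measurableSet_Ioi)

theorem integrable_tsum_of_summable {μ : Measure ℝ} {F : ℕ → ℝ → ℝ} {f : ℝ → ℝ}
    (hF : ∀ k, Integrable (F k) μ) (hs : Summable (fun k => ∫ x, ‖F k x‖ ∂μ))
    (hf : ∀ᵐ x ∂μ, HasSum (fun k => F k x) (f x)) : Integrable f μ := by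
  constructor
  · refine aestronglyMeasurable_of_tendsto_ae atTop
      (f := fun n x => ∑ k ∈ Finset.range n, F k x) (fun n => ?_) ?_
    · exact (integrable_finsetSum _ (fun k _ => hF k)).1
    · filter_upwards [hf] with x hx
      exact hx.tendsto_sum_nat
  · have h1 : ∫⁻ x, ‖f x‖ₑ ∂μ ≤ ∫⁻ x, ∑' k, ‖F k x‖ₑ ∂μ := by
      refine lintegral_mono_ae ?_
      filter_upwards [hf] with x hx
      rw [← hx.tsum_eq]
      exact enorm_tsum_le_tsum_enorm
    refine lt_of_le_of_lt h1 ?_
    rw [lintegral_tsum (fun k => (hF k).1.enorm)]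
    have h2 : ∀ k, ∫⁻ x, ‖F k x‖ₑ ∂μ = ENNReal.ofReal (∫ x, ‖F k x‖ ∂μ) :=
      fun k => (ofReal_integral_norm_eq_lintegral_enorm (hF k)).symm
    simp only [h2]
    rw [← ENNReal.ofReal_tsum_of_nonneg (fun k => integral_nonneg (fun x => norm_nonneg _)) hs]
    exact ENNReal.ofReal_lt_top

theorem lt_series (a : ℕ → ℝ) {β σ : ℝ} (hβ : 0 < β) (hσ : 0 < σ) (f : ℝ → ℝ)
    (hf : ∀ x, 0 < x → HasSum (fun k : ℕ => a k * x ^ (β + 2 * k - 1)) (f x))
    (hs : Summable (fun k : ℕ => |a k| * ((1 / σ) ^ (β + 2 * k) * Gamma (β + 2 * k)))) :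
    IntegrableOn (fun x => exp (-(σ * x)) * f x) (Ioi 0) ∧
      HasSum (fun k : ℕ => a k * ((1 / σ) ^ (β + 2 * k) * Gamma (β + 2 * k)))
        (∫ x in Ioi 0, exp (-(σ * x)) * f x) := by
  have hp : ∀ k : ℕ, 0 < β + 2 * k := fun k => by positivity
  have hI : ∀ k : ℕ, Integrable (fun x : ℝ => a k * (x ^ (β + 2 * k - 1) * exp (-(σ * x))))
      (volume.restrict (Ioi 0)) := by
    intro k
    have := integrableOn_rpow_mul_exp_neg_mul_rpow (s := β + 2 * k - 1) (p := 1) (b := σ)
      (by linarith [hp k]) one_pos hσ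
    simp only [rpow_one, neg_mul] at this
    exact this.const_mul _
  have hN : ∀ k : ℕ, ∫ x in Ioi (0 : ℝ), ‖a k * (x ^ (β + 2 * k - 1) * exp (-(σ * x)))‖
      = |a k| * ((1 / σ) ^ (β + 2 * k) * Gamma (β + 2 * k)) := by
    intro k
    rw [← integral_rpow_mul_exp_neg_mul_Ioi (hp k) hσ, ← integral_const_mul]
    refine setIntegral_congr_fun measurableSet_Ioi (fun x hx => ?_)
    have hx' : 0 < x := hx
    simp only [Real.norm_eq_abs]
    rw [abs_mul, abs_of_nonneg (a := _ * exp _) (by positivity)]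
  have hH : ∀ᵐ x ∂(volume.restrict (Ioi (0 : ℝ))),
      HasSum (fun k : ℕ => a k * (x ^ (β + 2 * k - 1) * exp (-(σ * x)))) (exp (-(σ * x)) * f x) := by
    filter_upwards [ae_restrict_mem measurableSet_Ioi] with x hx
    exact ((hf x hx).mul_left (exp (-(σ * x)))).congr_fun (fun k => by ring)
  have hS : Summable (fun k : ℕ =>
      ∫ x in Ioi (0 : ℝ), ‖a k * (x ^ (β + 2 * k - 1) * exp (-(σ * x)))‖) := by
    simpa only [hN] using hs
  refine ⟨integrable_tsum_of_summable hI hS hH, ?_⟩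
  have h := hasSum_integral_of_summable_integral_norm hI hS
  have e : ∫ x in Ioi (0 : ℝ), ∑' k : ℕ, a k * (x ^ (β + 2 * k - 1) * exp (-(σ * x)))
      = ∫ x in Ioi 0, exp (-(σ * x)) * f x := by
    refine integral_congr_ae ?_
    filter_upwards [hH] with x hx
    exact hx.tsum_eq
  rw [e] at h
  simpa only [integral_const_mul, integral_rpow_mul_exp_neg_mul_Ioi (hp _) hσ] using h

theorem integrableOn_bdd_mul {f g : ℝ → ℝ} {M : ℝ} (hf : IntegrableOn f (Ioi 0))
    (hg : Continuous g) (hM : ∀ x, 0 < x → |g x| ≤ M) :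
    IntegrableOn (fun x => g x * f x) (Ioi 0) := by
  refine Integrable.bdd_mul (c := M) hf hg.aestronglyMeasurable ?_
  filter_upwards [ae_restrict_mem measurableSet_Ioi] with x hx
  exact hM x hx

theorem exp_neg_mem {x : ℝ} (hx : 0 < x) : exp (-x) ∈ Icc (0 : ℝ) 1 :=
  ⟨(exp_pos _).le, exp_le_one_iff.2 (by linarith)⟩

theorem integrableOn_poly_mul {f : ℝ → ℝ} (hf : IntegrableOn f (Ioi 0)) (p : Polynomial ℝ) :
    IntegrableOn (fun x => p.eval (exp (-x)) * f x) (Ioi 0) := by
  obtain ⟨M, hM⟩ := isCompact_Icc.exists_bound_of_continuousOn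
    (p.continuous.continuousOn (s := Icc (0 : ℝ) 1))
  exact integrableOn_bdd_mul hf (by fun_prop) (fun x hx => hM _ (exp_neg_mem hx))

theorem pos_transfer {f : ℝ → ℝ} (hc : ContinuousOn f (Ioi 0)) (hi : IntegrableOn f (Ioi 0))
    (h : ∀ p : Polynomial ℝ, (∀ y ∈ Icc (0 : ℝ) 1, 0 ≤ p.eval y) → p.eval 1 = 0 →
      0 ≤ ∫ x in Ioi 0, p.eval (exp (-x)) * f x) {x0 : ℝ} (hx0 : 0 < x0) : 0 ≤ f x0 := by
  by_contra hneg
  have hev : ∀ᶠ x in 𝓝 x0, f x < 0 ∧ 0 < x :=
    ((hc.continuousAt (Ioi_mem_nhds hx0)).eventually (gt_mem_nhds (not_le.1 hneg))).and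
      (lt_mem_nhds hx0)
  obtain ⟨δ, hδ, hball⟩ := Metric.eventually_nhds_iff.1 hev
  set y1 := exp (-(x0 + δ))
  set y2 := exp (-(x0 - δ))
  let g : ℝ → ℝ := fun y => max 0 ((y - y1) * (y2 - y))
  have hg : Continuous g := by fun_prop
  obtain ⟨M, hM⟩ := isCompact_Icc.exists_bound_of_continuousOn
    (f := fun y => (1 - y) * g y) (s := Icc (0 : ℝ) 1) (by fun_prop)
  have hφ : IntegrableOn (fun x => ((1 - exp (-x)) * g (exp (-x))) * f x) (Ioi 0) :=
    integrableOn_bdd_mul hi (by fun_prop) (fun x hx => hM _ (exp_neg_mem hx))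
  have h1 : 0 ≤ ∫ x in Ioi 0, ((1 - exp (-x)) * g (exp (-x))) * f x := by
    have hN : 0 ≤ ∫ x in Ioi (0 : ℝ), |f x| := integral_nonneg (fun x => abs_nonneg _)
    refine le_of_forall_pos_le_add (fun ε hε => ?_)
    set η := ε / (2 * ((∫ x in Ioi (0 : ℝ), |f x|) + 1)) with hη
    have hη0 : 0 < η := by positivity
    obtain ⟨p, hp⟩ := exists_polynomial_near_of_continuousOn 0 1 g hg.continuousOn η hη0
    have h2 := h ((1 - Polynomial.X) * (p + Polynomial.C η)) (fun y hy => by
      have h3 := abs_lt.1 (hp y hy)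
      have h4 : 0 ≤ g y := le_max_left _ _
      simp only [Polynomial.eval_mul, Polynomial.eval_sub, Polynomial.eval_one, Polynomial.eval_X,
        Polynomial.eval_add, Polynomial.eval_C]
      exact mul_nonneg (by linarith [hy.2]) (by linarith)) (by simp)
    have h3 : ∫ x in Ioi 0, ((1 - Polynomial.X) * (p + Polynomial.C η)).eval (exp (-x)) * f x
        ≤ ∫ x in Ioi 0, (((1 - exp (-x)) * g (exp (-x))) * f x + 2 * η * |f x|) := by
      refine setIntegral_mono_on (integrableOn_poly_mul hi _)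
        (hφ.add (hi.abs.const_mul _)) measurableSet_Ioi (fun x hx => ?_)
      have hy := exp_neg_mem hx
      have h3 := abs_lt.1 (hp _ hy)
      simp only [Polynomial.eval_mul, Polynomial.eval_sub, Polynomial.eval_one, Polynomial.eval_X,
        Polynomial.eval_add, Polynomial.eval_C]
      have h5 : |(1 - exp (-x)) * (p.eval (exp (-x)) + η - g (exp (-x)))| ≤ 2 * η := by
        rw [abs_mul, abs_of_nonneg (by linarith [hy.2]), abs_of_nonneg (by linarith)]
        nlinarith [hy.1, hy.2]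
      have h6 := le_abs_self ((1 - exp (-x)) * (p.eval (exp (-x)) + η - g (exp (-x))) * f x)
      rw [abs_mul] at h6
      nlinarith [mul_le_mul_of_nonneg_right h5 (abs_nonneg (f x))]
    rw [integral_add hφ (hi.abs.const_mul _), integral_const_mul] at h3
    have h4 : 2 * η * ∫ x in Ioi (0 : ℝ), |f x| ≤ ε := by
      have : 2 * η * ((∫ x in Ioi (0 : ℝ), |f x|) + 1) = ε := by
        rw [hη]
        field_simp
      nlinarith
    linarith
  have h2 : 0 < ∫ x in Ioi 0, -(((1 - exp (-x)) * g (exp (-x))) * f x) := by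
    rw [setIntegral_pos_iff_support_of_nonneg_ae (f := fun x =>
      -(((1 - exp (-x)) * g (exp (-x))) * f x)) _ hφ.neg]
    · refine lt_of_lt_of_le ?_ (measure_mono (s := Ioo (x0 - δ) (x0 + δ)) (fun x hx => ?_))
      · simp only [Real.volume_Ioo, ENNReal.ofReal_pos]
        linarith
      · have h3 := hball (y := x) (by rw [Real.dist_eq, abs_lt]; constructor <;> linarith [hx.1, hx.2])
        refine ⟨?_, h3.2⟩
        have h4 : y1 < exp (-x) := exp_lt_exp.2 (by linarith [hx.2])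
        have h5 : exp (-x) < y2 := exp_lt_exp.2 (by linarith [hx.1])
        have h6 : exp (-x) < 1 := exp_lt_one_iff.2 (by linarith [h3.2])
        have h7 : 0 < g (exp (-x)) := lt_max_of_lt_right (mul_pos (by linarith) (by linarith))
        have h8 := mul_neg_of_pos_of_neg (mul_pos (sub_pos.2 h6) h7) h3.1
        exact (neg_pos.2 h8).ne'
    · filter_upwards [ae_restrict_mem measurableSet_Ioi] with x hx
      have hy := exp_neg_mem hx
      simp only [Pi.zero_apply, neg_nonneg]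
      by_cases h3 : (exp (-x) - y1) * (y2 - exp (-x)) ≤ 0
      · have : g (exp (-x)) = 0 := max_eq_left h3
        simp [this]
      · have h12 : y1 < y2 := exp_lt_exp.2 (by linarith)
        have h4 : y1 < exp (-x) := by
          by_contra h4
          exact h3 (mul_nonpos_of_nonpos_of_nonneg (by linarith) (by linarith))
        have h5 : exp (-x) < y2 := by
          by_contra h5
          exact h3 (mul_nonpos_of_nonneg_of_nonpos (by linarith) (by linarith))
        have h6 := exp_lt_exp.1 h4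
        have h7 := exp_lt_exp.1 h5
        have h8 := hball (y := x) (by rw [Real.dist_eq, abs_lt]; constructor <;> linarith)
        exact mul_nonpos_of_nonneg_of_nonpos
          (mul_nonneg (by linarith [hy.2]) (le_max_left _ _)) h8.1.le
  rw [integral_neg] at h2
  linarith

theorem poly_integral {f : ℝ → ℝ} (hi : IntegrableOn f (Ioi 0)) (p : Polynomial ℝ) :
    ∫ x in Ioi 0, p.eval (exp (-x)) * f x
      = ∑ n ∈ Finset.range (p.natDegree + 1),
        p.coeff n * ∫ x in Ioi 0, exp (-((n : ℝ) * x)) * f x := by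
  have e : ∀ (n : ℕ) (x : ℝ), exp (-((n : ℝ) * x)) = exp (-x) ^ n := by
    intro n x
    rw [← exp_nat_mul]
    ring_nf
  simp only [Polynomial.eval_eq_sum_range, Finset.sum_mul, e]
  rw [integral_finsetSum]
  · refine Finset.sum_congr rfl (fun n _ => ?_)
    rw [← integral_const_mul]
    simp only [mul_assoc]
  · intro n _
    have := integrableOn_poly_mul hi (Polynomial.C (p.coeff n) * Polynomial.X ^ n)
    simpa [IntegrableOn] using this

theorem zero_of_lt {f : ℝ → ℝ} {a : ℝ} (hc : ContinuousOn f (Ioi 0)) (hi : IntegrableOn f (Ioi 0))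
    (h : ∀ n : ℕ, ∫ x in Ioi 0, exp (-((n : ℝ) * x)) * f x = a) {x0 : ℝ} (hx0 : 0 < x0) :
    f x0 = 0 := by
  have h0 : ∀ p : Polynomial ℝ, p.eval 1 = 0 → ∫ x in Ioi 0, p.eval (exp (-x)) * f x = 0 := by
    intro p hp
    rw [poly_integral hi]
    simp only [h]
    rw [← Finset.sum_mul]
    rw [Polynomial.eval_eq_sum_range] at hp
    simp only [one_pow, mul_one] at hp
    rw [hp, zero_mul]
  refine le_antisymm ?_ (pos_transfer hc hi (fun p _ hp => (h0 p hp).ge) hx0)
  have := pos_transfer (f := fun x => -f x) hc.neg hi.neg (fun p _ hp => by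
    simp only [mul_neg]
    rw [integral_neg, h0 p hp, neg_zero]) hx0
  linarith

theorem eq_of_deriv_zero {F : ℝ → ℝ} {s : ℝ} (hs : 0 ≤ s) (hc : ContinuousOn F (Icc 0 s))
    (hd : ∀ u, 0 < u → HasDerivAt F 0 u) : F s = F 0 := by
  rcases hs.eq_or_lt with rfl | hs
  · rfl
  obtain ⟨c, -, hc'⟩ := exists_hasDerivAt_eq_slope F (fun _ => 0) hs hc (fun u hu => hd u hu.1)
  rw [sub_zero, eq_div_iff hs.ne', zero_mul] at hc'
  linarith

end Pool.Agent.P.MP_ede858_pr
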