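import Mathlib
import Pool.Agent.P.MP_ede858_pr.Lap

set_option autoImplicit false

open Set Filter Topology MeasureTheory ProbabilityTheory Real
open scoped ENNReal

namespace Pool.Agent.P.MP_ede858_pr

/-! Laplace transforms with values in `[0, ∞]`, uniqueness, and compound Poisson laws. -/

/-- The Laplace transform as a Lebesgue integral. -/
noncomputable def elap (P : Measure ℝ) (s : ℝ) : ℝ≥0∞ :=
  ∫⁻ x, ENNReal.ofReal (exp (-(s * x))) ∂P

theorem elap_eq {P : Measure ℝ} {s : ℝ} (h : Integrable (fun x => exp (-(s * x))) P) :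
    elap P s = ENNReal.ofReal (lap P s) :=
  (ofReal_integral_eq_lintegral_ofReal h (Eventually.of_forall (fun _ => (exp_pos _).le))).symm

theorem elap_zero (P : Measure ℝ) : elap P 0 = P univ := by
  simp [elap]

theorem elap_conv (P Q : Measure ℝ) [SFinite Q] (s : ℝ) :
    elap (Measure.conv P Q) s = elap P s * elap Q s := by
  unfold elap
  rw [Measure.lintegral_conv (by fun_prop), ← lintegral_mul_const _ (by fun_prop)]
  refine lintegral_congr (fun x => ?_)
  rw [← lintegral_const_mul _ (by fun_prop)]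
  refine lintegral_congr (fun y => ?_)
  rw [← ENNReal.ofReal_mul (exp_pos _).le, ← exp_add]
  congr 2
  ring

theorem elap_map (P : Measure ℝ) (c s : ℝ) : elap (P.map (fun x => c * x)) s = elap P (c * s) := by
  unfold elap
  rw [lintegral_map (by fun_prop) (by fun_prop)]
  refine lintegral_congr (fun x => ?_)
  congr 3
  ring

theorem integrable_exp_of_nonneg {P : Measure ℝ} [IsFiniteMeasure P] (h : ∀ᵐ x ∂P, 0 ≤ x) {s : ℝ}
    (hs : 0 ≤ s) : Integrable (fun x => exp (-(s * x))) P := by
  refine Integrable.of_bound (by fun_prop) 1 ?_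
  filter_upwards [h] with x hx
  rw [Real.norm_of_nonneg (exp_pos _).le, exp_le_one_iff, neg_nonpos]
  positivity

theorem elap_anti {P : Measure ℝ} (h : ∀ᵐ x ∂P, 0 ≤ x) {s t : ℝ} (hst : s ≤ t) :
    elap P t ≤ elap P s := by
  refine lintegral_mono_ae ?_
  filter_upwards [h] with x hx
  exact ENNReal.ofReal_le_ofReal (exp_le_exp.2 (by nlinarith))

theorem nonneg_of_elap {Q : Measure ℝ} {M : ℝ≥0∞} (hM : M ≠ ∞) (h : ∀ s, 0 ≤ s → elap Q s ≤ M) :
    ∀ᵐ x ∂Q, 0 ≤ x := by
  have h1 : ∀ ε : ℝ, 0 < ε → Q {x | x ≤ -ε} = 0 := by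
    intro ε hε
    have h2 : ∀ n : ℕ, (n : ℝ≥0∞) * Q {x | x ≤ -ε} ≤ M := by
      intro n
      have h3 := mul_meas_ge_le_lintegral (μ := Q)
        (f := fun x => ENNReal.ofReal (exp (-(n / ε * x)))) (by fun_prop) (n : ℝ≥0∞)
      refine le_trans ?_ (h3.trans (h (n / ε) (by positivity)))
      refine mul_le_mul_right (measure_mono (fun x hx => ?_)) _
      have hx' : x ≤ -ε := hx
      simp only [mem_ofPred_eq]
      rw [← ENNReal.ofReal_natCast]
      refine ENNReal.ofReal_le_ofReal (le_trans ?_ (add_one_le_exp _))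
      have : (n : ℝ) / ε * ε = n := by field_simp
      have h4 : (0 : ℝ) ≤ n / ε := by positivity
      nlinarith
    by_contra h0
    have h4 := ENNReal.Tendsto.mul_const (b := Q {x | x ≤ -ε}) ENNReal.tendsto_nat_nhds_top
      (Or.inl ENNReal.top_ne_zero)
    rw [ENNReal.top_mul h0] at h4
    exact hM (top_le_iff.1 (le_of_tendsto' h4 h2))
  rw [ae_iff]
  refine measure_mono_null (t := ⋃ n : ℕ, {x : ℝ | x ≤ -(1 / ((n : ℝ) + 1))}) (fun x hx => ?_)
    (measure_iUnion_null (fun n => h1 _ (by positivity)))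
  have hx' : 0 < -x := by simpa using hx
  obtain ⟨n, hn⟩ := exists_nat_one_div_lt hx'
  exact mem_iUnion.2 ⟨n, by simp only [mem_ofPred_eq]; linarith⟩

theorem charFun_limit {P : Measure ℝ} [IsFiniteMeasure P] (h : ∀ᵐ x ∂P, 0 ≤ x) (t : ℝ) :
    Tendsto (fun n : ℕ => complexMGF id P (-((1 / ((n : ℝ) + 1) : ℝ) : ℂ) + t * Complex.I)) atTop
      (𝓝 (charFun P t)) := by
  rw [← complexMGF_id_mul_I]
  unfold complexMGF
  refine tendsto_integral_of_dominated_convergence (fun _ => 1) (fun n => by fun_prop)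
    (integrable_const _) (fun n => ?_) (Eventually.of_forall (fun x => ?_))
  · filter_upwards [h] with x hx
    rw [Complex.norm_exp, exp_le_one_iff]
    simp only [id, Complex.mul_re, Complex.add_re, Complex.neg_re, Complex.ofReal_re,
      Complex.I_re, Complex.ofReal_im, Complex.I_im, mul_zero, zero_mul, sub_zero, add_zero]
    have : 0 ≤ 1 / ((n : ℝ) + 1) * x := by positivity
    linarith
  · have h1 : Tendsto (fun n : ℕ => ((1 / ((n : ℝ) + 1) : ℝ) : ℂ)) atTop (𝓝 0) := by
      have := (Complex.continuous_ofReal.tendsto 0).comp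
        (tendsto_one_div_add_atTop_nhds_zero_nat (𝕜 := ℝ))
      simpa only [Complex.ofReal_zero, Function.comp_def] using this
    have h2 := ((h1.neg.add_const (t * Complex.I)).mul_const ((id x : ℝ) : ℂ)).cexp
    simpa only [neg_zero, zero_add] using h2

theorem lap_unique {P Q : Measure ℝ} [IsFiniteMeasure P] [IsFiniteMeasure Q]
    (hP : ∀ᵐ x ∂P, 0 ≤ x) (hQ : ∀ᵐ x ∂Q, 0 ≤ x) (h : ∀ s, 0 ≤ s → lap P s = lap Q s) : P = Q := by
  have hA : ∀ {V : Measure ℝ} [IsFiniteMeasure V], (∀ᵐ x ∂V, 0 ≤ x) →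
      AnalyticOnNhd ℂ (complexMGF id V) {z | z.re < 0} := by
    intro V _ hV
    refine analyticOnNhd_complexMGF.mono (fun z hz => ?_)
    refine interior_maximal (t := Iio 0) (fun u hu => ?_) isOpen_Iio hz
    have := integrable_exp_of_nonneg hV (s := -u) (neg_nonneg.2 (le_of_lt hu))
    simpa [integrableExpSet] using this
  have hE : EqOn (complexMGF id P) (complexMGF id Q) {z | z.re < 0} := by
    refine AnalyticOnNhd.eqOn_of_preconnected_of_frequently_eq (hA hP) (hA hQ)
      (convex_halfSpace_re_lt 0).isPreconnected (z₀ := ((-1 : ℝ) : ℂ)) (by simp) ?_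
    have h_real : ∃ᶠ (x : ℝ) in 𝓝[≠] (-1), complexMGF id P x = complexMGF id Q x := by
      refine Eventually.frequently ?_
      filter_upwards [nhdsWithin_le_nhds (gt_mem_nhds (show (-1 : ℝ) < 0 by norm_num))] with y hy
      have := h (-y) (by linarith)
      rw [complexMGF_ofReal, complexMGF_ofReal]
      simpa [lap, mgf] using this
    rw [frequently_iff_seq_forall] at h_real ⊢
    obtain ⟨xs, hx_tendsto, hx_eq⟩ := h_real
    refine ⟨fun n => xs n, ?_, fun n => ?_⟩
    · rw [tendsto_nhdsWithin_iff] at hx_tendsto ⊢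
      constructor
      · rw [tendsto_ofReal_iff]
        exact hx_tendsto.1
      · filter_upwards [hx_tendsto.2] with n hn
        exact fun h0 => hn (Complex.ofReal_injective h0)
    · exact hx_eq n
  refine Measure.ext_of_charFun (funext (fun t => ?_))
  refine tendsto_nhds_unique (charFun_limit hP t) ((charFun_limit hQ t).congr (fun n => ?_))
  refine (hE ?_).symm
  simp only [mem_ofPred_eq, Complex.mul_re, Complex.add_re, Complex.neg_re, Complex.ofReal_re,
    Complex.I_re, Complex.ofReal_im, Complex.I_im, mul_zero, zero_mul, sub_zero, add_zero]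
  have : 0 < 1 / ((n : ℝ) + 1) := by positivity
  linarith

theorem elap_unique {P Q : Measure ℝ} [IsFiniteMeasure P] (hP : ∀ᵐ x ∂P, 0 ≤ x)
    (h : ∀ s, 0 ≤ s → elap P s = elap Q s) : P = Q := by
  have hu : P univ = Q univ := by rw [← elap_zero, ← elap_zero, h 0 le_rfl]
  have : IsFiniteMeasure Q := ⟨by rw [← hu]; exact measure_lt_top _ _⟩
  have hQ : ∀ᵐ x ∂Q, 0 ≤ x := nonneg_of_elap (measure_ne_top P univ) (fun s hs => by
    rw [← h s hs, ← elap_zero]
    exact elap_anti hP hs)
  refine lap_unique hP hQ (fun s hs => ?_)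
  have h1 := h s hs
  rw [elap_eq (integrable_exp_of_nonneg hP hs), elap_eq (integrable_exp_of_nonneg hQ hs)] at h1
  exact (ENNReal.ofReal_eq_ofReal_iff (integral_nonneg (fun _ => (exp_pos _).le))
    (integral_nonneg (fun _ => (exp_pos _).le))).1 h1

theorem exists_compound (N : Measure ℝ) [IsFiniteMeasure N] (hN : ∀ᵐ x ∂N, 0 ≤ x) :
    ∃ Q : Measure ℝ, IsProbabilityMeasure Q ∧
      ∀ s, 0 ≤ s → elap Q s = ENNReal.ofReal (exp (lap N s - lap N 0)) := by
  let pw : ℕ → Measure ℝ := fun j => (fun V => Measure.conv V N)^[j] (Measure.dirac 0)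
  have hpw : ∀ j s, elap (pw j) s = elap N s ^ j := by
    intro j s
    induction j with
    | zero => simp [pw, elap]
    | succ j ih =>
      simp only [pw, Function.iterate_succ_apply'] at ih ⊢
      rw [elap_conv, ih, pow_succ]
  let Q : Measure ℝ := Measure.sum
    (fun j : ℕ => ENNReal.ofReal (exp (-lap N 0) / (j.factorial : ℝ)) • pw j)
  have hQ : ∀ s, 0 ≤ s → elap Q s = ENNReal.ofReal (exp (lap N s - lap N 0)) := by
    intro s hs
    have h0 : 0 ≤ lap N s := integral_nonneg (fun _ => (exp_pos _).le)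
    have h1 : elap Q s = ∑' j : ℕ, ENNReal.ofReal
        (exp (-lap N 0) * (lap N s ^ j / (j.factorial : ℝ))) := by
      simp only [elap, Q]
      rw [lintegral_sum_measure]
      refine tsum_congr (fun j => ?_)
      rw [lintegral_smul_measure, smul_eq_mul]
      have h2 := hpw j s
      rw [elap_eq (integrable_exp_of_nonneg hN hs), ← ENNReal.ofReal_pow h0, elap] at h2
      rw [h2, ← ENNReal.ofReal_mul (by positivity)]
      congr 1
      ring
    have h3 : HasSum (fun n : ℕ => lap N s ^ n / (n.factorial : ℝ)) (exp (lap N s)) := by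
      rw [Real.exp_eq_exp_ℝ]
      exact NormedSpace.expSeries_div_hasSum_exp _
    rw [h1, ← ENNReal.ofReal_tsum_of_nonneg (fun j => by positivity)
      (h3.mul_left _).summable, (h3.mul_left _).tsum_eq, ← exp_add]
    congr 2
    ring
  refine ⟨Q, ⟨?_⟩, hQ⟩
  rw [← elap_zero, hQ 0 le_rfl, sub_self, exp_zero, ENNReal.ofReal_one]

end Pool.Agent.P.MP_ede858_pr
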