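import Mathlib

/-! The Riccati equation argument. -/

set_option autoImplicit false

open Set Filter Topology

namespace Pool.Agent.P.MP_ede858_pr

theorem eta_tendsto {η : ℝ → ℝ} {q m : ℝ} (hm : -1 / 2 < m)
    (hd : ∀ t, 0 < t → HasDerivAt η ((q - η t ^ 2 - 2 * t * η t + η t) / t) t)
    (hlow : ∀ t, 0 < t → m - t ≤ η t) : Tendsto η atTop (𝓝 0) := by
  rw [Metric.tendsto_atTop]
  intro ε hε
  obtain ⟨T0, hT0⟩ := exists_nat_gt (8 * q ^ 2 / ε ^ 2)
  set T : ℝ := T0 + 3 with hT
  have hT00 : (0 : ℝ) ≤ T0 := Nat.cast_nonneg _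
  have hε2 : 0 < ε ^ 2 := by positivity
  rw [div_lt_iff₀ hε2] at hT0
  let F : ℝ → ℝ := fun t => Real.exp (t / 2) * (η t ^ 2 - ε ^ 2 / 2)
  have hF : ∀ t, 0 < t → HasDerivAt F (Real.exp (t / 2) * (1 / 2) * (η t ^ 2 - ε ^ 2 / 2) +
      Real.exp (t / 2) * (2 * η t * ((q - η t ^ 2 - 2 * t * η t + η t) / t))) t := by
    intro t ht
    have h1 : HasDerivAt (fun t : ℝ => Real.exp (t / 2)) (Real.exp (t / 2) * (1 / 2)) t :=
      ((hasDerivAt_id t).div_const 2).exp
    have h2 := ((hd t ht).pow 2).sub_const (ε ^ 2 / 2)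
    refine (h1.mul h2).congr_deriv ?_
    simp
  have hanti : AntitoneOn F (Ici T) := by
    apply antitoneOn_of_deriv_nonpos (convex_Ici T)
    · exact fun y hy => (hF y (by have : T ≤ y := hy; linarith)).continuousAt.continuousWithinAt
    · rw [interior_Ici]
      exact fun y hy => (hF y (by
        have : T < y := hy
        linarith)).differentiableAt.differentiableWithinAt
    · rw [interior_Ici]
      intro y hy
      have hy' : T < y := hy
      have hy0 : 0 < y := by linarith
      rw [(hF y hy0).deriv]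
      have he := Real.exp_pos (y / 2)
      have hl := hlow y hy0
      have key : 1 / 2 * (η y ^ 2 - ε ^ 2 / 2) +
          2 * η y * ((q - η y ^ 2 - 2 * y * η y + η y) / y) ≤ 0 := by
        have e : 1 / 2 * (η y ^ 2 - ε ^ 2 / 2) +
            2 * η y * ((q - η y ^ 2 - 2 * y * η y + η y) / y) =
            (y / 2 * (η y ^ 2 - ε ^ 2 / 2) +
              2 * η y * (q - η y ^ 2 - 2 * y * η y + η y)) / y := by
          field_simp
        rw [e]
        apply div_nonpos_of_nonpos_of_nonneg _ hy0.le
        have g1 : y / 2 ≤ η y + 2 * y - 1 := by linarith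
        have g2 : η y ^ 2 * (y / 2) ≤ η y ^ 2 * (η y + 2 * y - 1) :=
          mul_le_mul_of_nonneg_left g1 (sq_nonneg _)
        have g3 : 2 * η y * q ≤ η y ^ 2 + q ^ 2 := by nlinarith [sq_nonneg (η y - q)]
        have g4 : η y ^ 2 * 1 ≤ η y ^ 2 * (y / 2) :=
          mul_le_mul_of_nonneg_left (by linarith) (sq_nonneg _)
        have g5 : T0 * ε ^ 2 ≤ y * ε ^ 2 := mul_le_mul_of_nonneg_right (by linarith) hε2.le
        nlinarith [sq_nonneg q]
      nlinarith
  have hlim : Tendsto (fun t : ℝ => |F T| * Real.exp (-(t / 2))) atTop (𝓝 0) := by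
    have h1 : Tendsto (fun t : ℝ => Real.exp (-(t / 2))) atTop (𝓝 0) :=
      Real.tendsto_exp_neg_atTop_nhds_zero.comp (tendsto_id.atTop_div_const (by norm_num))
    simpa using h1.const_mul |F T|
  obtain ⟨N, hN⟩ := eventually_atTop.1 (hlim.eventually (gt_mem_nhds (half_pos hε2)))
  refine ⟨max N T, fun t ht => ?_⟩
  have h1 := hN t (le_trans (le_max_left _ _) ht)
  have h2 : F t ≤ F T := hanti (show T ∈ Ici T from le_refl T) (le_trans (le_max_right _ _) ht)
    (le_trans (le_max_right _ _) ht)
  have h3 : η t ^ 2 - ε ^ 2 / 2 = F t * Real.exp (-(t / 2)) := by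
    simp only [F]
    rw [Real.exp_neg]
    field_simp
  have h4 : F t * Real.exp (-(t / 2)) ≤ |F T| * Real.exp (-(t / 2)) :=
    mul_le_mul_of_nonneg_right (h2.trans (le_abs_self _)) (Real.exp_pos _).le
  rw [Real.dist_eq, sub_zero]
  apply abs_lt_of_sq_lt_sq _ hε.le
  linarith

theorem sigma_not_mono {σ : ℝ → ℝ} {q : ℝ}
    (hd : ∀ t, 0 < t → HasDerivAt σ (q + 2 * σ t / t - σ t ^ 2 / t ^ 2 - 2 * σ t) t)
    (hmono : MonotoneOn σ (Ioi 0)) {t0 : ℝ} (ht0 : 0 < t0) (hpos : 0 < σ t0) : False := by
  by_cases hA : ∃ t1, 0 < t1 ∧ q / 2 < σ t1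
  · obtain ⟨t1, ht1, h1⟩ := hA
    set t2 := max t0 t1 with ht2
    have ht2' : 0 < t2 := lt_of_lt_of_le ht0 (le_max_left _ _)
    have s1 : σ t0 ≤ σ t2 := hmono ht0 ht2' (le_max_left _ _)
    have s2 : σ t1 ≤ σ t2 := hmono ht1 ht2' (le_max_right _ _)
    set s := σ t2 with hs
    have hs0 : 0 < s := by linarith
    have hsq : 0 < 2 * s - q := by linarith
    set T := t2 + 1 + 2 * s / (2 * s - q) with hT
    have hT1 : 0 < 2 * s / (2 * s - q) := by positivity
    have hanti : StrictAntiOn σ (Ici T) := by
      apply strictAntiOn_of_deriv_neg (convex_Ici T)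
      · exact fun y hy => (hd y (by
          have : T ≤ y := hy
          linarith)).continuousAt.continuousWithinAt
      · rw [interior_Ici]
        intro y hy
        have hy' : T < y := hy
        have hy0 : 0 < y := by linarith
        rw [(hd y hy0).deriv]
        have g1 : s ≤ σ y := hmono ht2' hy0 (by linarith)
        have g2 : 2 * s / (2 * s - q) < y := by linarith
        rw [div_lt_iff₀ hsq] at g2
        have g3 : 0 ≤ σ y ^ 2 / y ^ 2 := by positivity
        have g4 : q + 2 * σ y / y - 2 * σ y = (q * y + 2 * σ y - 2 * σ y * y) / y := by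
          field_simp
        have g5 : (q * y + 2 * σ y - 2 * σ y * y) / y < 0 := by
          apply div_neg_of_neg_of_pos _ hy0
          have : 0 ≤ (σ y - s) * (y - 1) := mul_nonneg (by linarith) (by linarith)
          nlinarith
        linarith
    have h3 := hanti (show T ∈ Ici T from le_refl T) (show T + 1 ∈ Ici T from by
      show T ≤ T + 1
      linarith) (by linarith)
    have h4 := hmono (show T ∈ Ioi 0 from by
      show 0 < T
      linarith) (show T + 1 ∈ Ioi 0 from by
      show 0 < T + 1
      linarith) (by linarith)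
    linarith
  · push Not at hA
    have hq : 0 < q := by have := hA t0 ht0; linarith
    set s := σ t0 with hs
    set T := t0 + q with hT
    have hG : ∀ t, 0 < t → HasDerivAt (fun t => σ t - s * Real.log t)
        (q + 2 * σ t / t - σ t ^ 2 / t ^ 2 - 2 * σ t - s * t⁻¹) t := fun t ht =>
      (hd t ht).sub ((Real.hasDerivAt_log ht.ne').const_mul s)
    have hm2 : MonotoneOn (fun t => σ t - s * Real.log t) (Ici T) := by
      apply monotoneOn_of_deriv_nonneg (convex_Ici T)
      · exact fun y hy => (hG y (by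
          have : T ≤ y := hy
          linarith)).continuousAt.continuousWithinAt
      · rw [interior_Ici]
        exact fun y hy => (hG y (by
          have : T < y := hy
          linarith)).differentiableAt.differentiableWithinAt
      · rw [interior_Ici]
        intro y hy
        have hy' : T < y := hy
        have hy0 : 0 < y := by linarith
        rw [(hG y hy0).deriv]
        have g1 : s ≤ σ y := hmono ht0 hy0 (by linarith)
        have g2 := hA y hy0
        have g4 : 2 * σ y / y - σ y ^ 2 / y ^ 2 - s * y⁻¹ =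
            (2 * σ y * y - σ y ^ 2 - s * y) / y ^ 2 := by
          field_simp
        have g5 : 0 ≤ (2 * σ y * y - σ y ^ 2 - s * y) / y ^ 2 := by
          apply div_nonneg _ (by positivity)
          have : 0 ≤ (σ y - s) * y := mul_nonneg (by linarith) hy0.le
          have : 0 ≤ σ y * (y - σ y) := mul_nonneg (by linarith) (by linarith)
          nlinarith
        linarith
    have hT0 : 0 < T := by linarith
    set y := T * Real.exp (q / s) with hy
    have hexp : 1 ≤ Real.exp (q / s) := Real.one_le_exp (by positivity)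
    have hyT : T ≤ y := by nlinarith
    have h3 := hm2 (show T ∈ Ici T from le_refl T) (show y ∈ Ici T from hyT) hyT
    have h4 : Real.log y = Real.log T + q / s := by
      rw [hy, Real.log_mul hT0.ne' (Real.exp_pos _).ne', Real.log_exp]
    simp only at h3
    rw [h4] at h3
    have h5 : s * (q / s) = q := by field_simp
    have h6 := hA y (by linarith)
    have h7 : s ≤ σ T := hmono ht0 hT0 (by linarith)
    nlinarith

end Pool.Agent.P.MP_ede858_pr
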