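import Mathlib
import Pool.Agent.P.MP_ede858_pr.Defs
import Pool.Agent.P.MP_ede858_pr.CM
import Pool.Agent.P.MP_ede858_pr.Riccati

set_option autoImplicit false

open Set Filter Topology

namespace Pool.Agent.P.MP_ede858_pr

noncomputable def co (μ : ℝ) (k : ℕ) : ℝ := 1 / ((k.factorial : ℝ) * Real.Gamma ((k : ℝ) + μ + 1))

noncomputable def SS (μ y : ℝ) : ℝ := ∑' k : ℕ, co μ k * y ^ k

theorem gamma_pos {μ : ℝ} (hμ : -1 < μ) (k : ℕ) : 0 < Real.Gamma ((k : ℝ) + μ + 1) :=
  Real.Gamma_pos_of_pos (by have : (0 : ℝ) ≤ k := Nat.cast_nonneg k; linarith)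

theorem co_pos {μ : ℝ} (hμ : -1 < μ) (k : ℕ) : 0 < co μ k := by
  have := gamma_pos hμ k
  unfold co
  positivity

theorem gamma_succ {μ : ℝ} (hμ : -1 < μ) (k : ℕ) :
    Real.Gamma (((k + 1 : ℕ) : ℝ) + μ + 1) = ((k : ℝ) + μ + 1) * Real.Gamma ((k : ℝ) + μ + 1) := by
  have : (0 : ℝ) ≤ k := Nat.cast_nonneg k
  rw [← Real.Gamma_add_one (by linarith)]
  congr 1
  push_cast; ring

theorem gamma_low {μ : ℝ} (hμ : -1 < μ) : ∃ m, 0 < m ∧ ∀ k : ℕ, m ≤ Real.Gamma ((k : ℝ) + μ + 1) := by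
  refine ⟨min (Real.Gamma (((0 : ℕ) : ℝ) + μ + 1)) (Real.Gamma (((1 : ℕ) : ℝ) + μ + 1)),
    lt_min (gamma_pos hμ 0) (gamma_pos hμ 1), fun k => ?_⟩
  cases k with
  | zero => exact min_le_left _ _
  | succ k =>
    refine le_trans (min_le_right _ _) ?_
    induction k with
    | zero => exact le_rfl
    | succ k ih =>
      rw [gamma_succ hμ (k + 1)]
      have h1 := gamma_pos hμ (k + 1)
      have h2 : (1 : ℝ) ≤ ((k + 1 : ℕ) : ℝ) + μ + 1 := by
        have : (0 : ℝ) ≤ k := Nat.cast_nonneg k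
        push_cast; linarith
      nlinarith

theorem summable_abs {μ : ℝ} (hμ : -1 < μ) {y : ℝ} (hy : 0 ≤ y) :
    Summable (fun k => co μ k * y ^ k) := by
  obtain ⟨m, hm, h⟩ := gamma_low hμ
  refine Summable.of_nonneg_of_le (fun k => mul_nonneg (co_pos hμ k).le (by positivity))
    (fun k => ?_) ((Real.summable_pow_div_factorial y).mul_left (1 / m))
  have h1 : co μ k ≤ 1 / m * (1 / k.factorial) := by
    unfold co
    rw [one_div_mul_one_div, mul_comm m]
    apply one_div_le_one_div_of_le (by positivity)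
    exact mul_le_mul_of_nonneg_left (h k) (by positivity)
  calc co μ k * y ^ k ≤ 1 / m * (1 / k.factorial) * y ^ k :=
        mul_le_mul_of_nonneg_right h1 (by positivity)
    _ = _ := by ring

theorem summable_SS {μ : ℝ} (hμ : -1 < μ) (y : ℝ) : Summable (fun k => co μ k * y ^ k) := by
  refine Summable.of_norm_bounded (summable_abs hμ (abs_nonneg y)) (fun k => ?_)
  rw [Real.norm_eq_abs, abs_mul, abs_pow, abs_of_pos (co_pos hμ k)]

theorem co_succ {μ : ℝ} (hμ : -1 < μ) (k : ℕ) : co μ (k + 1) * ((k : ℝ) + 1) = co (μ + 1) k := by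
  unfold co
  have e : (((k + 1 : ℕ) : ℝ) + μ + 1) = (k : ℝ) + (μ + 1) + 1 := by push_cast; ring
  have := gamma_pos (show -1 < μ + 1 by linarith) k
  rw [e, Nat.factorial_succ]
  push_cast
  field_simp

theorem co_shift {μ : ℝ} (hμ : -1 < μ) (k : ℕ) : co μ k = ((k : ℝ) + μ + 1) * co (μ + 1) k := by
  unfold co
  have e : (k : ℝ) + (μ + 1) + 1 = (((k + 1 : ℕ) : ℝ) + μ + 1) := by push_cast; ring
  have := gamma_pos hμ k
  have h2 : (0 : ℝ) < (k : ℝ) + μ + 1 := by
    have : (0 : ℝ) ≤ k := Nat.cast_nonneg k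
    linarith
  rw [e, gamma_succ hμ]
  field_simp

theorem SS_eq {μ : ℝ} (hμ : -1 < μ) (y : ℝ) :
    SS μ y = co μ 0 + ∑' k : ℕ, co μ (k + 1) * y ^ (k + 1) := by
  unfold SS
  rw [(summable_SS hμ y).tsum_eq_zero_add]
  simp

theorem SS_pos {μ : ℝ} (hμ : -1 < μ) {y : ℝ} (hy : 0 ≤ y) : 0 < SS μ y := by
  rw [SS_eq hμ]
  have := co_pos hμ 0
  have h2 : 0 ≤ ∑' k : ℕ, co μ (k + 1) * y ^ (k + 1) :=
    tsum_nonneg (fun k => mul_nonneg (co_pos hμ _).le (by positivity))
  linarith

theorem hasDerivAt_SS {μ : ℝ} (hμ : -1 < μ) (y : ℝ) : HasDerivAt (SS μ) (SS (μ + 1) y) y := by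
  have hμ' : -1 < μ + 1 := by linarith
  have h := hasDerivAt_tsum_of_isPreconnected (𝕜 := ℝ) (t := Ioo (-(|y| + 1)) (|y| + 1))
    (g := fun k z => co μ (k + 1) * z ^ (k + 1)) (g' := fun k z => co (μ + 1) k * z ^ k)
    (y₀ := y) (y := y)
    (summable_abs hμ' (show 0 ≤ |y| + 1 by positivity)) isOpen_Ioo isPreconnected_Ioo
    (fun k z _ => by
      refine ((hasDerivAt_pow (k + 1) z).const_mul (co μ (k + 1))).congr_deriv ?_
      rw [← co_succ hμ]
      simp; ring)
    (fun k z hz => by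
      rw [Real.norm_eq_abs, abs_mul, abs_pow, abs_of_pos (co_pos hμ' k)]
      apply mul_le_mul_of_nonneg_left _ (co_pos hμ' k).le
      exact pow_le_pow_left₀ (abs_nonneg _) (abs_le.2 ⟨hz.1.le, hz.2.le⟩) k)
    ⟨by linarith [neg_abs_le y], by linarith [le_abs_self y]⟩
    ((summable_nat_add_iff 1).2 (summable_SS hμ y))
    ⟨by linarith [neg_abs_le y], by linarith [le_abs_self y]⟩
  have e : SS μ = fun z => co μ 0 + ∑' k : ℕ, co μ (k + 1) * z ^ (k + 1) :=
    funext (SS_eq hμ)
  rw [e]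
  exact h.const_add _

theorem SS_rec {μ : ℝ} (hμ : -1 < μ) (y : ℝ) :
    SS μ y = (μ + 1) * SS (μ + 1) y + y * SS (μ + 1 + 1) y := by
  have hμ1 : -1 < μ + 1 := by linarith
  have hμ2 : -1 < μ + 1 + 1 := by linarith
  rw [SS_eq hμ, SS_eq hμ1, mul_add]
  unfold SS
  rw [← tsum_mul_left, ← tsum_mul_left, add_assoc, ← Summable.tsum_add
    (((summable_nat_add_iff 1).2 (summable_SS hμ1 y)).mul_left _)
    ((summable_SS hμ2 y).mul_left _)]
  congr 1
  · rw [co_shift hμ]; simp
  · refine tsum_congr (fun k => ?_)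
    rw [co_shift hμ, ← co_succ hμ1]
    push_cast; ring

theorem besselI_eq (μ : ℝ) {x : ℝ} (hx : 0 < x) :
    besselI μ x = (x / 2) ^ μ * SS μ (x ^ 2 / 4) := by
  unfold besselI SS
  rw [← tsum_mul_left]
  refine tsum_congr (fun k => ?_)
  have h : 0 < x / 2 := by linarith
  have e : (2 * (k : ℝ)) = ((2 * k : ℕ) : ℝ) := by push_cast; ring
  rw [Real.rpow_add h, e, Real.rpow_natCast, pow_mul]
  unfold co
  have : (x / 2) ^ 2 = x ^ 2 / 4 := by ring
  rw [this]; ring

noncomputable def AA (μ t : ℝ) : ℝ := SS μ (t ^ 2 / 4)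

theorem AA_pos {μ : ℝ} (hμ : -1 < μ) (t : ℝ) : 0 < AA μ t := SS_pos hμ (by positivity)

theorem hasDerivAt_AA {μ : ℝ} (hμ : -1 < μ) (t : ℝ) :
    HasDerivAt (AA μ) (t / 2 * AA (μ + 1) t) t := by
  have h1 : HasDerivAt (fun t : ℝ => t ^ 2 / 4) (t / 2) t := by
    refine ((hasDerivAt_pow 2 t).div_const 4).congr_deriv ?_
    simp; ring
  refine ((hasDerivAt_SS hμ (t ^ 2 / 4)).comp t h1).congr_deriv ?_
  unfold AA; ring

noncomputable def RR (μ t : ℝ) : ℝ := AA (μ + 1) t / AA μ t

noncomputable def eta (μ t : ℝ) : ℝ := t ^ 2 / 2 * RR μ t - t + (μ + 1 / 2)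

theorem hasDerivAt_RR {μ : ℝ} (hμ : -1 < μ) (t : ℝ) :
    HasDerivAt (RR μ) (t / 2 * (AA (μ + 1 + 1) t / AA μ t - RR μ t ^ 2)) t := by
  have h := (hasDerivAt_AA (show -1 < μ + 1 by linarith) t).div (hasDerivAt_AA hμ t)
    (AA_pos hμ t).ne'
  refine h.congr_deriv ?_
  have := AA_pos hμ t
  unfold RR
  field_simp

theorem hasDerivAt_eta0 {μ : ℝ} (hμ : -1 < μ) (t : ℝ) :
    HasDerivAt (eta μ) (t - μ * t * RR μ t - t ^ 3 / 4 * RR μ t ^ 2 - 1) t := by
  have h1 : HasDerivAt (fun t : ℝ => t ^ 2 / 2) t t := by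
    refine ((hasDerivAt_pow 2 t).div_const 2).congr_deriv ?_
    simp
  have h := ((h1.mul (hasDerivAt_RR hμ t)).sub (hasDerivAt_id t)).add_const (μ + 1 / 2)
  refine h.congr_deriv ?_
  have hp := AA_pos hμ t
  have hrec : AA μ t = (μ + 1) * AA (μ + 1) t + t ^ 2 / 4 * AA (μ + 1 + 1) t := SS_rec hμ _
  have h2 : t ^ 2 / 4 * (AA (μ + 1 + 1) t / AA μ t) = 1 - (μ + 1) * RR μ t := by
    unfold RR
    field_simp
    linarith
  have h3 : t ^ 2 / 2 * (t / 2 * (AA (μ + 1 + 1) t / AA μ t - RR μ t ^ 2)) =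
      t * (t ^ 2 / 4 * (AA (μ + 1 + 1) t / AA μ t)) - t ^ 3 / 4 * RR μ t ^ 2 := by ring
  rw [h3, h2]; ring

theorem hasDerivAt_eta {μ : ℝ} (hμ : -1 < μ) {t : ℝ} (ht : 0 < t) :
    HasDerivAt (eta μ)
      (((μ ^ 2 - 1 / 4) - eta μ t ^ 2 - 2 * t * eta μ t + eta μ t) / t) t := by
  refine (hasDerivAt_eta0 hμ t).congr_deriv ?_
  unfold eta
  field_simp
  ring

theorem eta_lim {μ : ℝ} (hμ : -1 < μ) : Tendsto (eta μ) atTop (𝓝 0) := by
  apply eta_tendsto (q := μ ^ 2 - 1 / 4) (m := μ + 1 / 2) (by linarith)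
    (fun t ht => hasDerivAt_eta hμ ht)
  intro t _
  have : 0 < RR μ t := div_pos (AA_pos (by linarith) t) (AA_pos hμ t)
  have : 0 ≤ t ^ 2 / 2 * RR μ t := by positivity
  unfold eta
  linarith

theorem not_mono {μ : ℝ} (hμ : -1 < μ) : ¬ MonotoneOn (fun t => t * eta μ t) (Ioi 0) := by
  intro hmono
  have hce : Continuous (eta μ) :=
    continuous_iff_continuousAt.2 (fun t => (hasDerivAt_eta0 hμ t).continuousAt)
  have hcR : Continuous (RR μ) :=
    continuous_iff_continuousAt.2 (fun t => (hasDerivAt_RR hμ t).continuousAt)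
  have hlim : ∀ F : ℝ → ℝ, Continuous F → Tendsto F (𝓝[>] 0) (𝓝 (F 0)) := fun F hF =>
    (hF.tendsto 0).mono_left nhdsWithin_le_nhds
  have hnn : ∀ t, 0 < t → 0 ≤ t * eta μ t := by
    intro t ht
    have h1 := hlim (fun t => t * eta μ t) (continuous_id.mul hce)
    simp only [zero_mul] at h1
    refine le_of_tendsto h1 ?_
    filter_upwards [Ioo_mem_nhdsGT ht] with s hs
    exact hmono hs.1 ht hs.2.le
  have hex : ∃ t0, 0 < t0 ∧ 0 < t0 * eta μ t0 := by
    by_contra hcon
    push Not at hcon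
    have h0 : ∀ t, 0 < t → eta μ t = 0 := by
      intro t ht
      have := le_antisymm (hcon t ht) (hnn t ht)
      rcases mul_eq_zero.1 this with h | h
      · exact absurd h ht.ne'
      · exact h
    have h1 : eta μ 0 = 0 := by
      refine tendsto_nhds_unique (hlim _ hce) (tendsto_const_nhds.congr' ?_)
      filter_upwards [self_mem_nhdsWithin] with s hs
      exact (h0 s hs).symm
    have hm : μ + 1 / 2 = 0 := by simpa [eta] using h1
    have h2 : (0 : ℝ) * RR μ 0 = 2 := by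
      refine tendsto_nhds_unique (hlim (fun t => t * RR μ t) (continuous_id.mul hcR))
        (tendsto_const_nhds.congr' ?_)
      filter_upwards [self_mem_nhdsWithin] with s hs
      have hs' : 0 < s := hs
      have h3 := h0 s hs'
      unfold eta at h3
      rw [hm] at h3
      have h4 : s * (s * RR μ s - 2) = 0 := by linarith
      rcases mul_eq_zero.1 h4 with h | h
      · exact absurd h hs'.ne'
      · linarith
    simp at h2
  obtain ⟨t0, h1, h2⟩ := hex
  refine sigma_not_mono (σ := fun t => t * eta μ t) (q := μ ^ 2 - 1 / 4) (fun t ht => ?_)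
    hmono h1 h2
  refine ((hasDerivAt_id t).mul (hasDerivAt_eta hμ ht)).congr_deriv ?_
  simp only [id]
  field_simp
  ring

theorem exists_v {w : ℝ} (hw : 2 < w) : ∃ v, 1 < v ∧ v + 1 / v = w := by
  have h1 : 0 < w ^ 2 - 4 := by nlinarith
  have h2 := Real.sq_sqrt h1.le
  have h3 := Real.sqrt_pos.2 h1
  refine ⟨(w + √(w ^ 2 - 4)) / 2, by linarith, ?_⟩
  have : w + √(w ^ 2 - 4) ≠ 0 := by linarith
  field_simp
  nlinarith

theorem not_HCM {μ a b c p : ℝ} {κ : ℕ} (hμ : -1 < μ) (ha : 0 < a) (hc : 0 < c) (hκ : 0 < κ)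
    {f : ℝ → ℝ} (hf : ∀ x, 0 < x → f x = c * (x ^ p * Real.exp (-b * x) * AA μ (a * x) ^ κ)) :
    ¬ IsHCM f := by
  intro H
  have fpos : ∀ x, 0 < x → 0 < f x := by
    intro x hx
    have := AA_pos hμ (a * x)
    rw [hf x hx]; positivity
  let Lf : ℝ → ℝ := fun x => Real.log c + p * Real.log x - b * x + κ * Real.log (AA μ (a * x))
  have hL : ∀ x, 0 < x → Real.log (f x) = Lf x := by
    intro x hx
    have := AA_pos hμ (a * x)
    rw [hf x hx, Real.log_mul hc.ne' (by positivity), Real.log_mul (by positivity) (by positivity),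
      Real.log_mul (by positivity) (by positivity), Real.log_rpow hx, Real.log_exp, Real.log_pow]
    simp only [Lf]; ring
  have hLd : ∀ x, 0 < x → HasDerivAt Lf
      ((p - b * x + κ * (eta μ (a * x) + a * x - (μ + 1 / 2))) / x) x := by
    intro x hx
    have h1 := ((hasDerivAt_AA hμ (a * x)).comp x ((hasDerivAt_id x).const_mul a)).log
      (AA_pos hμ (a * x)).ne'
    have h2 := ((((Real.hasDerivAt_log hx.ne').const_mul p).const_add (Real.log c)).sub
      ((hasDerivAt_id x).const_mul b)).add (h1.const_mul (κ : ℝ))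
    refine h2.congr_deriv ?_
    have := AA_pos hμ (a * x)
    simp only [Function.comp, eta, RR]
    field_simp
    ring
  -- monotonicity for finite `u`
  have step : ∀ u, 0 < u → ∀ v1 v2, 1 < v2 → v2 < v1 →
      (eta μ (a * (u * v2)) - eta μ (a * (u / v2))) / (v2 - 1 / v2) ≤
      (eta μ (a * (u * v1)) - eta μ (a * (u / v1))) / (v1 - 1 / v1) := by
    intro u hu v1 v2 h2 h12
    obtain ⟨g, g1, g2, g3⟩ := H u hu
    have gpos : ∀ w, 2 < w → 0 < g w := by
      intro w hw
      obtain ⟨v, hv, rfl⟩ := exists_v hw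
      rw [← g3 v (by linarith) hv.ne']
      exact mul_pos (fpos _ (by positivity)) (fpos _ (by positivity))
    have hw2 : ∀ v : ℝ, 1 < v → 2 < v + 1 / v := by
      intro v hv
      have : v + 1 / v - 2 = (v - 1) ^ 2 / v := by field_simp; ring
      have : 0 < (v - 1) ^ 2 / v := by
        apply div_pos _ (by linarith)
        have : 0 < v - 1 := by linarith
        positivity
      linarith
    have hder : ∀ v, 1 < v → HasDerivAt (fun w => Real.log (g w))
        (-b * u + κ * (a * u) + κ * ((eta μ (a * (u * v)) - eta μ (a * (u / v))) / (v - 1 / v)))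
        (v + 1 / v) := by
      intro v hv
      have hv0 : 0 < v := by linarith
      have d1 : DifferentiableAt ℝ g (v + 1 / v) :=
        (g1.contDiffAt (Ioi_mem_nhds (hw2 v hv))).differentiableAt (by simp)
      have d2 := d1.hasDerivAt.log (gpos _ (hw2 v hv)).ne'
      refine d2.congr_deriv ?_
      set D := deriv g (v + 1 / v) / g (v + 1 / v) with hD
      have d3 : HasDerivAt (fun v : ℝ => v + 1 / v) (1 - 1 / v ^ 2) v := by
        have := (hasDerivAt_id v).add ((hasDerivAt_const v (1 : ℝ)).div (hasDerivAt_id v) hv0.ne')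
        refine this.congr_deriv ?_
        simp only [id]; ring
      have d4 := d2.comp v d3
      have d5 : HasDerivAt (fun v : ℝ => u * v) u v := by
        simpa using (hasDerivAt_id v).const_mul u
      have d6 : HasDerivAt (fun v : ℝ => u / v) (-u / v ^ 2) v := by
        have := (hasDerivAt_const v u).div (hasDerivAt_id v) hv0.ne'
        refine this.congr_deriv ?_
        simp only [id]; ring
      have d7 := ((hLd (u * v) (by positivity)).comp v d5).add
        ((hLd (u / v) (by positivity)).comp v d6)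
      have d8 := d7.congr_of_eventuallyEq (f₁ := (fun w => Real.log (g w)) ∘ fun v => v + 1 / v)
        (by
          filter_upwards [Ioi_mem_nhds hv] with z hz
          have hz' : 1 < z := hz
          have hz0 : 0 < z := by linarith
          simp only [Function.comp, Pi.add_apply]
          rw [← g3 z hz0 hz'.ne', Real.log_mul (fpos _ (by positivity)).ne'
            (fpos _ (by positivity)).ne', hL _ (by positivity), hL _ (by positivity)])
      have d9 := d4.unique d8
      have n1 : v ^ 2 - 1 ≠ 0 := by nlinarith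
      have n2 : v - 1 / v = (v ^ 2 - 1) / v := by field_simp
      have n3 : 1 - 1 / v ^ 2 = (v ^ 2 - 1) / v ^ 2 := by field_simp
      have n4 : (v ^ 2 - 1) / v ^ 2 ≠ 0 := div_ne_zero n1 (by positivity)
      rw [n3] at d9
      apply mul_right_cancel₀ n4
      rw [d9, n2]
      field_simp
      ring
    have hlt : v2 + 1 / v2 < v1 + 1 / v1 := by
      have e : v1 + 1 / v1 - (v2 + 1 / v2) = (v1 - v2) * (v1 * v2 - 1) / (v1 * v2) := by
        have : v1 ≠ 0 := by linarith
        have : v2 ≠ 0 := by linarith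
        field_simp; ring
      have : 0 < (v1 - v2) * (v1 * v2 - 1) / (v1 * v2) := by
        apply div_pos (mul_pos (by linarith) (by nlinarith)) (by nlinarith)
      linarith
    have := (CM_of_iteratedDeriv g1 g2).log_deriv_mono gpos (hw2 v2 h2) hlt (hder v2 h2)
      (hder v1 (by linarith))
    have hk : (0 : ℝ) < κ := by exact_mod_cast hκ
    have h3 : (κ : ℝ) * ((eta μ (a * (u * v2)) - eta μ (a * (u / v2))) / (v2 - 1 / v2)) ≤
      κ * ((eta μ (a * (u * v1)) - eta μ (a * (u / v1))) / (v1 - 1 / v1)) := by linarith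
    exact le_of_mul_le_mul_left h3 hk
  apply not_mono hμ
  intro t1 ht1 t2 ht2 h12
  have ht1' : 0 < t1 := ht1
  have ht2' : 0 < t2 := ht2
  rcases eq_or_lt_of_le h12 with rfl | hlt
  · exact le_rfl
  have hlim : ∀ t, 0 < t → Tendsto (fun U : ℝ => (eta μ (U ^ 2 / t) - eta μ t) *
      (t / (1 - t ^ 2 * (U ^ 2)⁻¹))) atTop (𝓝 (-(t * eta μ t))) := by
    intro t ht
    have h1 : Tendsto (fun U : ℝ => U ^ 2) atTop atTop := tendsto_pow_atTop (by norm_num)
    have h2 := ((eta_lim hμ).comp (h1.atTop_div_const ht)).sub_const (eta μ t)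
    have h3 := (tendsto_const_nhds (x := t)).div
      ((tendsto_const_nhds (x := (1 : ℝ))).sub
        ((tendsto_inv_atTop_zero.comp h1).const_mul (t ^ 2))) (by simp)
    have h4 := h2.mul h3
    have e : (0 - eta μ t) * (t / (1 - t ^ 2 * 0)) = -(t * eta μ t) := by simp; ring
    rw [e] at h4
    exact h4
  have key := le_of_tendsto_of_tendsto (hlim t2 ht2') (hlim t1 ht1') (by
    filter_upwards [eventually_gt_atTop t2] with U hU
    have hU0 : 0 < U := by linarith
    have h1 := step (U / a) (by positivity) (U / t1) (U / t2)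
      (by rw [lt_div_iff₀ ht2']; linarith) (div_lt_div_of_pos_left hU0 ht1' hlt)
    have e : ∀ t, 0 < t → t < U → (eta μ (U ^ 2 / t) - eta μ t) * (t / (1 - t ^ 2 * (U ^ 2)⁻¹)) =
        U * ((eta μ (a * (U / a * (U / t))) - eta μ (a * (U / a / (U / t)))) /
          (U / t - 1 / (U / t))) := by
      intro t ht htU
      have e1 : a * (U / a * (U / t)) = U ^ 2 / t := by field_simp
      have e2 : a * (U / a / (U / t)) = t := by field_simp
      have e3 : U ^ 2 - t ^ 2 ≠ 0 := by nlinarith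
      have e4 : 1 - t ^ 2 * (U ^ 2)⁻¹ = (U ^ 2 - t ^ 2) / U ^ 2 := by field_simp
      have e5 : U / t - 1 / (U / t) = (U ^ 2 - t ^ 2) / (U * t) := by field_simp
      rw [e1, e2, e4, e5]
      field_simp
    rw [e t2 ht2' hU, e t1 ht1' (by linarith)]
    exact mul_le_mul_of_nonneg_left h1 hU0.le)
  simp only
  linarith

theorem main :
    (∀ μ ν a b c : ℝ, -1 < μ → 0 < μ + ν → 0 < a → a < b → 0 < c →
      ¬ IsHCM (fun x => c * (x ^ (ν - 1) * Real.exp (-b * x) * besselI μ (a * x)))) ∧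
    (∀ μ a b c : ℝ, -1 / 4 < μ → 0 < a → 2 * a < b → 0 < c →
      ¬ IsHCM (fun x => c * (x ^ (2 * μ) * Real.exp (-b * x) * besselI μ (a * x) ^ 2))) := by
  constructor
  · intro μ ν a b c hμ _ ha _ hc
    refine not_HCM (μ := μ) (a := a) (b := b) (c := c * (a / 2) ^ μ) (p := ν - 1 + μ) (κ := 1)
      hμ ha (by positivity) one_pos (fun x hx => ?_)
    have e : a * x / 2 = a / 2 * x := by ring
    rw [besselI_eq μ (by positivity), e, Real.mul_rpow (by positivity) hx.le, Real.rpow_add hx]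
    unfold AA; ring
  · intro μ a b c hμ ha _ hc
    refine not_HCM (μ := μ) (a := a) (b := b) (c := c * ((a / 2) ^ μ) ^ 2) (p := 2 * μ + μ + μ)
      (κ := 2) (by linarith) ha (by positivity) two_pos (fun x hx => ?_)
    have e : a * x / 2 = a / 2 * x := by ring
    rw [besselI_eq μ (by positivity), e, Real.mul_rpow (by positivity) hx.le, Real.rpow_add hx,
      Real.rpow_add hx]
    unfold AA; ring

end Pool.Agent.P.MP_ede858_pr
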