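import Mathlib

set_option autoImplicit false

open Set Filter Topology MeasureTheory Polynomial
open scoped unitInterval BoundedContinuousFunction

namespace Pool.Agent.P.MP_ede858_pr

/-! The Hausdorff moment problem for a functional on real polynomials. -/

theorem haus_pos (Λ : ℝ[X] →ₗ[ℝ] ℝ) (h0 : ∀ p : ℝ[X], 0 ≤ Λ (X * p ^ 2))
    (h1 : ∀ p : ℝ[X], 0 ≤ Λ ((1 - X) * p ^ 2)) (m n : ℕ) : 0 ≤ Λ (X ^ m * (1 - X) ^ n) := by
  obtain ⟨i, hi⟩ := Nat.even_or_odd' m
  obtain ⟨j, hj⟩ := Nat.even_or_odd' n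
  rcases hi with rfl | rfl <;> rcases hj with rfl | rfl
  · have e : (X : ℝ[X]) ^ (2 * i) * (1 - X) ^ (2 * j)
        = X * (X ^ i * (1 - X) ^ j) ^ 2 + (1 - X) * (X ^ i * (1 - X) ^ j) ^ 2 := by ring
    rw [e, map_add]
    exact add_nonneg (h0 _) (h1 _)
  · have e : (X : ℝ[X]) ^ (2 * i) * (1 - X) ^ (2 * j + 1)
        = (1 - X) * (X ^ i * (1 - X) ^ j) ^ 2 := by ring
    rw [e]
    exact h1 _
  · have e : (X : ℝ[X]) ^ (2 * i + 1) * (1 - X) ^ (2 * j)
        = X * (X ^ i * (1 - X) ^ j) ^ 2 := by ring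
    rw [e]
    exact h0 _
  · have e : (X : ℝ[X]) ^ (2 * i + 1) * (1 - X) ^ (2 * j + 1)
        = X * (X ^ i * (1 - X) ^ (j + 1)) ^ 2 + (1 - X) * (X ^ (i + 1) * (1 - X) ^ j) ^ 2 := by
      ring
    rw [e, map_add]
    exact add_nonneg (h0 _) (h1 _)

theorem X_mul_deriv_pow (j : ℕ) : (X : ℝ[X]) * derivative (X ^ j) = (j : ℝ[X]) * X ^ j := by
  cases j with
  | zero => simp
  | succ j => rw [derivative_X_pow_succ]; simp; ring

theorem oneSub_mul_deriv_pow (n : ℕ) :
    (1 - X : ℝ[X]) * derivative ((1 - X) ^ n) = -((n : ℝ[X]) * (1 - X) ^ n) := by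
  cases n with
  | zero => simp
  | succ n => rw [derivative_pow_succ]; simp; ring

theorem bern_deriv {N j : ℕ} (hj : j ≤ N) :
    X * (1 - X) * derivative (bernsteinPolynomial ℝ N j)
      = ((j : ℝ[X]) - (N : ℝ[X]) * X) * bernsteinPolynomial ℝ N j := by
  obtain ⟨n, rfl⟩ := Nat.exists_eq_add_of_le hj
  unfold bernsteinPolynomial
  rw [Nat.add_sub_cancel_left, derivative_mul, derivative_mul, derivative_natCast]
  have h1 := X_mul_deriv_pow j
  have h2 := oneSub_mul_deriv_pow n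
  push_cast
  linear_combination ((j + n).choose j : ℝ[X]) * (1 - X) * (1 - X) ^ n * h1
    + ((j + n).choose j : ℝ[X]) * X * X ^ j * h2

/-- The Bernstein operator on polynomials. -/
noncomputable def bernT (N : ℕ) (p : ℝ[X]) : ℝ[X] :=
  ∑ j ∈ Finset.range (N + 1), C (p.eval ((j : ℝ) / N)) * bernsteinPolynomial ℝ N j

theorem bernT_step {N : ℕ} (hN : N ≠ 0) (p : ℝ[X]) :
    bernT N (p * X) = X * bernT N p
      + (1 / (N : ℝ)) • (X * (1 - X) * derivative (bernT N p)) := by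
  unfold bernT
  rw [derivative_sum, Finset.mul_sum, Finset.mul_sum, Finset.smul_sum, ← Finset.sum_add_distrib]
  refine Finset.sum_congr rfl (fun j hj => ?_)
  have hj' : j ≤ N := Nat.lt_succ_iff.1 (Finset.mem_range.1 hj)
  rw [derivative_C_mul, mul_left_comm (X * (1 - X)), bern_deriv hj', smul_eq_C_mul, eval_mul,
    eval_X, C_mul]
  have hN' : (N : ℝ) ≠ 0 := Nat.cast_ne_zero.2 hN
  have e1 : C (1 / (N : ℝ)) * (N : ℝ[X]) = 1 := by
    rw [← C_eq_natCast, ← C_mul, one_div_mul_cancel hN', C_1]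
  have e2 : C ((j : ℝ) / N) = C (1 / (N : ℝ)) * (j : ℝ[X]) := by
    rw [← C_eq_natCast, ← C_mul]
    congr 1
    ring
  rw [e2]
  linear_combination (C (p.eval ((j : ℝ) / N)) * X * bernsteinPolynomial ℝ N j) * e1

theorem tendsto_bernT (p : ℝ[X]) :
    ∀ Λ : ℝ[X] →ₗ[ℝ] ℝ, Tendsto (fun N => Λ (bernT N p)) atTop (𝓝 (Λ p)) := by
  induction p using Polynomial.induction_on with
  | C a =>
    intro Λ
    have : ∀ N, bernT N (C a) = C a := by
      intro N
      unfold bernT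
      simp only [eval_C]
      rw [← Finset.mul_sum, bernsteinPolynomial.sum, mul_one]
    simp only [this]
    exact tendsto_const_nhds
  | add p q hp hq =>
    intro Λ
    have : ∀ N, bernT N (p + q) = bernT N p + bernT N q := by
      intro N
      unfold bernT
      rw [← Finset.sum_add_distrib]
      refine Finset.sum_congr rfl (fun j _ => ?_)
      rw [eval_add, C_add, add_mul]
    simp only [this, map_add]
    exact (hp Λ).add (hq Λ)
  | monomial n a ih =>
    intro Λ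
    have h1 := ih (Λ ∘ₗ LinearMap.mulLeft ℝ (X : ℝ[X]))
    have h2 := ih (Λ ∘ₗ LinearMap.mulLeft ℝ (X * (1 - X) : ℝ[X]) ∘ₗ derivative)
    simp only [LinearMap.comp_apply, LinearMap.mulLeft_apply] at h1 h2
    have h3 := h1.add ((tendsto_one_div_atTop_nhds_zero_nat (𝕜 := ℝ)).mul h2)
    rw [zero_mul, add_zero] at h3
    have e : C a * X ^ (n + 1) = C a * X ^ n * X := by ring
    have e' : X * (C a * X ^ n) = C a * X ^ n * X := by ring
    rw [e, ← e']
    refine h3.congr' ?_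
    filter_upwards [eventually_ne_atTop 0] with N hN
    rw [e', bernT_step hN, map_add, map_smul, smul_eq_mul]

theorem haus_unit (Λ : ℝ[X] →ₗ[ℝ] ℝ) (h : Λ 1 = 1) (h0 : ∀ p : ℝ[X], 0 ≤ Λ (X * p ^ 2))
    (h1 : ∀ p : ℝ[X], 0 ≤ Λ ((1 - X) * p ^ 2)) :
    ∃ θ : Measure I, IsProbabilityMeasure θ ∧ ∀ p : ℝ[X], ∫ t, p.eval (t : ℝ) ∂θ = Λ p := by
  have hw : ∀ N j, 0 ≤ Λ (bernsteinPolynomial ℝ N j) := by
    intro N j
    unfold bernsteinPolynomial
    rw [mul_assoc, ← nsmul_eq_mul, map_nsmul]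
    exact nsmul_nonneg (haus_pos Λ h0 h1 _ _) _
  let μ : ℕ → Measure I := fun N => ∑ j ∈ Finset.range (N + 1),
    ENNReal.ofReal (Λ (bernsteinPolynomial ℝ N j)) •
      Measure.dirac (projIcc (0 : ℝ) 1 zero_le_one ((j : ℝ) / N))
  have hμ : ∀ N, IsProbabilityMeasure (μ N) := by
    intro N
    constructor
    simp only [μ, Measure.coe_finsetSum, Finset.sum_apply, Measure.smul_apply, measure_univ,
      smul_eq_mul, mul_one]
    rw [← ENNReal.ofReal_sum_of_nonneg (fun j _ => hw N j), ← map_sum, bernsteinPolynomial.sum, h,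
      ENNReal.ofReal_one]
  have hint : ∀ N (p : ℝ[X]), ∫ t, p.eval (t : ℝ) ∂(μ N) = Λ (bernT N p) := by
    intro N p
    simp only [μ]
    rw [integral_finsetSum_measure]
    · unfold bernT
      rw [map_sum]
      refine Finset.sum_congr rfl (fun j hj => ?_)
      have hj' : j ≤ N := Nat.lt_succ_iff.1 (Finset.mem_range.1 hj)
      have hz : ((j : ℝ) / N) ∈ Icc (0 : ℝ) 1 :=
        ⟨by positivity, div_le_one_of_le₀ (by exact_mod_cast hj') (by positivity)⟩
      rw [integral_smul_measure, integral_dirac, ENNReal.toReal_ofReal (hw N j),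
        projIcc_of_mem _ hz, ← smul_eq_C_mul, map_smul, smul_eq_mul, smul_eq_mul, mul_comm]
    · intro j _
      exact (integrable_dirac (by simp)).smul_measure (by simp)
  let P : ℕ → ProbabilityMeasure I := fun N => ⟨μ N, hμ N⟩
  let U : Ultrafilter ℕ := Ultrafilter.of atTop
  obtain ⟨θ, -, hθ⟩ := isCompact_univ.ultrafilter_le_nhds (U.map P) (by simp)
  have hθ' : Tendsto P U (𝓝 θ) := hθ
  refine ⟨θ, θ.2, fun p => ?_⟩
  have h2 := ProbabilityMeasure.tendsto_iff_forall_integral_tendsto.1 hθ'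
    (BoundedContinuousFunction.mkOfCompact ⟨fun t : I => p.eval (t : ℝ), by fun_prop⟩)
  have h3 : Tendsto (fun N => Λ (bernT N p)) U (𝓝 (Λ p)) :=
    (tendsto_bernT p Λ).mono_left (Ultrafilter.of_le atTop)
  refine tendsto_nhds_unique h2 (h3.congr (fun N => ?_))
  rw [← hint]
  rfl

theorem haus_Icc (Λ : ℝ[X] →ₗ[ℝ] ℝ) {lo hi : ℝ} (hlh : lo < hi) (h : Λ 1 = 1)
    (h0 : ∀ p : ℝ[X], 0 ≤ Λ ((X - C lo) * p ^ 2))
    (h1 : ∀ p : ℝ[X], 0 ≤ Λ ((C hi - X) * p ^ 2)) :
    ∃ θ : Measure ℝ, IsProbabilityMeasure θ ∧ (∀ᵐ t ∂θ, t ∈ Icc lo hi) ∧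
      ∀ p : ℝ[X], ∫ t, p.eval t ∂θ = Λ p := by
  have hd : 0 < hi - lo := sub_pos.2 hlh
  set u : ℝ[X] := (1 / (hi - lo)) • (X - C lo) with hu
  have hu1 : 1 - u = (1 / (hi - lo)) • (C hi - X) := by
    have e : C (1 / (hi - lo)) * (C hi - C lo) = (1 : ℝ[X]) := by
      rw [← C_sub, ← C_mul, one_div_mul_cancel hd.ne', C_1]
    rw [hu, smul_eq_C_mul, smul_eq_C_mul]
    linear_combination (-1 : ℝ[X]) * e
  obtain ⟨θ, hθ, hp⟩ := haus_unit (Λ ∘ₗ (aeval u).toLinearMap) (by simpa using h)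
    (fun p => by
      simp only [LinearMap.comp_apply, AlgHom.toLinearMap_apply, map_mul, map_pow, aeval_X]
      rw [hu, smul_mul_assoc, map_smul, smul_eq_mul]
      exact mul_nonneg (by positivity) (h0 _))
    (fun p => by
      simp only [LinearMap.comp_apply, AlgHom.toLinearMap_apply, map_mul, map_pow, aeval_X,
        map_sub, map_one]
      rw [hu1, smul_mul_assoc, map_smul, smul_eq_mul]
      exact mul_nonneg (by positivity) (h1 _))
  have hm : Measurable (fun t : I => lo + (hi - lo) * (t : ℝ)) := by fun_prop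
  refine ⟨θ.map (fun t : I => lo + (hi - lo) * (t : ℝ)), Measure.isProbabilityMeasure_map
    hm.aemeasurable, ?_, fun p => ?_⟩
  · refine (ae_map_iff (p := fun t => t ∈ Icc lo hi) hm.aemeasurable measurableSet_Icc).2 ?_
    refine Eventually.of_forall (fun t => ⟨?_, ?_⟩)
    · nlinarith [t.2.1]
    · nlinarith [t.2.2]
  · rw [integral_map hm.aemeasurable (by fun_prop)]
    have h2 := hp (p.comp (C lo + C (hi - lo) * X))
    simp only [eval_comp, eval_add, eval_mul, eval_C, eval_X] at h2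
    rw [h2]
    simp only [LinearMap.comp_apply, AlgHom.toLinearMap_apply]
    congr 1
    rw [aeval_comp]
    have e : aeval u (C lo + C (hi - lo) * X) = (X : ℝ[X]) := by
      have e : C (hi - lo) * C (1 / (hi - lo)) = (1 : ℝ[X]) := by
        rw [← C_mul, mul_one_div_cancel hd.ne', C_1]
      simp only [map_add, map_mul, aeval_C, aeval_X, algebraMap_eq]
      rw [hu, smul_eq_C_mul]
      linear_combination (X - C lo) * e
    rw [e, aeval_X_left_apply]

end Pool.Agent.P.MP_ede858_pr
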