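import Mathlib
import Pool.Agent.P.MP_ede858_pr.Haus

set_option autoImplicit false

open Set Filter Topology MeasureTheory Polynomial

namespace Pool.Agent.P.MP_ede858_pr

/-! Jacobi operators on sequences and their spectral measures. -/

/-- The sequence moved one step to the right, with `z` put in front. -/
def prev {R : Type} (z : R) (v : ℕ → R) (k : ℕ) : R := if k = 0 then z else v (k - 1)

@[simp] theorem prev_zero {R : Type} (z : R) (v : ℕ → R) : prev z v 0 = z := rfl

@[simp] theorem prev_succ {R : Type} (z : R) (v : ℕ → R) (k : ℕ) : prev z v (k + 1) = v k := by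
  simp [prev]

/-- The tridiagonal operator with diagonal `d`, upper entries `e` and lower entries `1`. -/
def jac (d e : ℕ → ℝ) : Module.End ℝ (ℕ → ℝ) where
  toFun v := fun k => prev 0 v k + d k * v k + e k * v (k + 1)
  map_add' u v := by
    funext k
    cases k <;> simp <;> ring
  map_smul' c v := by
    funext k
    cases k <;> simp <;> ring

theorem jac_apply (d e v : ℕ → ℝ) (k : ℕ) :
    jac d e v k = prev 0 v k + d k * v k + e k * v (k + 1) := rfl

/-- The first basis vector. -/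
def e0 : ℕ → ℝ := fun k => if k = 0 then 1 else 0

/-- The vector `p(J) e0`. -/
noncomputable def jv (d e : ℕ → ℝ) (p : ℝ[X]) : ℕ → ℝ := aeval (jac d e) p e0

theorem jv_C (d e : ℕ → ℝ) (a : ℝ) : jv d e (C a) = a • e0 := by
  simp [jv, Module.algebraMap_end_apply]

theorem jv_one (d e : ℕ → ℝ) : jv d e 1 = e0 := by
  simp [jv]

theorem jv_add (d e : ℕ → ℝ) (p q : ℝ[X]) : jv d e (p + q) = jv d e p + jv d e q := by
  simp [jv]

theorem jv_sub (d e : ℕ → ℝ) (p q : ℝ[X]) : jv d e (p - q) = jv d e p - jv d e q := by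
  simp [jv]

theorem jv_X_mul (d e : ℕ → ℝ) (p : ℝ[X]) : jv d e (X * p) = jac d e (jv d e p) := by
  simp [jv]

theorem jv_C_mul (d e : ℕ → ℝ) (a : ℝ) (p : ℝ[X]) : jv d e (C a * p) = a • jv d e p := by
  simp [jv, Module.algebraMap_end_apply]

/-- The functional `p ↦ (p(J) e0)_0`. -/
noncomputable def jl (d e : ℕ → ℝ) : ℝ[X] →ₗ[ℝ] ℝ where
  toFun p := jv d e p 0
  map_add' p q := by rw [jv_add]; rfl
  map_smul' c p := by rw [smul_eq_C_mul, jv_C_mul]; rfl

theorem jl_apply (d e : ℕ → ℝ) (p : ℝ[X]) : jl d e p = jv d e p 0 := rfl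

theorem jv_fin (d e : ℕ → ℝ) (p : ℝ[X]) : ∀ᶠ N in atTop, jv d e p N = 0 := by
  induction p using Polynomial.induction_on with
  | C a =>
    filter_upwards [eventually_ne_atTop 0] with N hN
    simp [jv_C, e0, hN]
  | add p q hp hq =>
    filter_upwards [hp, hq] with N h1 h2
    simp [jv_add, h1, h2]
  | monomial n a ih =>
    have e' : C a * X ^ (n + 1) = X * (C a * X ^ n) := by ring
    obtain ⟨M, hM⟩ := eventually_atTop.1 ih
    filter_upwards [eventually_ge_atTop (M + 1)] with N hN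
    obtain ⟨k, rfl⟩ : ∃ k, N = k + 1 := ⟨N - 1, by omega⟩
    rw [e', jv_X_mul, jac_apply, prev_succ, hM k (by omega), hM (k + 1) (by omega),
      hM (k + 1 + 1) (by omega)]
    ring

theorem jac_symm (d e u v : ℕ → ℝ) (N : ℕ) :
    ∑ k ∈ Finset.range (N + 1), (∏ i ∈ Finset.range k, e i) * (jac d e u k * v k)
      = ∑ k ∈ Finset.range (N + 1), (∏ i ∈ Finset.range k, e i) * (u k * jac d e v k)
        + (∏ i ∈ Finset.range (N + 1), e i) * (u (N + 1) * v N - u N * v (N + 1)) := by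
  induction N with
  | zero => simp [jac_apply]; ring
  | succ N ih =>
    rw [Finset.sum_range_succ _ (N + 1), Finset.sum_range_succ _ (N + 1), ih,
      Finset.prod_range_succ e (N + 1), jac_apply, jac_apply, prev_succ, prev_succ]
    ring

theorem jv_form (d e : ℕ → ℝ) (p : ℝ[X]) : ∀ q : ℝ[X], ∀ᶠ N in atTop,
    ∑ k ∈ Finset.range (N + 1), (∏ i ∈ Finset.range k, e i) * (jv d e p k * jv d e q k)
      = jl d e (p * q) := by
  induction p using Polynomial.induction_on with
  | C a =>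
    intro q
    refine Eventually.of_forall (fun N => ?_)
    rw [Finset.sum_range_succ', jl_apply, jv_C_mul, jv_C]
    simp [e0]
  | add p p' hp hp' =>
    intro q
    filter_upwards [hp q, hp' q] with N h1 h2
    rw [add_mul, map_add, ← h1, ← h2, ← Finset.sum_add_distrib]
    refine Finset.sum_congr rfl (fun k _ => ?_)
    rw [jv_add, Pi.add_apply]
    ring
  | monomial n a ih =>
    intro q
    have e' : C a * X ^ (n + 1) = X * (C a * X ^ n) := by ring
    obtain ⟨M, hM⟩ := eventually_atTop.1 (jv_fin d e (C a * X ^ n))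
    filter_upwards [ih (X * q), eventually_ge_atTop M] with N h1 hN
    rw [e', jv_X_mul, jac_symm, hM N hN, hM (N + 1) (by omega), ← jv_X_mul, h1]
    have : C a * X ^ n * (X * q) = X * (C a * X ^ n) * q := by ring
    rw [this]
    ring

theorem jac_bound (d e P Q v : ℕ → ℝ) (c s : ℝ) (hs : s * s = 1) (he : ∀ k, 0 ≤ e k)
    (hP : ∀ k, 0 ≤ P k) (hPQ : ∀ k, P k * Q k = e k)
    (hc : ∀ k, P k + prev 0 Q k ≤ c - s * d k) (N : ℕ) :
    (∏ i ∈ Finset.range N, e i) * (P N * v N ^ 2)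
      - s * (∏ i ∈ Finset.range (N + 1), e i) * (v N * v (N + 1))
      ≤ ∑ k ∈ Finset.range (N + 1),
        (∏ i ∈ Finset.range k, e i) * (v k * (c * v k - s * jac d e v k)) := by
  induction N with
  | zero =>
    have := hc 0
    simp only [jac_apply, prev_zero, Finset.range_zero, Finset.prod_empty, zero_add,
      Finset.range_one, Finset.prod_singleton, Finset.sum_singleton] at this ⊢
    nlinarith [mul_le_mul_of_nonneg_right this (sq_nonneg (v 0))]
  | succ N ih =>
    rw [Finset.sum_range_succ _ (N + 1), Finset.prod_range_succ e (N + 1), jac_apply, prev_succ]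
    rw [Finset.prod_range_succ e N] at ih ⊢
    have h1 := hc (N + 1)
    rw [prev_succ] at h1
    have hπ : 0 ≤ ∏ i ∈ Finset.range N, e i := Finset.prod_nonneg (fun i _ => he i)
    set π := ∏ i ∈ Finset.range N, e i
    have h2 : 0 ≤ π * e N * ((c - s * d (N + 1) - (P (N + 1) + Q N)) * v (N + 1) ^ 2) :=
      mul_nonneg (mul_nonneg hπ (he N)) (mul_nonneg (sub_nonneg.2 h1) (sq_nonneg _))
    have h3 : 0 ≤ π * P N * (v N - s * Q N * v (N + 1)) ^ 2 :=
      mul_nonneg (mul_nonneg hπ (hP N)) (sq_nonneg _)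
    have h4 : π * P N * (v N - s * Q N * v (N + 1)) ^ 2
        = π * (P N * v N ^ 2) - 2 * s * π * e N * (v N * v (N + 1))
          + π * e N * Q N * v (N + 1) ^ 2 := by
      rw [← hPQ N]
      linear_combination (π * P N * Q N ^ 2 * v (N + 1) ^ 2) * hs
    nlinarith

theorem jl_nonneg (d e P Q : ℕ → ℝ) (c s : ℝ) (hs : s * s = 1) (he : ∀ k, 0 ≤ e k)
    (hP : ∀ k, 0 ≤ P k) (hPQ : ∀ k, P k * Q k = e k)
    (hc : ∀ k, P k + prev 0 Q k ≤ c - s * d k) (p : ℝ[X]) :
    0 ≤ jl d e ((C c - C s * X) * p ^ 2) := by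
  obtain ⟨N, h1, h2⟩ := ((jv_form d e p ((C c - C s * X) * p)).and (jv_fin d e p)).exists
  have h3 := jac_bound d e P Q (jv d e p) c s hs he hP hPQ hc N
  have e1 : (C c - C s * X) * p ^ 2 = p * ((C c - C s * X) * p) := by ring
  have e2 : (C c - C s * X) * p = C c * p - C s * (X * p) := by ring
  rw [e1, ← h1, e2, jv_sub, jv_C_mul, jv_C_mul, jv_X_mul]
  rw [h2] at h3
  simpa using h3

theorem jac_measure (d e P Q P' Q' : ℕ → ℝ) {lo hi : ℝ} (hlh : lo < hi) (he : ∀ k, 0 ≤ e k)
    (hP : ∀ k, 0 ≤ P k) (hPQ : ∀ k, P k * Q k = e k) (hc : ∀ k, P k + prev 0 Q k ≤ hi - d k)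
    (hP' : ∀ k, 0 ≤ P' k) (hPQ' : ∀ k, P' k * Q' k = e k)
    (hc' : ∀ k, P' k + prev 0 Q' k ≤ d k - lo) :
    ∃ θ : Measure ℝ, IsProbabilityMeasure θ ∧ (∀ᵐ t ∂θ, t ∈ Icc lo hi) ∧
      ∀ p : ℝ[X], ∫ t, p.eval t ∂θ = jv d e p 0 := by
  refine haus_Icc (jl d e) hlh (by rw [jl_apply, jv_one]; rfl) (fun p => ?_) (fun p => ?_)
  · have := jl_nonneg d e P' Q' (-lo) (-1) (by norm_num) he hP' hPQ'
      (fun k => by linarith [hc' k]) p
    have e1 : (C (-lo) - C (-1) * X : ℝ[X]) = X - C lo := by simp; ring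
    rwa [e1] at this
  · have := jl_nonneg d e P Q hi 1 (by norm_num) he hP hPQ (fun k => by linarith [hc k]) p
    simpa using this

theorem jv_pow_bound (d e : ℕ → ℝ) {M : ℝ} (hd : ∀ k, |d k| ≤ M) (he : ∀ k, |e k| ≤ M) (n : ℕ) :
    ∀ k, |jv d e (X ^ n) k| ≤ (1 + 2 * M) ^ n := by
  have hM : 0 ≤ M := (abs_nonneg _).trans (hd 0)
  induction n with
  | zero =>
    intro k
    rw [pow_zero, jv_one, pow_zero]
    unfold e0
    split_ifs <;> simp
  | succ n ih =>
    intro k
    rw [pow_succ', jv_X_mul, jac_apply, pow_succ']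
    have h0 : |prev 0 (jv d e (X ^ n)) k| ≤ (1 + 2 * M) ^ n := by
      cases k with
      | zero => simp; positivity
      | succ k => simpa using ih k
    have h1 : |d k * jv d e (X ^ n) k| ≤ M * (1 + 2 * M) ^ n := by
      rw [abs_mul]
      exact mul_le_mul (hd k) (ih k) (abs_nonneg _) hM
    have h2 : |e k * jv d e (X ^ n) (k + 1)| ≤ M * (1 + 2 * M) ^ n := by
      rw [abs_mul]
      exact mul_le_mul (he k) (ih (k + 1)) (abs_nonneg _) hM
    have := abs_add_three (prev 0 (jv d e (X ^ n)) k) (d k * jv d e (X ^ n) k)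
      (e k * jv d e (X ^ n) (k + 1))
    linarith

end Pool.Agent.P.MP_ede858_pr
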