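import Mathlib
import Pool.Agent.P.MP_ede858_pr.Jac

set_option autoImplicit false

open Set Filter Topology MeasureTheory PowerSeries

namespace Pool.Agent.P.MP_ede858_pr

/-! Three-term recurrences of power series, their contraction to a Jacobi operator, and the
integral representations of the coefficients. -/

/-- The numerators `(1 - g n) g (n + 1)` of a `g`-fraction. -/
def al (g : ℕ → ℝ) (n : ℕ) : ℝ := (1 - g n) * g (n + 1)

/-- Diagonal of the contracted fraction. -/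
def cd (g : ℕ → ℝ) (k : ℕ) : ℝ := al g (2 * k) + al g (2 * k + 1)

/-- Off-diagonal of the contracted fraction. -/
def ce (g : ℕ → ℝ) (k : ℕ) : ℝ := al g (2 * k + 1) * al g (2 * k + 2)

theorem contr (g : ℕ → ℝ) (W : ℕ → ℝ⟦X⟧) (D ξ N : ℝ⟦X⟧)
    (h0 : D * W 0 = N + C (al g 0) * ξ * W 1)
    (h : ∀ n, D * W (n + 1) = W n + C (al g (n + 1)) * ξ * W (n + 2)) (n : ℕ) :
    D ^ 2 * (ξ ^ n * W (2 * n + 1)) = C (e0 n) * N
      + ξ * (prev 0 (fun j => ξ ^ j * W (2 * j + 1)) n + C (cd g n) * (ξ ^ n * W (2 * n + 1))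
        + C (ce g n) * (ξ ^ (n + 1) * W (2 * (n + 1) + 1))) := by
  cases n with
  | zero =>
    have h1 := h 0
    have h2 := h 1
    simp only [cd, ce, e0, map_add, map_mul, prev_zero, Nat.mul_zero, zero_add, pow_zero, one_mul,
      if_true, map_one, Nat.mul_one, pow_one, Nat.reduceAdd] at h1 h2 ⊢
    linear_combination D * h1 + h0 + C (al g 1) * ξ * h2
  | succ n =>
    have h1 := h (2 * n + 1)
    have h2 := h (2 * n + 2)
    have h3 := h (2 * n + 3)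
    have e1 : 2 * (n + 1) = 2 * n + 2 := by ring
    have e2 : 2 * (n + 1 + 1) + 1 = 2 * n + 5 := by ring
    have e3 : e0 (n + 1) = 0 := by simp [e0]
    simp only [cd, ce, map_add, map_mul, prev_succ, e1, e2, e3, map_zero, add_assoc,
      Nat.reduceAdd] at h1 h2 h3 ⊢
    linear_combination ξ ^ (n + 1) * D * h2 + ξ ^ (n + 1) * h1
      + ξ ^ (n + 1) * C (al g (2 * n + 3)) * ξ * h3

theorem coeff_jac (d e : ℕ → ℝ) (O : ℕ → ℝ⟦X⟧) (k n : ℕ) :
    coeff k (prev 0 O n + C (d n) * O n + C (e n) * O (n + 1))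
      = jac d e (fun j => coeff k (O j)) n := by
  rw [jac_apply, map_add, map_add, coeff_C_mul, coeff_C_mul]
  cases n <;> simp

theorem coeff_plain (d e : ℕ → ℝ) (O : ℕ → ℝ⟦X⟧)
    (h : ∀ n, O n = C (e0 n) + X * (prev 0 O n + C (d n) * O n + C (e n) * O (n + 1))) (k : ℕ) :
    (fun n => coeff k (O n)) = jv d e (Polynomial.X ^ k) := by
  induction k with
  | zero =>
    funext n
    rw [h n, pow_zero, jv_one]
    simp
  | succ k ih =>
    funext n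
    rw [h n, pow_succ', jv_X_mul, ← ih, map_add, coeff_succ_X_mul, coeff_jac, coeff_succ_C,
      zero_add]

/-- The shifted Chebyshev polynomial `T_k (2 t - 1)`. -/
noncomputable def tau (k : ℕ) : Polynomial ℝ :=
  (Polynomial.Chebyshev.T ℝ k).comp (2 * Polynomial.X - 1)

theorem tau_rec (k : ℕ) : tau (k + 2)
    = Polynomial.C 4 * (Polynomial.X * tau (k + 1)) - Polynomial.C 2 * tau (k + 1) - tau k := by
  unfold tau
  have e : ((k + 2 : ℕ) : ℤ) = (k : ℤ) + 2 := by push_cast; ring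
  have e' : ((k + 1 : ℕ) : ℤ) = (k : ℤ) + 1 := by push_cast; ring
  have c4 : (Polynomial.C 4 : Polynomial ℝ) = 4 := rfl
  have c2 : (Polynomial.C 2 : Polynomial ℝ) = 2 := rfl
  rw [e, e', Polynomial.Chebyshev.T_add_two, c4, c2]
  simp
  ring

theorem tau_zero : tau 0 = 1 := by simp [tau]

theorem tau_one : tau 1 = Polynomial.C 2 * (Polynomial.X * 1) - 1 := by
  have c2 : (Polynomial.C 2 : Polynomial ℝ) = 2 := rfl
  simp [tau, c2]

theorem abs_tau_le (k : ℕ) {t : ℝ} (ht : t ∈ Icc (0 : ℝ) 1) : |(tau k).eval t| ≤ 1 := by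
  unfold tau
  rw [Polynomial.eval_comp]
  apply Polynomial.Chebyshev.abs_eval_T_real_le_one
  simp only [Polynomial.eval_sub, Polynomial.eval_mul, Polynomial.eval_ofNat, Polynomial.eval_X,
    Polynomial.eval_one]
  rw [abs_le]
  constructor <;> linarith [ht.1, ht.2]

theorem coeff_cheb (d e : ℕ → ℝ) (O : ℕ → ℝ⟦X⟧)
    (h : ∀ n, (1 + X) ^ 2 * O n = C (e0 n) * (1 + X)
      + (C 4 * X) * (prev 0 O n + C (d n) * O n + C (e n) * O (n + 1))) (k : ℕ) :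
    (fun n => coeff (k + 1) (O n) - coeff k (O n)) = (2 : ℝ) • jv d e (tau (k + 1)) := by
  have h' : ∀ n, O n + X * (C 2 * O n) + X * (X * O n) = C (e0 n) + X * C (e0 n)
      + X * (C 4 * (prev 0 O n + C (d n) * O n + C (e n) * O (n + 1))) := by
    intro n
    have c2 : (C 2 : ℝ⟦X⟧) = 2 := rfl
    rw [c2]
    linear_combination h n
  have y0 : (fun n => coeff 0 (O n)) = e0 := by
    funext n
    have := congrArg (coeff 0) (h' n)
    simpa using this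
  have y1 : (fun n => coeff 1 (O n)) = (4 : ℝ) • jac d e e0 - e0 := by
    funext n
    have := congrArg (coeff (0 + 1)) (h' n)
    simp only [map_add, coeff_succ_X_mul, coeff_C_mul, coeff_zero_X_mul, coeff_succ_C,
      coeff_zero_C] at this
    have h1 := coeff_jac d e O 0 n
    simp only [map_add, coeff_C_mul] at h1
    have h2 := congrFun y0 n
    rw [y0] at h1
    simp only [Pi.sub_apply, Pi.smul_apply, smul_eq_mul]
    simp only [zero_add] at this h2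
    linear_combination this + 4 * h1 - 2 * h2
  have y2 : ∀ j, (fun n => coeff (j + 2) (O n)) = (4 : ℝ) • jac d e (fun n => coeff (j + 1) (O n))
      - (2 : ℝ) • (fun n => coeff (j + 1) (O n)) - (fun n => coeff j (O n)) := by
    intro j
    funext n
    have := congrArg (coeff (j + 1 + 1)) (h' n)
    simp only [map_add, coeff_succ_X_mul, coeff_C_mul, coeff_succ_C] at this
    have h1 := coeff_jac d e O (j + 1) n
    simp only [map_add, coeff_C_mul] at h1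
    simp only [Pi.sub_apply, Pi.smul_apply, smul_eq_mul]
    linear_combination this + 4 * h1
  have t1 : jv d e (tau 1) = (2 : ℝ) • jac d e e0 - e0 := by
    rw [tau_one, jv_sub, jv_C_mul, jv_X_mul, jv_one]
  have t2 : ∀ j, jv d e (tau (j + 2)) = (4 : ℝ) • jac d e (jv d e (tau (j + 1)))
      - (2 : ℝ) • jv d e (tau (j + 1)) - jv d e (tau j) := by
    intro j
    rw [tau_rec, jv_sub, jv_sub, jv_C_mul, jv_C_mul, jv_X_mul]
  have key : ∀ j, (fun n => coeff (j + 1) (O n)) - (fun n => coeff j (O n))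
      = (2 : ℝ) • jv d e (tau (j + 1)) := by
    intro j
    induction j using Nat.twoStepInduction with
    | zero =>
      rw [zero_add, y1, y0, t1]
      module
    | one =>
      rw [show 1 + 1 = 0 + 2 from rfl, y2 0, t2 0, zero_add, y1, y0, t1, tau_zero, jv_one]
      simp only [map_sub, map_smul]
      module
    | more j h1 h2 =>
      rw [show j + 2 + 1 = j + 1 + 2 from rfl, y2 (j + 1), t2 (j + 1)]
      have h3 := y2 j
      have h4 := congrArg (jac d e) h2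
      rw [map_sub, map_smul] at h4
      rw [show j + 1 + 1 = j + 2 from rfl] at h2 h4 ⊢
      linear_combination (norm := module) (4 : ℝ) • h4 - (2 : ℝ) • h2 - h1 - h3
  exact key k

theorem al_bound {g : ℕ → ℝ} {G : ℝ} (hG : ∀ n, |g n| ≤ G) (n : ℕ) : |al g n| ≤ (1 + G) * G := by
  unfold al
  rw [abs_mul]
  refine mul_le_mul ?_ (hG _) (abs_nonneg _) (by linarith [abs_nonneg (g 0), hG 0])
  have := abs_sub (1 : ℝ) (g n)
  rw [abs_one] at this
  linarith [hG n]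

theorem cd_upper {g : ℕ → ℝ} (h0 : g 0 = 0) (k : ℕ) :
    (1 - g (2 * k + 1)) * (1 - g (2 * k + 2))
      + prev 0 (fun j => g (2 * j + 2) * g (2 * j + 3)) k ≤ 1 - cd g k := by
  cases k with
  | zero => simp only [cd, al, prev_zero, h0]; apply le_of_eq; ring
  | succ k =>
    simp only [cd, al, prev_succ]
    apply le_of_eq
    rw [show 2 * k + 2 = 2 * (k + 1) by ring, show 2 * k + 3 = 2 * (k + 1) + 1 by ring]
    ring

theorem meas_crude {g : ℕ → ℝ} {G : ℝ} (h0 : g 0 = 0) (h1 : ∀ n, g n ≤ 1)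
    (hs : ∀ k, 0 ≤ g (2 * k + 2) * g (2 * k + 3)) (hG : ∀ n, |g n| ≤ G) :
    ∃ (R : ℝ) (θ : Measure ℝ), 1 ≤ R ∧ IsProbabilityMeasure θ ∧ (∀ᵐ t ∂θ, t ∈ Icc (-R) 1) ∧
      ∀ p : Polynomial ℝ, ∫ t, p.eval t ∂θ = jv (cd g) (ce g) p 0 := by
  have ha := al_bound hG
  set a := (1 + G) * G
  have ha0 : 0 ≤ a := (abs_nonneg _).trans (ha 0)
  have hP : ∀ k, 0 ≤ (1 - g (2 * k + 1)) * (1 - g (2 * k + 2)) :=
    fun k => mul_nonneg (sub_nonneg.2 (h1 _)) (sub_nonneg.2 (h1 _))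
  have hPQ : ∀ k, (1 - g (2 * k + 1)) * (1 - g (2 * k + 2)) * (g (2 * k + 2) * g (2 * k + 3))
      = ce g k := fun k => by simp only [ce, al]; ring
  have he : ∀ k, 0 ≤ ce g k := fun k => by rw [← hPQ]; exact mul_nonneg (hP k) (hs k)
  have he' : ∀ k, ce g k ≤ a * a := fun k => by
    refine (le_abs_self _).trans ?_
    rw [ce, abs_mul]
    exact mul_le_mul (ha _) (ha _) (abs_nonneg _) ha0
  obtain ⟨θ, h⟩ := jac_measure (cd g) (ce g) (fun k => (1 - g (2 * k + 1)) * (1 - g (2 * k + 2)))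
    (fun k => g (2 * k + 2) * g (2 * k + 3)) (fun _ => 1) (ce g) (lo := -(1 + a * a + 2 * a))
    (hi := 1) (by nlinarith) he hP hPQ (cd_upper h0) (fun _ => zero_le_one) (fun k => one_mul _)
    (fun k => by
      have h2 : prev 0 (ce g) k ≤ a * a := by
        cases k with
        | zero => simp; positivity
        | succ k => simpa using he' k
      have h3 := neg_abs_le (al g (2 * k))
      have h4 := neg_abs_le (al g (2 * k + 1))
      have h5 := ha (2 * k)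
      have h6 := ha (2 * k + 1)
      unfold cd
      linarith)
  exact ⟨1 + a * a + 2 * a, θ, by nlinarith, h⟩

theorem meas_unit {g : ℕ → ℝ} (h0 : g 0 = 0) (h1 : ∀ n, g n ≤ 1) (hs : ∀ n, 0 ≤ g n) :
    ∃ θ : Measure ℝ, IsProbabilityMeasure θ ∧ (∀ᵐ t ∂θ, t ∈ Icc (0 : ℝ) 1) ∧
      ∀ p : Polynomial ℝ, ∫ t, p.eval t ∂θ = jv (cd g) (ce g) p 0 := by
  have ha : ∀ n, 0 ≤ al g n := fun n => mul_nonneg (sub_nonneg.2 (h1 _)) (hs _)
  refine jac_measure (cd g) (ce g) (fun k => (1 - g (2 * k + 1)) * (1 - g (2 * k + 2)))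
    (fun k => g (2 * k + 2) * g (2 * k + 3)) (fun k => al g (2 * k + 1))
    (fun k => al g (2 * k + 2)) zero_lt_one (fun k => mul_nonneg (ha _) (ha _))
    (fun k => mul_nonneg (sub_nonneg.2 (h1 _)) (sub_nonneg.2 (h1 _)))
    (fun k => by simp only [ce, al]; ring) (cd_upper h0) (fun k => ha _) (fun k => rfl)
    (fun k => ?_)
  cases k with
  | zero => simpa [cd] using ha 0
  | succ k =>
    simp only [cd, prev_succ]
    apply le_of_eq
    rw [show 2 * k + 2 = 2 * (k + 1) by ring]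
    ring

theorem al_prev_zero {g : ℕ → ℝ} (h0 : g 0 = 0) : al (prev 0 g) 0 = 0 := by
  simp [al, h0]

theorem al_prev_succ (g : ℕ → ℝ) (n : ℕ) : al (prev 0 g) (n + 1) = al g n := by
  simp [al]

/-- The recurrence of a `g`-fraction with multiplier `D` and step `ξ`. -/
def IsFrac (g : ℕ → ℝ) (D ξ : ℝ⟦X⟧) (W : ℕ → ℝ⟦X⟧) : Prop :=
  D * W 0 = 1 + C (al g 0) * ξ * W 1 ∧
    ∀ n, D * W (n + 1) = W n + C (al g (n + 1)) * ξ * W (n + 2)

theorem frac_odd {g : ℕ → ℝ} {W : ℕ → ℝ⟦X⟧} (h : IsFrac g 1 X W) (k : ℕ) :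
    coeff k (W 1) = jv (cd g) (ce g) (Polynomial.X ^ k) 0 := by
  have h1 := coeff_plain (cd g) (ce g) (fun n => X ^ n * W (2 * n + 1)) (fun n => by
    have := contr g W 1 X 1 h.1 h.2 n
    simpa using this) k
  have := congrFun h1 0
  simpa using this

theorem frac_shift {g : ℕ → ℝ} (h0 : g 0 = 0) {D ξ : ℝ⟦X⟧} {W : ℕ → ℝ⟦X⟧} (h : IsFrac g D ξ W) :
    D * prev 1 W 0 = D + C (al (prev 0 g) 0) * ξ * prev 1 W 1 ∧
      ∀ n, D * prev 1 W (n + 1) = prev 1 W n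
        + C (al (prev 0 g) (n + 1)) * ξ * prev 1 W (n + 2) := by
  refine ⟨by simp [al_prev_zero h0], fun n => ?_⟩
  rw [al_prev_succ, prev_succ, prev_succ]
  cases n with
  | zero => simpa using h.1
  | succ n => simpa using h.2 n

theorem frac_even {g : ℕ → ℝ} (h0 : g 0 = 0) {W : ℕ → ℝ⟦X⟧} (h : IsFrac g 1 X W) (k : ℕ) :
    coeff k (W 0) = jv (cd (prev 0 g)) (ce (prev 0 g)) (Polynomial.X ^ k) 0 := by
  have h2 := frac_shift h0 h
  have h1 := coeff_plain (cd (prev 0 g)) (ce (prev 0 g))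
    (fun n => X ^ n * prev 1 W (2 * n + 1)) (fun n => by
    have := contr (prev 0 g) (prev 1 W) 1 X 1 h2.1 h2.2 n
    simpa using this) k
  have := congrFun h1 0
  simpa using this

theorem frac_cheb {g : ℕ → ℝ} (h0 : g 0 = 0) {W : ℕ → ℝ⟦X⟧}
    (h : IsFrac g (1 + X) (C 4 * X) W) (k : ℕ) :
    coeff (k + 1) (W 0) - coeff k (W 0)
      = 2 * jv (cd (prev 0 g)) (ce (prev 0 g)) (tau (k + 1)) 0 := by
  have h2 := frac_shift h0 h
  have h1 := coeff_cheb (cd (prev 0 g)) (ce (prev 0 g))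
    (fun n => (C 4 * X) ^ n * prev 1 W (2 * n + 1))
    (fun n => contr (prev 0 g) (prev 1 W) (1 + X) (C 4 * X) (1 + X) h2.1 h2.2 n) k
  have := congrFun h1 0
  simpa using this

theorem prev_bound {g : ℕ → ℝ} {G : ℝ} (hG : ∀ n, |g n| ≤ G) (n : ℕ) : |prev 0 g n| ≤ G := by
  cases n with
  | zero => simpa using (abs_nonneg _).trans (hG 0)
  | succ n => simpa using hG n

theorem prev_le_one {g : ℕ → ℝ} (h : ∀ n, g n ≤ 1) (n : ℕ) : prev 0 g n ≤ 1 := by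
  cases n with
  | zero => simp
  | succ n => simpa using h n

theorem prev_nonneg {g : ℕ → ℝ} (h : ∀ n, 0 ≤ g n) (n : ℕ) : 0 ≤ prev 0 g n := by
  cases n with
  | zero => simp
  | succ n => simpa using h n

theorem frac_bound {g : ℕ → ℝ} {G : ℝ} (h0 : g 0 = 0) (hG : ∀ n, |g n| ≤ G) {W : ℕ → ℝ⟦X⟧}
    (h : IsFrac g 1 X W) : ∃ R : ℝ, 1 ≤ R ∧ ∀ k, |coeff k (W 0)| ≤ R ^ k := by
  have ha := al_bound (prev_bound hG)
  set a := (1 + G) * G
  have ha0 : 0 ≤ a := (abs_nonneg _).trans (ha 0)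
  refine ⟨1 + 2 * (2 * a + a * a), by nlinarith, fun k => ?_⟩
  rw [frac_even h0 h]
  refine jv_pow_bound _ _ (fun j => ?_) (fun j => ?_) k 0
  · have := abs_add_le (al (prev 0 g) (2 * j)) (al (prev 0 g) (2 * j + 1))
    have h1 := ha (2 * j)
    have h2 := ha (2 * j + 1)
    unfold cd
    nlinarith
  · rw [ce, abs_mul]
    have := mul_le_mul (ha (2 * j + 1)) (ha (2 * j + 2)) (abs_nonneg _) ha0
    linarith

theorem frac_low {g : ℕ → ℝ} {W : ℕ → ℝ⟦X⟧} (h : IsFrac g 1 X W) :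
    coeff 0 (W 0) = 1 ∧ coeff 1 (W 0) = al g 0 ∧ coeff 2 (W 0) = al g 0 * (al g 0 + al g 1) ∧
      coeff 3 (W 0) = al g 0 * ((al g 0 + al g 1) ^ 2 + al g 1 * al g 2) := by
  have h1 : W 0 = 1 + X * (C (al g 0) * W 1) := by linear_combination h.1
  have h2 : ∀ k, coeff (k + 1) (W 0) = al g 0 * jv (cd g) (ce g) (Polynomial.X ^ k) 0 := by
    intro k
    rw [h1, map_add, coeff_succ_X_mul, coeff_C_mul, frac_odd h, coeff_one]
    simp
  refine ⟨by rw [h1]; simp, ?_, ?_, ?_⟩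
  · rw [h2 0, pow_zero, jv_one]; simp [e0]
  · rw [h2 1, pow_succ', jv_X_mul, pow_zero, jv_one]; simp [jac_apply, e0, cd]
  · rw [h2 2, pow_succ', jv_X_mul, pow_succ', jv_X_mul, pow_zero, jv_one]
    simp [jac_apply, e0, cd, ce, prev]
    left
    ring

theorem frac_odd_meas {g : ℕ → ℝ} {G : ℝ} (h0 : g 0 = 0) (h1 : ∀ n, g n ≤ 1)
    (hs : ∀ k, 0 ≤ g (2 * k + 2) * g (2 * k + 3)) (hG : ∀ n, |g n| ≤ G) {W : ℕ → ℝ⟦X⟧}
    (h : IsFrac g 1 X W) :
    ∃ (R : ℝ) (θ : Measure ℝ), 1 ≤ R ∧ IsProbabilityMeasure θ ∧ (∀ᵐ t ∂θ, t ∈ Icc (-R) 1) ∧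
      ∀ k, coeff k (W 1) = ∫ t, t ^ k ∂θ := by
  obtain ⟨R, θ, hR, hθ, hI, hp⟩ := meas_crude h0 h1 hs hG
  refine ⟨R, θ, hR, hθ, hI, fun k => ?_⟩
  rw [frac_odd h, ← hp]
  simp

theorem frac_even_meas {g : ℕ → ℝ} {G : ℝ} (h0 : g 0 = 0) (h1 : ∀ n, g n ≤ 1)
    (hs : ∀ k, 0 ≤ g (2 * k + 1) * g (2 * k + 2)) (hG : ∀ n, |g n| ≤ G) {W : ℕ → ℝ⟦X⟧}
    (h : IsFrac g 1 X W) :
    ∃ (R : ℝ) (θ : Measure ℝ), 1 ≤ R ∧ IsProbabilityMeasure θ ∧ (∀ᵐ t ∂θ, t ∈ Icc (-R) 1) ∧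
      ∀ k, coeff k (W 0) = ∫ t, t ^ k ∂θ := by
  obtain ⟨R, θ, hR, hθ, hI, hp⟩ := meas_crude (g := prev 0 g) rfl (prev_le_one h1)
    (fun k => by simpa using hs k) (prev_bound hG)
  refine ⟨R, θ, hR, hθ, hI, fun k => ?_⟩
  rw [frac_even h0 h, ← hp]
  simp

theorem frac_unit_meas {g : ℕ → ℝ} (h0 : g 0 = 0) (h1 : ∀ n, g n ≤ 1) (hs : ∀ n, 0 ≤ g n)
    {W : ℕ → ℝ⟦X⟧} (h : IsFrac g 1 X W) :
    ∃ θ : Measure ℝ, IsProbabilityMeasure θ ∧ (∀ᵐ t ∂θ, t ∈ Icc (0 : ℝ) 1) ∧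
      ∀ k, coeff k (W 0) = ∫ t, t ^ k ∂θ := by
  obtain ⟨θ, hθ, hI, hp⟩ := meas_unit (g := prev 0 g) rfl (prev_le_one h1) (prev_nonneg hs)
  refine ⟨θ, hθ, hI, fun k => ?_⟩
  rw [frac_even h0 h, ← hp]
  simp

theorem frac_cheb_meas {g : ℕ → ℝ} (h0 : g 0 = 0) (h1 : ∀ n, g n ≤ 1) (hs : ∀ n, 0 ≤ g n)
    {W : ℕ → ℝ⟦X⟧} (h : IsFrac g (1 + X) (C 4 * X) W) :
    ∃ θ : Measure ℝ, IsProbabilityMeasure θ ∧ (∀ᵐ t ∂θ, t ∈ Icc (0 : ℝ) 1) ∧
      (∫ t, t ^ 6 ∂θ = jv (cd (prev 0 g)) (ce (prev 0 g)) (Polynomial.X ^ 6) 0) ∧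
      ∀ k, coeff (k + 1) (W 0) - coeff k (W 0) = 2 * ∫ t, (tau (k + 1)).eval t ∂θ := by
  obtain ⟨θ, hθ, hI, hp⟩ := meas_unit (g := prev 0 g) rfl (prev_le_one h1) (prev_nonneg hs)
  refine ⟨θ, hθ, hI, ?_, fun k => ?_⟩
  · rw [← hp]
    simp
  · rw [frac_cheb h0 h, ← hp]

end Pool.Agent.P.MP_ede858_pr
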