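import Mathlib
import Pool.Agent.P.MP_ede858_pr.Defs2
import Pool.Agent.P.MP_ede858_pr.Frac

set_option autoImplicit false

open Set Filter Topology MeasureTheory PowerSeries

namespace Pool.Agent.P.MP_ede858_pr

/-! Contiguous relations for formal Gauss series. -/

/-- The rising factorial. -/
noncomputable def po (x : ℝ) (k : ℕ) : ℝ := (ascPochhammer ℝ k).eval x

theorem po_zero (x : ℝ) : po x 0 = 1 := by simp [po]

theorem po_right (x : ℝ) (k : ℕ) : po x (k + 1) = po x k * (x + k) :=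
  ascPochhammer_succ_eval k x

theorem po_left (x : ℝ) (k : ℕ) : po x (k + 1) = x * po (x + 1) k := by
  simp [po, ascPochhammer_succ_left, Polynomial.eval_comp]

theorem po_pos {x : ℝ} (hx : 0 < x) (k : ℕ) : 0 < po x k := ascPochhammer_pos k x hx

theorem po_up {x : ℝ} (hx : x ≠ 0) (k : ℕ) : po (x + 1) k = po x k * (x + k) / x := by
  rw [← po_right, po_left]
  field_simp

theorem hyp_eq (a b c : ℝ) (k : ℕ) :
    hyp a b c k = po a k * po b k / (po c k * (k.factorial : ℝ)) := rfl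

theorem hyp_zero (a b c : ℝ) : hyp a b c 0 = 1 := by simp [hyp_eq, po_zero]

theorem hyp_symm (a b c : ℝ) : hyp a b c = hyp b a c := by
  funext k
  rw [hyp_eq, hyp_eq, mul_comm (po a k)]

theorem hyp_pos {a b c : ℝ} (ha : 0 < a) (hb : 0 < b) (hc : 0 < c) (k : ℕ) : 0 < hyp a b c k := by
  have := po_pos ha k
  have := po_pos hb k
  have := po_pos hc k
  rw [hyp_eq]
  positivity

theorem hyp_succ (a b : ℝ) {c : ℝ} (hc : 0 < c) (k : ℕ) :
    hyp a b c (k + 1) * ((c + k) * (k + 1)) = hyp a b c k * ((a + k) * (b + k)) := by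
  have := po_pos hc k
  have h2 : 0 < c + k := by positivity
  rw [hyp_eq, hyp_eq, po_right, po_right, po_right, Nat.factorial_succ]
  push_cast
  field_simp

theorem hyp_up (a b c : ℝ) (k : ℕ) : b * hyp a (b + 1) c k = (b + k) * hyp a b c k := by
  rw [hyp_eq, hyp_eq]
  have : b * po (b + 1) k = po b k * (b + k) := by rw [← po_left, po_right]
  linear_combination (po a k / (po c k * (k.factorial : ℝ))) * this

/-- The formal Gauss series. -/
noncomputable def FF (a b c : ℝ) : ℝ⟦X⟧ := mk (hyp a b c)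

theorem FF_symm (a b c : ℝ) : FF a b c = FF b a c := by rw [FF, FF, hyp_symm]

theorem coeff_FF (a b c : ℝ) (k : ℕ) : coeff k (FF a b c) = hyp a b c k := coeff_mk _ _

theorem const_FF (a b c : ℝ) : constantCoeff (FF a b c) = 1 := by
  rw [← coeff_zero_eq_constantCoeff_apply, coeff_FF, hyp_zero]

theorem FF_mul_inv (a b c : ℝ) : FF a b c * (FF a b c)⁻¹ = 1 :=
  PowerSeries.mul_inv_cancel _ (by rw [const_FF]; exact one_ne_zero)

theorem FF_R1 (a b : ℝ) {c : ℝ} (hc : 0 < c) :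
    FF (a + 1) b c = FF a b c + C (b / c) * X * FF (a + 1) (b + 1) (c + 1) := by
  ext k
  rw [mul_assoc, map_add, coeff_C_mul]
  cases k with
  | zero => simp [coeff_FF, const_FF, hyp_zero]
  | succ k =>
    rw [coeff_succ_X_mul, coeff_FF, coeff_FF, coeff_FF, hyp_eq, hyp_eq, hyp_eq, po_right (a + 1),
      po_left a, po_left b, po_left c, Nat.factorial_succ]
    have := po_pos (show 0 < c + 1 by linarith) k
    push_cast
    field_simp
    ring

theorem FF_R2 (a b : ℝ) {c : ℝ} (hc : 0 < c) :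
    FF a (b + 1) (c + 1) = FF a b c
      + C ((1 - b / c) * (a / (c + 1))) * X * FF (a + 1) (b + 1) (c + 1 + 1) := by
  ext k
  rw [mul_assoc, map_add, coeff_C_mul]
  cases k with
  | zero => simp [coeff_FF, const_FF, hyp_zero]
  | succ k =>
    have h1 : 0 < c + 1 := by linarith
    rw [coeff_succ_X_mul, coeff_FF, coeff_FF, coeff_FF, hyp_eq, hyp_eq, hyp_eq, po_right (b + 1),
      po_left a, po_left b, po_left c, po_right (c + 1), po_up h1.ne', Nat.factorial_succ]
    have := po_pos h1 k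
    have h2 : 0 < c + 1 + k := by positivity
    push_cast
    field_simp
    ring

/-- The parameters of the `g`-fraction of `F(a + 1, b; c) / F(a, b; c)`. -/
noncomputable def gg (a b c : ℝ) (n : ℕ) : ℝ :=
  if n = 0 then 0 else if n % 2 = 1 then (b + (n / 2 : ℕ)) / (c + n - 1)
  else (a + (n / 2 : ℕ)) / (c + n - 1)

theorem gg_zero (a b c : ℝ) : gg a b c 0 = 0 := by simp [gg]

theorem gg_odd (a b c : ℝ) (k : ℕ) : gg a b c (2 * k + 1) = (b + k) / (c + 2 * k) := by
  have h1 : (2 * k + 1) % 2 = 1 := by omega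
  have h2 : (2 * k + 1) / 2 = k := by omega
  simp only [gg, h1, h2, Nat.succ_ne_zero, if_false, if_true]
  push_cast
  ring_nf

theorem gg_even (a b c : ℝ) (k : ℕ) :
    gg a b c (2 * k + 2) = (a + 1 + k) / (c + 2 * k + 1) := by
  have h1 : ¬ (2 * k + 2) % 2 = 1 := by omega
  have h2 : (2 * k + 2) / 2 = k + 1 := by omega
  simp only [gg, h1, h2, Nat.succ_ne_zero, if_false]
  push_cast
  ring_nf

/-- The numerators of the successive quotients. -/
noncomputable def PP (a b c : ℝ) (n : ℕ) : ℝ⟦X⟧ :=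
  FF (a + 1 + (n / 2 : ℕ)) (b + ((n + 1) / 2 : ℕ)) (c + n)

theorem PP_even (a b c : ℝ) (k : ℕ) : PP a b c (2 * k) = FF (a + 1 + k) (b + k) (c + 2 * k) := by
  have h1 : (2 * k) / 2 = k := by omega
  have h2 : (2 * k + 1) / 2 = k := by omega
  simp only [PP, h1, h2]
  push_cast
  rfl

theorem PP_odd (a b c : ℝ) (k : ℕ) :
    PP a b c (2 * k + 1) = FF (a + 1 + k) (b + k + 1) (c + 2 * k + 1) := by
  have h1 : (2 * k + 1) / 2 = k := by omega
  have h2 : (2 * k + 1 + 1) / 2 = k + 1 := by omega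
  simp only [PP, h1, h2]
  push_cast
  simp only [add_assoc]

theorem PP_rec (a b : ℝ) {c : ℝ} (hc : 0 < c) (n : ℕ) :
    PP a b c (n + 1) = PP a b c n + C (al (gg a b c) (n + 1)) * X * PP a b c (n + 2) := by
  obtain ⟨k, rfl | rfl⟩ := Nat.even_or_odd' n
  · have h1 : 0 < c + 2 * k := by positivity
    rw [PP_odd, PP_even, show 2 * k + 2 = 2 * (k + 1) by ring, PP_even, FF_R2 _ _ h1, al, gg_odd,
      show 2 * k + 1 + 1 = 2 * k + 2 by ring, gg_even]
    push_cast
    ring_nf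
  · have h1 : 0 < c + 2 * k + 1 := by positivity
    have h2 := FF_R2 (b + k + 1) (a + 1 + k) h1
    rw [show 2 * k + 1 + 1 = 2 * (k + 1) by ring, PP_even, PP_odd,
      show 2 * k + 1 + 2 = 2 * (k + 1) + 1 by ring, PP_odd, al,
      show 2 * (k + 1) = 2 * k + 2 by ring, gg_even,
      show 2 * k + 2 + 1 = 2 * (k + 1) + 1 by ring, gg_odd,
      FF_symm _ (b + ((k + 1 : ℕ) : ℝ)), FF_symm _ (b + k + 1),
      FF_symm _ (b + ((k + 1 : ℕ) : ℝ) + 1)]
    push_cast
    convert h2 using 2 <;> ring_nf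

/-- The successive quotients. -/
noncomputable def WW (a b c : ℝ) (n : ℕ) : ℝ⟦X⟧ := PP a b c n * (FF a b c)⁻¹

theorem WW_frac (a b : ℝ) {c : ℝ} (hc : 0 < c) : IsFrac (gg a b c) 1 X (WW a b c) := by
  constructor
  · have h0 := PP_even a b c 0
    have h1 := PP_odd a b c 0
    have h2 := gg_odd a b c 0
    simp only [Nat.cast_zero, add_zero, mul_zero, zero_add] at h0 h1 h2
    rw [WW, WW, h0, h1, FF_R1 a b hc, al, gg_zero, zero_add, h2, sub_zero, one_mul, one_mul]
    linear_combination FF_mul_inv a b c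
  · intro n
    rw [WW, WW, WW, PP_rec a b hc]
    ring

theorem WW_zero (a b c : ℝ) : WW a b c 0 = FF (a + 1) b c * (FF a b c)⁻¹ := by
  have h0 := PP_even a b c 0
  simp only [Nat.cast_zero, add_zero, mul_zero] at h0
  rw [WW, h0]

theorem cf_eq (A B C : ℝ) (k : ℕ) : cf A B C k = 2 * B * coeff k (WW B A C 0) := by
  rw [WW_zero, FF_symm (B + 1), FF_symm B]
  rfl

theorem gg_cases (P : ℕ → Prop) (h0 : P 0) (h1 : ∀ k, P (2 * k + 1)) (h2 : ∀ k, P (2 * k + 2))
    (n : ℕ) : P n := by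
  cases n with
  | zero => exact h0
  | succ n =>
    obtain ⟨k, rfl | rfl⟩ := Nat.even_or_odd' n
    · exact h1 k
    · exact h2 k

theorem gg_bound (a b : ℝ) {c : ℝ} (hc : 0 < c) (n : ℕ) :
    |gg a b c n| ≤ (|a| + |b| + 1) / c + 1 := by
  have ha := abs_nonneg a
  have hb := abs_nonneg b
  have hq : 0 ≤ (|a| + |b| + 1) / c := by positivity
  have hq' : (|a| + |b| + 1) / c * c = |a| + |b| + 1 := by field_simp
  set q := (|a| + |b| + 1) / c
  induction n using gg_cases with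
  | h0 => rw [gg_zero, abs_zero]; positivity
  | h1 k =>
    have hk : (0 : ℝ) ≤ k := Nat.cast_nonneg k
    have h1 : 0 < c + 2 * k := by positivity
    rw [gg_odd, abs_div, abs_of_pos h1, div_le_iff₀ h1]
    have := abs_add_le b k
    rw [abs_of_nonneg hk] at this
    nlinarith [mul_nonneg hq hk]
  | h2 k =>
    have hk : (0 : ℝ) ≤ k := Nat.cast_nonneg k
    have h1 : 0 < c + 2 * k + 1 := by positivity
    rw [gg_even, abs_div, abs_of_pos h1, div_le_iff₀ h1]
    have := abs_add_le a (1 + k)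
    rw [abs_of_nonneg (show (0 : ℝ) ≤ 1 + k by positivity), ← add_assoc] at this
    nlinarith [mul_nonneg hq hk]

theorem gg_nonneg {a b c : ℝ} (ha : 0 ≤ a + 1) (hb : 0 ≤ b) (hc : 0 < c) (n : ℕ) :
    0 ≤ gg a b c n := by
  induction n using gg_cases with
  | h0 => rw [gg_zero]
  | h1 k => rw [gg_odd]; positivity
  | h2 k => rw [gg_even]; positivity

theorem gg_le_one {a b c : ℝ} (ha : a ≤ c) (hb : b ≤ c) (hc : 0 < c) (n : ℕ) :
    gg a b c n ≤ 1 := by
  induction n using gg_cases with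
  | h0 => rw [gg_zero]; exact zero_le_one
  | h1 k =>
    have hk : (0 : ℝ) ≤ k := Nat.cast_nonneg k
    rw [gg_odd, div_le_one (by positivity)]
    linarith
  | h2 k =>
    have hk : (0 : ℝ) ≤ k := Nat.cast_nonneg k
    rw [gg_even, div_le_one (by positivity)]
    linarith

theorem cf_bound (A : ℝ) {B C : ℝ} (hC : 0 < C) :
    ∃ R : ℝ, 1 ≤ R ∧ ∀ k, |cf A B C k| ≤ |2 * B| * R ^ k := by
  obtain ⟨R, hR, h⟩ := frac_bound (gg_zero B A C) (gg_bound B A hC) (WW_frac B A hC)
  refine ⟨R, hR, fun k => ?_⟩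
  rw [cf_eq, abs_mul]
  exact mul_le_mul_of_nonneg_left (h k) (abs_nonneg _)

theorem cf_meas {A B C : ℝ} (hA : 0 ≤ A) (hB : 0 ≤ B) (hC : 0 < C) (hAC : A ≤ C) (hBC : B ≤ C) :
    ∃ θ : Measure ℝ, IsProbabilityMeasure θ ∧ (∀ᵐ t ∂θ, t ∈ Icc (0 : ℝ) 1) ∧
      ∀ k, cf A B C k = 2 * B * ∫ t, t ^ k ∂θ := by
  obtain ⟨θ, hθ, hI, h⟩ := frac_unit_meas (gg_zero B A C) (gg_le_one hBC hAC hC)
    (gg_nonneg (by linarith) hA hC) (WW_frac B A hC)
  exact ⟨θ, hθ, hI, fun k => by rw [cf_eq, h]⟩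

theorem cf_zero (A B : ℝ) {C : ℝ} (hC : 0 < C) : cf A B C 0 = 2 * B := by
  rw [cf_eq, (frac_low (WW_frac B A hC)).1, mul_one]

theorem cf_conv (A B C : ℝ) (k : ℕ) :
    ∑ p ∈ Finset.HasAntidiagonal.antidiagonal k, cf A B C p.1 * hyp A B C p.2 = 2 * (B + k) * hyp A B C k := by
  have h1 : FF A (B + 1) C * (FF A B C)⁻¹ * FF A B C = FF A (B + 1) C := by
    linear_combination FF A (B + 1) C * FF_mul_inv A B C
  have h2 := congrArg (coeff k) h1
  rw [coeff_mul, coeff_FF] at h2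
  have h3 := hyp_up A B C k
  have h4 : ∑ p ∈ Finset.HasAntidiagonal.antidiagonal k, cf A B C p.1 * hyp A B C p.2
      = 2 * B * ∑ p ∈ Finset.HasAntidiagonal.antidiagonal k,
        coeff p.1 (FF A (B + 1) C * (FF A B C)⁻¹) * coeff p.2 (FF A B C) := by
    rw [Finset.mul_sum]
    refine Finset.sum_congr rfl (fun p _ => ?_)
    rw [coeff_FF, ← mul_assoc]
    rfl
  rw [h4, h2]
  linear_combination 2 * h3

theorem hankel_A {A B C : ℝ} (hA : 0 < A) (hB : 0 < B) (hC : 0 < C)
    (h : ∀ l : ℝ, 0 ≤ cf A B C 2 - 2 * l * cf A B C 1 + l ^ 2 * cf A B C 0) : A ≤ C := by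
  obtain ⟨h0, h1, h2, -⟩ := frac_low (WW_frac B A hC)
  have g1 := gg_odd B A C 0
  have g2 := gg_even B A C 0
  simp only [Nat.cast_zero, add_zero, mul_zero, zero_add] at g1 g2
  have h3 := h (A / C)
  rw [cf_eq, cf_eq, cf_eq, h0, h1, h2] at h3
  simp only [al, gg_zero, zero_add, Nat.reduceAdd, g1, g2] at h3
  by_contra hAC
  have hx : 1 < A / C := (one_lt_div hC).2 (not_le.1 hAC)
  have hy : 0 < (B + 1) / (C + 1) := by positivity
  set x := A / C
  set y := (B + 1) / (C + 1)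
  have : 0 < B * (x * ((x - 1) * y)) := by
    have : 0 < x - 1 := by linarith
    have : 0 < x := by linarith
    positivity
  nlinarith

theorem hankel_B {A B C : ℝ} (hA : 0 < A) (hB : 0 < B) (hC : 0 < C) (hAC : A < C)
    (h : ∀ l : ℝ, 0 ≤ cf A B C 3 - 2 * l * cf A B C 2 + l ^ 2 * cf A B C 1) : B ≤ C := by
  obtain ⟨-, h1, h2, h3⟩ := frac_low (WW_frac B A hC)
  have g1 := gg_odd B A C 0
  have g2 := gg_even B A C 0
  have g3 := gg_odd B A C 1
  simp only [Nat.cast_zero, add_zero, mul_zero, zero_add, Nat.cast_one, mul_one,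
    Nat.reduceAdd] at g1 g2 g3
  have h4 := h (A / C + (1 - A / C) * ((B + 1) / (C + 1)))
  rw [cf_eq, cf_eq, cf_eq, h1, h2, h3] at h4
  simp only [al, gg_zero, zero_add, Nat.reduceAdd, g1, g2, g3] at h4
  by_contra hBC
  have hx : A / C < 1 := (div_lt_one hC).2 hAC
  have hx0 : 0 < A / C := by positivity
  have hy : 1 < (B + 1) / (C + 1) := (one_lt_div (by linarith)).2 (by linarith [not_le.1 hBC])
  have hz : 0 < (A + 1) / (C + 2) := by positivity
  set x := A / C
  set y := (B + 1) / (C + 1)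
  set z := (A + 1) / (C + 2)
  have : 0 < B * (x * (((1 - x) * y) * ((y - 1) * z))) := by
    have : 0 < 1 - x := by linarith
    have : 0 < y - 1 := by linarith
    have : 0 < y := by linarith
    positivity
  nlinarith

end Pool.Agent.P.MP_ede858_pr
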