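import Mathlib

set_option autoImplicit false

open Set Filter Topology MeasureTheory

namespace Pool.Agent.P.MP_ede858_pr

/-! Entire series `∑ c k x ^ (2 k + i) / (2 k + i)!` with geometrically bounded coefficients. -/

/-- The series `∑ c k x ^ (2 k + i) / (2 k + i)!`. -/
noncomputable def Sr (i : ℕ) (c : ℕ → ℝ) (x : ℝ) : ℝ :=
  ∑' k : ℕ, c k * x ^ (2 * k + i) / ((2 * k + i).factorial : ℝ)

/-- Geometric growth. -/
def Geo (c : ℕ → ℝ) (K R : ℝ) : Prop := 1 ≤ R ∧ ∀ k, |c k| ≤ K * R ^ k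

theorem Geo.nonneg {c : ℕ → ℝ} {K R : ℝ} (h : Geo c K R) : 0 ≤ K := by
  have := (abs_nonneg _).trans (h.2 0)
  simpa using this

theorem Geo.succ {c : ℕ → ℝ} {K R : ℝ} (h : Geo c K R) : Geo (fun k => c (k + 1)) (K * R) R :=
  ⟨h.1, fun k => by simpa [pow_succ', mul_assoc] using h.2 (k + 1)⟩

theorem geo_pow {t R : ℝ} (hR : 1 ≤ R) (ht : |t| ≤ R) : Geo (fun k => t ^ k) 1 R :=
  ⟨hR, fun k => by rw [abs_pow, one_mul]; exact pow_le_pow_left₀ (abs_nonneg _) ht k⟩

theorem geo_one : Geo (fun _ => (1 : ℝ)) 1 1 := ⟨le_rfl, fun k => by simp⟩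

theorem summable_aux (i : ℕ) (y : ℝ) :
    Summable (fun k : ℕ => y ^ (2 * k + i) / ((2 * k + i).factorial : ℝ)) :=
  (Real.summable_pow_div_factorial y).comp_injective (i := fun k : ℕ => 2 * k + i)
    (fun a b h => by simpa using h)

theorem tsum_aux_le (i : ℕ) {y : ℝ} (hy : 0 ≤ y) :
    ∑' k : ℕ, y ^ (2 * k + i) / ((2 * k + i).factorial : ℝ) ≤ Real.exp y := by
  have h : HasSum (fun n : ℕ => y ^ n / (n.factorial : ℝ)) (Real.exp y) := by
    rw [Real.exp_eq_exp_ℝ]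
    exact NormedSpace.expSeries_div_hasSum_exp y
  rw [← h.tsum_eq]
  exact (summable_aux i y).tsum_le_tsum_of_inj (fun k : ℕ => 2 * k + i)
    (fun a b h => by simpa using h) (fun n _ => by positivity) (fun k => le_rfl) h.summable

theorem term_le {c : ℕ → ℝ} {K R : ℝ} (h : Geo c K R) (i k : ℕ) {x y : ℝ} (hxy : |x| ≤ y) :
    |c k * x ^ (2 * k + i) / ((2 * k + i).factorial : ℝ)|
      ≤ K * ((R * y) ^ (2 * k + i) / ((2 * k + i).factorial : ℝ)) := by
  have hK := h.nonneg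
  have hR : 0 ≤ R := zero_le_one.trans h.1
  rw [abs_div, abs_mul, abs_pow, Nat.abs_cast, mul_pow, ← mul_div_assoc]
  apply div_le_div_of_nonneg_right _ (by positivity)
  have h1 : R ^ k ≤ R ^ (2 * k + i) := pow_le_pow_right₀ h.1 (by omega)
  have h2 : |x| ^ (2 * k + i) ≤ y ^ (2 * k + i) := pow_le_pow_left₀ (abs_nonneg _) hxy _
  calc |c k| * |x| ^ (2 * k + i) ≤ K * R ^ (2 * k + i) * y ^ (2 * k + i) :=
        mul_le_mul ((h.2 k).trans (mul_le_mul_of_nonneg_left h1 hK)) h2 (by positivity)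
          (by positivity)
    _ = _ := by ring

theorem Geo.summable {c : ℕ → ℝ} {K R : ℝ} (h : Geo c K R) (i : ℕ) (x : ℝ) :
    Summable (fun k : ℕ => c k * x ^ (2 * k + i) / ((2 * k + i).factorial : ℝ)) :=
  Summable.of_norm_bounded ((summable_aux i (R * |x|)).mul_left K)
    (fun k => term_le h i k le_rfl)

theorem Geo.hasSum {c : ℕ → ℝ} {K R : ℝ} (h : Geo c K R) (i : ℕ) (x : ℝ) :
    HasSum (fun k : ℕ => c k * x ^ (2 * k + i) / ((2 * k + i).factorial : ℝ)) (Sr i c x) :=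
  (h.summable i x).hasSum

theorem Geo.bound {c : ℕ → ℝ} {K R : ℝ} (h : Geo c K R) (i : ℕ) (x : ℝ) :
    |Sr i c x| ≤ K * Real.exp (R * |x|) := by
  have hR : 0 ≤ R := zero_le_one.trans h.1
  have h1 := tsum_of_norm_bounded
    (f := fun k : ℕ => c k * x ^ (2 * k + i) / ((2 * k + i).factorial : ℝ))
    ((summable_aux i (R * |x|)).mul_left K).hasSum (fun k => term_le h i k (le_refl |x|))
  rw [tsum_mul_left] at h1
  exact h1.trans (mul_le_mul_of_nonneg_left (tsum_aux_le i (by positivity)) h.nonneg)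

theorem Geo.hasDerivAt {c : ℕ → ℝ} {K R : ℝ} (h : Geo c K R) (i : ℕ) (x : ℝ) :
    HasDerivAt (Sr (i + 1) c) (Sr i c x) x := by
  refine hasDerivAt_tsum_of_isPreconnected (𝕜 := ℝ) (t := Ioo (-(|x| + 1)) (|x| + 1))
    (g := fun k z => c k * z ^ (2 * k + (i + 1)) / ((2 * k + (i + 1)).factorial : ℝ))
    (g' := fun k z => c k * z ^ (2 * k + i) / ((2 * k + i).factorial : ℝ)) (y₀ := x)
    ((summable_aux i (R * (|x| + 1))).mul_left K) isOpen_Ioo isPreconnected_Ioo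
    (fun k z _ => ?_) (fun k z hz => term_le h i k (abs_le.2 ⟨hz.1.le, hz.2.le⟩))
    ⟨by linarith [neg_abs_le x], by linarith [le_abs_self x]⟩ (h.summable _ _)
    ⟨by linarith [neg_abs_le x], by linarith [le_abs_self x]⟩
  refine (((hasDerivAt_pow (2 * k + i + 1) z).const_mul (c k)).div_const
    (((2 * k + i + 1).factorial : ℕ) : ℝ)).congr_deriv ?_
  rw [Nat.factorial_succ, Nat.add_sub_cancel]
  push_cast
  field_simp

theorem Geo.split {c : ℕ → ℝ} {K R : ℝ} (h : Geo c K R) (i : ℕ) (x : ℝ) :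
    Sr i c x = c 0 * x ^ i / (i.factorial : ℝ) + Sr (i + 2) (fun k => c (k + 1)) x := by
  unfold Sr
  rw [(h.summable i x).tsum_eq_zero_add]
  simp only [Nat.mul_zero, zero_add]
  congr 1
  refine tsum_congr (fun k => ?_)
  rw [show 2 * (k + 1) + i = 2 * k + (i + 2) by ring]

theorem Geo.split0 {c : ℕ → ℝ} {K R : ℝ} (h : Geo c K R) (x : ℝ) :
    Sr 0 c x = c 0 + Sr 2 (fun k => c (k + 1)) x := by
  simpa using h.split 0 x

theorem Geo.hasDerivAt0 {c : ℕ → ℝ} {K R : ℝ} (h : Geo c K R) (x : ℝ) :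
    HasDerivAt (Sr 0 c) (Sr 1 (fun k => c (k + 1)) x) x := by
  have e : Sr 0 c = fun x => c 0 + Sr 2 (fun k => c (k + 1)) x := funext h.split0
  rw [e]
  exact (h.succ.hasDerivAt 1 x).const_add _

theorem Geo.continuous {c : ℕ → ℝ} {K R : ℝ} (h : Geo c K R) (i : ℕ) : Continuous (Sr i c) := by
  rw [continuous_iff_continuousAt]
  intro x
  cases i with
  | zero => exact (h.hasDerivAt0 x).continuousAt
  | succ i => exact (h.hasDerivAt i x).continuousAt

theorem Sr_succ_zero (i : ℕ) (c : ℕ → ℝ) : Sr (i + 1) c 0 = 0 := by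
  simp [Sr]

theorem Geo.at_zero {c : ℕ → ℝ} {K R : ℝ} (h : Geo c K R) : Sr 0 c 0 = c 0 := by
  rw [h.split0, Sr_succ_zero, add_zero]

theorem Sr_one_zero (x : ℝ) : Sr 0 (fun _ => 1) x = Real.cosh x := by
  simp [Sr, Real.cosh_eq_tsum]

theorem Sr_one_one (x : ℝ) : Sr 1 (fun _ => 1) x = Real.sinh x := by
  simp [Sr, Real.sinh_eq_tsum]

theorem Sr_one_two (x : ℝ) : Sr 2 (fun _ => 1) x = Real.cosh x - 1 := by
  rw [← Sr_one_zero, geo_one.split0]
  ring

theorem Sr_mul (i : ℕ) (a : ℝ) (c : ℕ → ℝ) (x : ℝ) :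
    Sr i (fun k => a * c k) x = a * Sr i c x := by
  unfold Sr
  rw [← tsum_mul_left]
  refine tsum_congr (fun k => by ring)

theorem Sr_add {c c' : ℕ → ℝ} {K R K' R' : ℝ} (h : Geo c K R) (h' : Geo c' K' R') (i : ℕ) (x : ℝ) :
    Sr i (fun k => c k + c' k) x = Sr i c x + Sr i c' x := by
  unfold Sr
  rw [← (h.summable i x).tsum_add (h'.summable i x)]
  refine tsum_congr (fun k => by ring)

theorem Sr_mono {c c' : ℕ → ℝ} {K R K' R' : ℝ} (h : Geo c K R) (h' : Geo c' K' R') (i : ℕ)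
    {x : ℝ} (hx : 0 ≤ x) (hc : ∀ k, c k ≤ c' k) : Sr i c x ≤ Sr i c' x :=
  (h.summable i x).tsum_le_tsum (fun k => by
    apply div_le_div_of_nonneg_right _ (by positivity)
    exact mul_le_mul_of_nonneg_right (hc k) (by positivity)) (h'.summable i x)

theorem Sr_nonneg {c : ℕ → ℝ} (i : ℕ) {x : ℝ} (hx : 0 ≤ x) (hc : ∀ k, 0 ≤ c k) : 0 ≤ Sr i c x :=
  tsum_nonneg (fun k => by have := hc k; positivity)

theorem geo_const (a : ℝ) : Geo (fun _ => a) |a| 1 := ⟨le_rfl, fun k => by simp⟩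

theorem Sr_const (i : ℕ) (a x : ℝ) : Sr i (fun _ => a) x = a * Sr i (fun _ => 1) x := by
  rw [← Sr_mul]
  simp

theorem Sr_integral (θ : Measure ℝ) [IsProbabilityMeasure θ] (φ : ℕ → ℝ → ℝ) {K R : ℝ}
    (hm : ∀ k, Measurable (φ k)) (hφ : ∀ᵐ t ∂θ, Geo (fun k => φ k t) K R) (i : ℕ) (x : ℝ) :
    Integrable (fun t => Sr i (fun k => φ k t) x) θ ∧
      Sr i (fun k => ∫ t, φ k t ∂θ) x = ∫ t, Sr i (fun k => φ k t) x ∂θ := by
  constructor
  · refine Integrable.of_bound ?_ (K * Real.exp (R * |x|)) ?_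
    · refine aestronglyMeasurable_of_tendsto_ae atTop (f := fun n t => ∑ k ∈ Finset.range n,
        φ k t * x ^ (2 * k + i) / ((2 * k + i).factorial : ℝ)) (fun n => ?_) ?_
      · exact (Finset.measurable_sum _ (fun k _ =>
          ((hm k).mul_const _).div_const _)).aestronglyMeasurable
      · filter_upwards [hφ] with t ht
        exact (ht.hasSum i x).tendsto_sum_nat
    · filter_upwards [hφ] with t ht
      exact ht.bound i x
  · have h := hasSum_integral_of_dominated_convergence (μ := θ)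
      (F := fun k t => φ k t * x ^ (2 * k + i) / ((2 * k + i).factorial : ℝ))
      (f := fun t => Sr i (fun k => φ k t) x)
      (fun k _ => K * ((R * |x|) ^ (2 * k + i) / ((2 * k + i).factorial : ℝ)))
      (fun k => (((hm k).mul_const _).div_const _).aestronglyMeasurable)
      (fun k => by
        filter_upwards [hφ] with t ht
        exact term_le ht i k le_rfl)
      (Eventually.of_forall (fun _ => (summable_aux i (R * |x|)).mul_left K))
      (integrable_const _)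
      (by
        filter_upwards [hφ] with t ht
        exact ht.hasSum i x)
    rw [← h.tsum_eq]
    refine tsum_congr (fun k => ?_)
    rw [integral_div, integral_mul_const]

theorem geo_integral (θ : Measure ℝ) [IsProbabilityMeasure θ] (φ : ℕ → ℝ → ℝ) {K R : ℝ}
    (hφ : ∀ᵐ t ∂θ, Geo (fun k => φ k t) K R) : Geo (fun k => ∫ t, φ k t ∂θ) K R := by
  obtain ⟨t, ht⟩ := hφ.exists
  refine ⟨ht.1, fun k => ?_⟩
  have := norm_integral_le_of_norm_le_const (μ := θ) (f := φ k) (C := K * R ^ k) (by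
    filter_upwards [hφ] with t ht
    exact ht.2 k)
  simpa using this

theorem Sr_sq (u x : ℝ) : Sr 0 (fun k => (u ^ 2) ^ k) x = Real.cosh (u * x) := by
  rw [Real.cosh_eq_tsum]
  refine tsum_congr (fun k => ?_)
  simp only [add_zero, mul_pow, ← pow_mul]

theorem Sr_neg_sq (u x : ℝ) : Sr 0 (fun k => (-(u ^ 2)) ^ k) x = Real.cos (u * x) := by
  rw [Real.cos_eq_tsum]
  refine tsum_congr (fun k => ?_)
  simp only [add_zero]
  rw [mul_pow, neg_pow, ← pow_mul, mul_assoc]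

theorem Sr_neg_sq_one (u x : ℝ) : u * Sr 1 (fun k => (-(u ^ 2)) ^ k) x = Real.sin (u * x) := by
  rw [Real.sin_eq_tsum, Sr, ← tsum_mul_left]
  refine tsum_congr (fun k => ?_)
  rw [mul_pow, neg_pow, ← pow_mul]
  ring

theorem Sr_pow_split (t x : ℝ) :
    Sr 0 (fun k => t ^ k) x = 1 + t * Sr 2 (fun k => t ^ k) x := by
  rw [(geo_pow (le_max_left 1 |t|) (le_max_right 1 |t|)).split0, pow_zero, ← Sr_mul]
  simp only [pow_succ']

theorem half_sq_le (x : ℝ) : x ^ 2 / 2 ≤ Real.cosh x - 1 := by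
  have h := (summable_aux 2 |x|).sum_le_tsum {0} (fun k _ => by positivity)
  have h2 := Sr_one_two |x|
  simp only [Sr, one_mul] at h2
  rw [h2, Real.cosh_abs] at h
  simpa using h

theorem ker_neg {t : ℝ} (ht : t < 0) {x : ℝ} (hx : 0 ≤ x) :
    0 ≤ Sr 2 (fun k => t ^ k) x ∧ Sr 2 (fun k => t ^ k) x ≤ x ^ 2 / 2 ∧
      |Sr 1 (fun k => t ^ k) x| ≤ x := by
  obtain ⟨u, hu, rfl⟩ : ∃ u, 0 < u ∧ t = -(u ^ 2) :=
    ⟨√(-t), Real.sqrt_pos.2 (by linarith), by rw [Real.sq_sqrt (by linarith)]; ring⟩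
  have h1 := Sr_pow_split (-(u ^ 2)) x
  rw [Sr_neg_sq] at h1
  have h2 := Real.cos_le_one (u * x)
  have h3 := Real.one_sub_sq_div_two_le_cos (x := u * x)
  have h4 := Sr_neg_sq_one u x
  have h5 := Real.abs_sin_le_abs (x := u * x)
  have hu2 : 0 < u ^ 2 := by positivity
  refine ⟨?_, ?_, ?_⟩
  · by_contra h
    nlinarith [mul_pos hu2 (neg_pos.2 (not_le.1 h))]
  · by_contra h
    nlinarith [mul_pos hu2 (sub_pos.2 (not_le.1 h))]
  · rw [← h4, abs_mul, abs_mul, abs_of_pos hu, abs_of_nonneg hx] at h5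
    exact le_of_mul_le_mul_left h5 hu

theorem ker_two {t : ℝ} (ht : t ≤ 1) {x : ℝ} (hx : 0 ≤ x) :
    0 ≤ Sr 2 (fun k => t ^ k) x ∧ Sr 2 (fun k => t ^ k) x ≤ Real.cosh x - 1 ∧
      t * (x ^ 2 / 2) ≤ t * Sr 2 (fun k => t ^ k) x ∧
      |Sr 1 (fun k => t ^ k) x| ≤ Real.sinh x := by
  rcases lt_or_ge t 0 with h | h
  · obtain ⟨h1, h2, h3⟩ := ker_neg h hx
    exact ⟨h1, h2.trans (half_sq_le x), mul_le_mul_of_nonpos_left h2 h.le,
      h3.trans (Real.self_le_sinh_iff.2 hx)⟩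
  · have hg : Geo (fun k => t ^ k) 1 1 := geo_pow le_rfl (by rwa [abs_of_nonneg h])
    refine ⟨Sr_nonneg _ hx (fun k => by positivity), ?_, ?_, ?_⟩
    · rw [← Sr_one_two]
      exact Sr_mono hg geo_one _ hx (fun k => pow_le_one₀ h ht)
    · apply mul_le_mul_of_nonneg_left _ h
      rw [hg.split 2 x]
      have := Sr_nonneg (c := fun k => t ^ (k + 1)) (2 + 2) hx (fun k => by positivity)
      simp only [pow_zero, one_mul, Nat.factorial_two, Nat.cast_ofNat]
      linarith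
    · rw [abs_of_nonneg (Sr_nonneg _ hx (fun k => by positivity)), ← Sr_one_one]
      exact Sr_mono hg geo_one _ hx (fun k => pow_le_one₀ h ht)

end Pool.Agent.P.MP_ede858_pr
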