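import Mathlib
import Pool.Agent.P.MP_ede858_pr.Hyp
import Pool.Agent.P.MP_ede858_pr.Ser
import Pool.Agent.P.MP_ede858_pr.Lap

set_option autoImplicit false

open Set Filter Topology MeasureTheory ProbabilityTheory Real

namespace Pool.Agent.P.MP_ede858_pr

/-! The logarithmic derivative of the Laplace transform of the laws in question. -/

/-- The Gauss series as a function. -/
noncomputable def L0 (A B C w : ℝ) : ℝ := ∑' k : ℕ, hyp A B C k * w ^ k

/-- The series `(2 B + 2 w d/dw) F(A, B; C; w)` as a function. -/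
noncomputable def L1 (A B C w : ℝ) : ℝ := ∑' k : ℕ, 2 * (B + k) * hyp A B C k * w ^ k

/-- The canonical function `k(x) = exp (-b x) h(r x)`. -/
noncomputable def kf (A B C r b x : ℝ) : ℝ := exp (-(b * x)) * lev A B C (r * x)

/-- The Laplace transform of the canonical function. -/
noncomputable def Gt (A B C r b s : ℝ) : ℝ := ∫ x in Ioi 0, exp (-(s * x)) * kf A B C r b x

theorem lev_eq (A B C : ℝ) : lev A B C = Sr 0 (cf A B C) := rfl

theorem cf_geo (A B : ℝ) {C : ℝ} (hC : 0 < C) : ∃ R, Geo (cf A B C) |2 * B| R :=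
  cf_bound A hC

theorem summable_hyp {A B C w : ℝ} (hA : 0 < A) (hB : 0 < B) (hC : 0 < C) (hw : 0 ≤ w)
    (hw1 : w < 1) : Summable (fun k : ℕ => hyp A B C k * w ^ k) := by
  have h1 := tendsto_add_mul_div_add_mul_atTop_nhds A C 1 (one_ne_zero (α := ℝ))
  have h2 := tendsto_add_mul_div_add_mul_atTop_nhds B 1 1 (one_ne_zero (α := ℝ))
  have h3 := (h1.mul h2).mul_const w
  simp only [div_one, one_mul] at h3
  refine summable_of_ratio_norm_eventually_le (r := (1 + w) / 2) (by linarith) ?_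
  filter_upwards [h3.eventually_le_const (show w < (1 + w) / 2 by linarith)] with k hk
  have hp := hyp_pos hA hB hC
  have h4 := hyp_succ A B hC k
  have h5 : 0 < C + k := by positivity
  have e : hyp A B C (k + 1) = hyp A B C k * ((A + k) / (C + k) * ((B + k) / (1 + k))) := by
    field_simp
    linear_combination h4
  rw [Real.norm_of_nonneg (mul_nonneg (hp _).le (by positivity)),
    Real.norm_of_nonneg (mul_nonneg (hp _).le (by positivity)), e, pow_succ]
  have := mul_le_mul_of_nonneg_left hk (mul_nonneg (hp k).le (pow_nonneg hw k))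
  linarith

theorem summable_hyp1 {A B C w : ℝ} (hA : 0 < A) (hB : 0 < B) (hC : 0 < C) (hw : 0 ≤ w)
    (hw1 : w < 1) : Summable (fun k : ℕ => 2 * (B + k) * hyp A B C k * w ^ k) := by
  refine ((summable_hyp hA (show 0 < B + 1 by linarith) hC hw hw1).mul_left (2 * B)).congr
    (fun k => ?_)
  linear_combination 2 * w ^ k * hyp_up A B C k

theorem L0_pos {A B C w : ℝ} (hA : 0 < A) (hB : 0 < B) (hC : 0 < C) (hw : 0 ≤ w)
    (hw1 : w < 1) : 0 < L0 A B C w :=
  (summable_hyp hA hB hC hw hw1).tsum_pos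
    (fun k => mul_nonneg (hyp_pos hA hB hC k).le (by positivity)) 0 (by simp [hyp_zero])

theorem sq_div_lt {r σ : ℝ} (hr : 0 < r) (h : r < σ) : (r / σ) ^ 2 < 1 := by
  have hσ : 0 < σ := hr.trans h
  exact pow_lt_one₀ (by positivity) ((div_lt_one hσ).2 h) two_ne_zero

/-- The facts on the law `P` used below. -/
structure Setup (P : Measure ℝ) (A B C r b : ℝ) : Prop where
  hA : 0 < A
  hB : 0 < B
  hC : 0 < C
  hr : 0 < r
  hb : r < b
  prob : IsProbabilityMeasure P
  pos : ∀ᵐ x ∂P, 0 < x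
  int : ExpInt P (r - b)
  ser : ∀ s, r - b < s → (s + b) * (∫ x, x * exp (-(s * x)) ∂P) * L0 A B C ((r / (s + b)) ^ 2)
    = lap P s * L1 A B C ((r / (s + b)) ^ 2)

theorem setup_of_series {A B C r b : ℝ} (hA : 0 < A) (hB : 0 < B) (hC : 0 < C) (hr : 0 < r)
    (hb : r < b) (a : ℕ → ℝ) (ha : ∀ k, 0 ≤ a k) (ha0 : 0 < a 0) (f f0 : ℝ → ℝ)
    (hrec : ∀ k : ℕ, a (k + 1) * ((2 * B + 2 * k) * (2 * B + 2 * k + 1)) * ((C + k) * (k + 1))
      = a k * r ^ 2 * ((A + k) * (B + k)))
    (hf0 : ∀ x, 0 < x → HasSum (fun k : ℕ => a k * x ^ (2 * B + 2 * k - 1)) (f0 x))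
    (hf : ∀ x, 0 < x → f x = exp (-(b * x)) * f0 x) :
    Setup (nlaw f) A B C r b := by
  set K := a 0 * Gamma (2 * B) with hK
  have hG : ∀ k : ℕ, a k * Gamma (2 * B + 2 * k) = K * (hyp A B C k * (r ^ 2) ^ k) := by
    intro k
    induction k with
    | zero => simp [hK, hyp_zero]
    | succ k ih =>
      have h1 : 0 < 2 * B + 2 * k := by positivity
      have e : (2 * B + 2 * ((k + 1 : ℕ) : ℝ)) = (2 * B + 2 * k + 1) + 1 := by push_cast; ring
      rw [e, Gamma_add_one (by linarith), Gamma_add_one h1.ne']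
      have h2 : (C + k) * (k + 1) ≠ 0 := by positivity
      apply mul_right_cancel₀ h2
      linear_combination Gamma (2 * B + 2 * k) * hrec k + r ^ 2 * ((A + k) * (B + k)) * ih
        - K * (r ^ 2) ^ (k + 1) * hyp_succ A B hC k
  have hT0 : ∀ σ, 0 < σ → ∀ k : ℕ, a k * ((1 / σ) ^ (2 * B + 2 * k) * Gamma (2 * B + 2 * k))
      = K * (1 / σ) ^ (2 * B) * (hyp A B C k * ((r / σ) ^ 2) ^ k) := by
    intro σ hσ k
    have e : (2 * (k : ℝ)) = ((2 * k : ℕ) : ℝ) := by push_cast; ring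
    have e2 : ((r / σ) ^ 2) ^ k = (r ^ 2) ^ k * (1 / σ) ^ (2 * k) := by
      rw [pow_mul, ← mul_pow]
      congr 1
      ring
    rw [rpow_add (by positivity), e, rpow_natCast, ← e, e2]
    linear_combination (1 / σ) ^ (2 * B) * (1 / σ) ^ (2 * k) * hG k
  have hT1 : ∀ σ, 0 < σ → ∀ k : ℕ,
      a k * ((1 / σ) ^ (2 * B + 1 + 2 * k) * Gamma (2 * B + 1 + 2 * k))
      = K * (1 / σ) ^ (2 * B) * (1 / σ) * (2 * (B + k) * hyp A B C k * ((r / σ) ^ 2) ^ k) := by
    intro σ hσ k
    have h1 : 0 < 2 * B + 2 * k := by positivity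
    rw [show 2 * B + 1 + 2 * k = 2 * B + 2 * k + 1 by ring, Gamma_add_one h1.ne',
      rpow_add (by positivity), rpow_one]
    linear_combination (1 / σ) * (2 * B + 2 * k) * hT0 σ hσ k
  have h0 : ∀ σ, r < σ → IntegrableOn (fun x => exp (-(σ * x)) * f0 x) (Ioi 0) ∧
      ∫ x in Ioi 0, exp (-(σ * x)) * f0 x = K * (1 / σ) ^ (2 * B) * L0 A B C ((r / σ) ^ 2) := by
    intro σ hσ
    have hσ0 : 0 < σ := hr.trans hσ
    have hs := summable_hyp hA hB hC (sq_nonneg (r / σ)) (sq_div_lt hr hσ)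
    obtain ⟨h1, h2⟩ := lt_series a (by positivity : 0 < 2 * B) hσ0 f0 hf0 (by
      refine (hs.mul_left (K * (1 / σ) ^ (2 * B))).congr (fun k => ?_)
      rw [abs_of_nonneg (ha k), hT0 σ hσ0])
    refine ⟨h1, ?_⟩
    simp only [hT0 σ hσ0] at h2
    rw [← h2.tsum_eq, tsum_mul_left]
    rfl
  have h1 : ∀ σ, r < σ → ∫ x in Ioi 0, exp (-(σ * x)) * (x * f0 x)
      = K * (1 / σ) ^ (2 * B) * (1 / σ) * L1 A B C ((r / σ) ^ 2) := by
    intro σ hσ
    have hσ0 : 0 < σ := hr.trans hσ
    have hs := summable_hyp1 hA hB hC (sq_nonneg (r / σ)) (sq_div_lt hr hσ)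
    obtain ⟨-, h2⟩ := lt_series a (by positivity : 0 < 2 * B + 1) hσ0 (fun x => x * f0 x)
      (fun x hx => ((hf0 x hx).mul_left x).congr_fun (fun k => by
        rw [show 2 * B + 1 + 2 * k - 1 = (2 * B + 2 * k - 1) + 1 by ring, rpow_add hx, rpow_one]
        ring)) (by
      refine (hs.mul_left (K * (1 / σ) ^ (2 * B) * (1 / σ))).congr (fun k => ?_)
      rw [abs_of_nonneg (ha k), hT1 σ hσ0])
    simp only [hT1 σ hσ0] at h2
    rw [← h2.tsum_eq, tsum_mul_left]
    rfl
  have hfi : IntegrableOn f (Ioi 0) :=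
    (integrableOn_congr_fun (fun x hx => hf x hx) measurableSet_Ioi).2 (h0 b hb).1
  set Z := ∫ y in Ioi (0 : ℝ), f y with hZ
  have hZ0 : 0 < Z := by
    rw [hZ, setIntegral_congr_fun measurableSet_Ioi (fun x hx => hf x hx), (h0 b hb).2]
    have := L0_pos hA hB hC (sq_nonneg (r / b)) (sq_div_lt hr hb)
    have := Gamma_pos_of_pos (show 0 < 2 * B by positivity)
    have : 0 < b := hr.trans hb
    positivity
  have hm : AEMeasurable (fun x => f x / Z) (volume.restrict (Ioi 0)) :=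
    hfi.1.aemeasurable.div_const _
  have hf' : ∀ x, 0 < x → 0 ≤ f x / Z := fun x hx => by
    rw [hf x hx]
    exact div_nonneg (mul_nonneg (exp_pos _).le
      ((hf0 x hx).nonneg (fun k => mul_nonneg (ha k) (by positivity)))) hZ0.le
  have he : ∀ s x, 0 < x → exp (-(s * x)) * (f x / Z) = exp (-((s + b) * x)) * f0 x / Z := by
    intro s x hx
    rw [hf x hx, ← mul_div_assoc, ← mul_assoc, ← exp_add]
    congr 3
    ring
  have hP : IsProbabilityMeasure (law (fun x => f x / Z)) := by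
    constructor
    rw [law, withDensity_apply _ MeasurableSet.univ, Measure.restrict_univ,
      ← ofReal_integral_eq_lintegral_ofReal (hfi.div_const Z) (by
        filter_upwards [ae_restrict_mem measurableSet_Ioi] with x hx
        exact hf' x hx), integral_div, div_self hZ0.ne', ENNReal.ofReal_one]
  change Setup (law (fun x => f x / Z)) A B C r b
  refine ⟨hA, hB, hC, hr, hb, hP, law_pos _, fun s hs => ?_, fun s hs => ?_⟩
  · rw [law_integrable hm hf']
    exact (integrableOn_congr_fun (fun x hx => he s x hx) measurableSet_Ioi).2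
      ((h0 (s + b) (by linarith)).1.div_const Z)
  · have hσ : r < s + b := by linarith
    have hσ0 : 0 < s + b := hr.trans hσ
    have e0 : lap (law (fun x => f x / Z)) s
        = (∫ x in Ioi 0, exp (-((s + b) * x)) * f0 x) / Z := by
      rw [lap, law_integral hm hf', ← integral_div]
      exact setIntegral_congr_fun measurableSet_Ioi (fun x hx => he s x hx)
    have e1 : ∫ x, x * exp (-(s * x)) ∂(law (fun x => f x / Z))
        = (∫ x in Ioi 0, exp (-((s + b) * x)) * (x * f0 x)) / Z := by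
      rw [law_integral hm hf', ← integral_div]
      refine setIntegral_congr_fun measurableSet_Ioi (fun x hx => ?_)
      linear_combination x * he s x hx
    rw [e0, e1, (h0 _ hσ).2, h1 _ hσ]
    field_simp

theorem lt_Sr {c : ℕ → ℝ} {K R r σ : ℝ} (h : Geo c K R) (hr : 0 < r) (hσ : r * R < σ) :
    IntegrableOn (fun x => exp (-(σ * x)) * Sr 0 c (r * x)) (Ioi 0) ∧
      Summable (fun k => ‖c k * ((r / σ) ^ 2) ^ k‖) ∧
      σ * ∫ x in Ioi 0, exp (-(σ * x)) * Sr 0 c (r * x) = ∑' k, c k * ((r / σ) ^ 2) ^ k := by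
  have hR := h.1
  have hσ0 : 0 < σ := lt_trans (by positivity) hσ
  have hs : Summable (fun k => ‖c k * ((r / σ) ^ 2) ^ k‖) := by
    have h1 : R * (r / σ) ^ 2 < 1 := by
      have h2 := sq_div_lt (by positivity : 0 < r * R) hσ
      have h3 : (r * R / σ) ^ 2 = R * (R * (r / σ) ^ 2) := by ring
      have h4 : 0 ≤ R * (r / σ) ^ 2 := by positivity
      nlinarith
    refine Summable.of_nonneg_of_le (fun k => norm_nonneg _) (fun k => ?_)
      ((summable_geometric_of_lt_one (by positivity) h1).mul_left K)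
    rw [norm_mul, Real.norm_of_nonneg (r := _ ^ k) (by positivity), mul_pow, ← mul_assoc]
    exact mul_le_mul_of_nonneg_right (h.2 k) (by positivity)
  have hT : ∀ k : ℕ, (1 / σ) ^ ((1 : ℝ) + 2 * k) * Gamma (1 + 2 * k)
      = 1 / σ * (1 / σ) ^ (2 * k) * ((2 * k).factorial : ℝ) := by
    intro k
    have e : (2 * (k : ℝ)) = ((2 * k : ℕ) : ℝ) := by push_cast; ring
    rw [rpow_add (by positivity), rpow_one, e, rpow_natCast, add_comm (1 : ℝ), Gamma_nat_eq_factorial]
  have e2 : ∀ k : ℕ, ((r / σ) ^ 2) ^ k = r ^ (2 * k) * (1 / σ) ^ (2 * k) := by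
    intro k
    rw [← pow_mul, ← mul_pow]
    congr 1
    ring
  obtain ⟨h1, h2⟩ := lt_series (fun k => c k * r ^ (2 * k) / ((2 * k).factorial : ℝ)) one_pos hσ0
    (fun x => Sr 0 c (r * x)) (fun x hx => (h.hasSum 0 (r * x)).congr_fun (fun k => by
      have e : (1 + 2 * (k : ℝ) - 1) = ((2 * k : ℕ) : ℝ) := by push_cast; ring
      rw [e, rpow_natCast, add_zero, mul_pow]
      ring)) (by
      refine (hs.mul_left (1 / σ)).congr (fun k => ?_)
      rw [hT, e2, norm_mul, Real.norm_of_nonneg (r := _ * _) (by positivity), abs_div, abs_mul,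
        abs_of_nonneg (a := r ^ _) (by positivity), Nat.abs_cast, Real.norm_eq_abs]
      field_simp)
  refine ⟨h1, hs, ?_⟩
  rw [← h2.tsum_eq, ← tsum_mul_left]
  refine tsum_congr (fun k => ?_)
  rw [hT, e2]
  field_simp

theorem Gt_eq (A B C r b s : ℝ) :
    Gt A B C r b s = ∫ x in Ioi 0, exp (-((s + b) * x)) * Sr 0 (cf A B C) (r * x) := by
  refine setIntegral_congr_fun measurableSet_Ioi (fun x _ => ?_)
  simp only [kf, lev_eq]
  rw [← mul_assoc, ← exp_add]
  congr 2
  ring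

theorem Gt_integrable {A B C r b K R s : ℝ} (h : Geo (cf A B C) K R) (hr : 0 < r)
    (hs : r * R < s + b) : IntegrableOn (fun x => exp (-(s * x)) * kf A B C r b x) (Ioi 0) := by
  refine (integrableOn_congr_fun (fun x _ => ?_) measurableSet_Ioi).1 (lt_Sr h hr hs).1
  simp only [kf, lev_eq]
  rw [← mul_assoc, ← exp_add]
  congr 2
  ring

theorem Gt_series {A B C r b K R s : ℝ} (hA : 0 < A) (hB : 0 < B) (hC : 0 < C)
    (h : Geo (cf A B C) K R) (hr : 0 < r) (hs : r * R < s + b) :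
    (s + b) * Gt A B C r b s * L0 A B C ((r / (s + b)) ^ 2) = L1 A B C ((r / (s + b)) ^ 2) := by
  obtain ⟨-, h2, h3⟩ := lt_Sr h hr hs
  have hσ : r < s + b := by nlinarith [h.1]
  have h4 := summable_hyp hA hB hC (sq_nonneg (r / (s + b))) (sq_div_lt hr hσ)
  rw [Gt_eq, h3, L0, tsum_mul_tsum_eq_tsum_sum_antidiagonal_of_summable_norm h2 h4.norm, L1]
  refine tsum_congr (fun n => ?_)
  rw [← cf_conv, Finset.sum_mul]
  refine Finset.sum_congr rfl (fun p hp => ?_)
  rw [← Finset.HasAntidiagonal.mem_antidiagonal.1 hp, pow_add]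
  ring

theorem Setup.key_large {P : Measure ℝ} {A B C r b K R s : ℝ} (h : Setup P A B C r b)
    (hg : Geo (cf A B C) K R) (hs : r * R < s + b) :
    ∫ x, x * exp (-(s * x)) ∂P = Gt A B C r b s * lap P s := by
  have hr := h.hr
  have hσ : r < s + b := by nlinarith [hg.1]
  have h1 := h.ser s (by linarith)
  have h2 := Gt_series h.hA h.hB h.hC hg hr hs
  have h3 := L0_pos h.hA h.hB h.hC (sq_nonneg (r / (s + b))) (sq_div_lt hr hσ)
  have h4 : 0 < s + b := hr.trans hσ
  apply mul_left_cancel₀ (mul_pos h4 h3).ne'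
  linear_combination h1 - lap P s * h2

theorem kf_continuous (A B r b : ℝ) {C : ℝ} (hC : 0 < C) : Continuous (kf A B C r b) := by
  obtain ⟨R, hg⟩ := cf_geo A B hC
  have := hg.continuous 0
  unfold kf
  rw [lev_eq]
  fun_prop

end Pool.Agent.P.MP_ede858_pr
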