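import Mathlib
import Pool.Agent.P.MP_ede858_pr.Key

set_option autoImplicit false

open Set Filter Topology MeasureTheory ProbabilityTheory Real

namespace Pool.Agent.P.MP_ede858_pr

/-! Thorin measures, and the characterization of the generalized gamma convolutions. -/

/-- A measure on `(0, ∞)` for which the Thorin integrals converge. -/
def Thor (V : Measure ℝ) : Prop :=
  (∀ᵐ t ∂V, 0 < t) ∧ ∀ s, 0 ≤ s → Integrable (fun t => log (t / (s + t))) V

theorem abs_log_div {s t : ℝ} (hs : 0 ≤ s) (ht : 0 < t) :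
    |log (t / (s + t))| = log (s + t) - log t := by
  rw [log_div ht.ne' (by positivity), abs_of_nonpos (sub_nonpos.2 (log_le_log ht (by linarith)))]
  ring

theorem mlog (s : ℝ) : Measurable (fun t : ℝ => log (t / (s + t))) := by fun_prop

theorem Thor.inv {V : Measure ℝ} (h : Thor V) {s : ℝ} (hs : 0 < s) :
    Integrable (fun t => 1 / (s + t)) V := by
  refine ((h.2 s hs.le).norm.const_mul (1 / s)).mono'
    (Measurable.aestronglyMeasurable (by fun_prop)) ?_
  filter_upwards [h.1] with t ht
  have h1 := one_sub_inv_le_log_of_pos (show 0 < (s + t) / t by positivity)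
  rw [log_div (by positivity) ht.ne', inv_div] at h1
  rw [Real.norm_of_nonneg (by positivity), Real.norm_eq_abs, abs_log_div hs.le ht]
  have e : 1 / (s + t) = 1 / s * (1 - t / (s + t)) := by field_simp; ring
  rw [e]
  exact mul_le_mul_of_nonneg_left h1 (by positivity)

theorem Thor.sfinite {V : Measure ℝ} (h : Thor V) : SFinite V := by
  have : IsFiniteMeasure (V.withDensity (fun t => ENNReal.ofReal (1 / (1 + t)))) :=
    isFiniteMeasure_withDensity_ofReal (h.inv one_pos).2
  rw [← withDensity_inv_same (μ := V) (f := fun t => ENNReal.ofReal (1 / (1 + t))) (by fun_prop)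
    (by
      filter_upwards [h.1] with t ht
      simp only [ne_eq, ENNReal.ofReal_eq_zero, not_le]
      positivity) (by simp)]
  infer_instance

theorem Thor.expInt {V : Measure ℝ} (h : Thor V) : ExpInt V 0 := by
  intro x hx
  refine ((h.inv (show 0 < 1 / x by positivity)).const_mul (1 / x)).mono' (by fun_prop) ?_
  filter_upwards [h.1] with t ht
  rw [Real.norm_of_nonneg (exp_pos _).le, exp_neg]
  have e : 1 / x * (1 / (1 / x + t)) = (x * t + 1)⁻¹ := by field_simp; ring
  rw [e]
  exact inv_anti₀ (by positivity) (add_one_le_exp _)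

theorem Thor.deriv {V : Measure ℝ} (h : Thor V) {s : ℝ} (hs : 0 < s) :
    HasDerivAt (fun s => ∫ t, log (t / (s + t)) ∂V) (-∫ t, 1 / (s + t) ∂V) s := by
  rw [← integral_neg]
  refine (hasDerivAt_integral_of_dominated_loc_of_deriv_le (s := Ioi (s / 2))
    (F := fun s t => log (t / (s + t))) (F' := fun s t => -(1 / (s + t)))
    (bound := fun t => 1 / (s / 2 + t)) (Ioi_mem_nhds (by linarith))
    (Eventually.of_forall (fun u => (mlog u).aestronglyMeasurable)) (h.2 s hs.le)
    (Measurable.aestronglyMeasurable (by fun_prop)) ?_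
    (h.inv (by linarith)) ?_).2
  · filter_upwards [h.1] with t ht u hu
    have hu' : s / 2 < u := hu
    have h1 : 0 < u + t := by linarith
    rw [norm_neg, Real.norm_of_nonneg (by positivity)]
    exact one_div_le_one_div_of_le (by positivity) (by linarith)
  · filter_upwards [h.1] with t ht u hu
    have hu' : s / 2 < u := hu
    have h1 : 0 < u + t := by linarith
    have h2 := ((hasDerivAt_const u t).div ((hasDerivAt_id u).add_const t) h1.ne').log
      (div_pos ht h1).ne'
    refine h2.congr_deriv ?_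
    simp only [id, Pi.div_apply]
    field_simp
    ring

theorem Thor.cont {V : Measure ℝ} (h : Thor V) {s : ℝ} (hs : 0 ≤ s) :
    ContinuousOn (fun s => ∫ t, log (t / (s + t)) ∂V) (Icc 0 s) := by
  refine continuousOn_of_dominated (bound := fun t => ‖log (t / (s + t))‖)
    (fun u _ => (mlog u).aestronglyMeasurable) (fun u hu => ?_) (h.2 s hs).norm ?_
  · filter_upwards [h.1] with t ht
    rw [Real.norm_eq_abs, Real.norm_eq_abs, abs_log_div hs ht, abs_log_div hu.1 ht]
    have := log_le_log (show 0 < u + t by linarith [hu.1]) (show u + t ≤ s + t by linarith [hu.2])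
    linarith
  · filter_upwards [h.1] with t ht
    refine ContinuousOn.log (ContinuousOn.div (by fun_prop) (by fun_prop) (fun u hu => ?_))
      (fun u hu => ?_)
    · linarith [hu.1]
    · have : 0 < u + t := by linarith [hu.1]
      positivity

theorem Thor.fubini {V : Measure ℝ} (h : Thor V) {s : ℝ} (hs : 0 < s) :
    IntegrableOn (fun x => exp (-(s * x)) * lap V x) (Ioi 0) ∧
      ∫ x in Ioi 0, exp (-(s * x)) * lap V x = ∫ t, 1 / (s + t) ∂V := by
  have := h.sfinite
  have e : ∀ x t : ℝ, exp (-(s * x)) * exp (-(x * t)) = exp (-(s + t) * x) := by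
    intro x t
    rw [← exp_add]
    congr 1
    ring
  have hI : ∀ᵐ t ∂V, ∫ x in Ioi (0 : ℝ), exp (-(s + t) * x) = 1 / (s + t) := by
    filter_upwards [h.1] with t ht
    have h1 : 0 < s + t := by linarith
    rw [integral_exp_mul_Ioi (by linarith)]
    simp only [mul_zero, exp_zero]
    field_simp
  have hF : Integrable (Function.uncurry (fun x t : ℝ => exp (-(s + t) * x)))
      ((volume.restrict (Ioi (0 : ℝ))).prod V) := by
    rw [integrable_prod_iff' (by fun_prop)]
    constructor
    · filter_upwards [h.1] with t ht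
      exact integrableOn_exp_mul_Ioi (show -(s + t) < 0 by linarith) 0
    · refine (h.inv hs).congr ?_
      filter_upwards [hI] with t ht
      simp only [Function.uncurry_apply_pair, Real.norm_of_nonneg (exp_pos _).le]
      exact ht.symm
  have e2 : (fun x => exp (-(s * x)) * lap V x) = fun x => ∫ t, exp (-(s + t) * x) ∂V := by
    funext x
    rw [lap, ← integral_const_mul]
    simp only [e]
  rw [e2]
  exact ⟨hF.integral_prod_left, by rw [integral_integral_swap hF]; exact integral_congr_ae hI⟩

theorem Setup.ggc_of_thor {P V : Measure ℝ} {A B C r b : ℝ} (h : Setup P A B C r b) (hV : Thor V)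
    (hk : ∀ x, 0 < x → kf A B C r b x = lap V x)
    (key : ∀ s, 0 < s → ∫ x, x * exp (-(s * x)) ∂P = Gt A B C r b s * lap P s) : IsGGC P := by
  have := h.prob
  have hr : V.restrict (Ioi 0) = V := Measure.restrict_eq_self_of_ae_mem hV.1
  refine ⟨0, le_rfl, V, fun s hs => ?_⟩
  rw [IntegrableOn, hr]
  refine ⟨hV.2 s hs, ?_⟩
  have hb : r - b < 0 := by linarith [h.hb]
  have h1 := eq_of_deriv_zero (F := fun s => lap P s * exp (-∫ t, log (t / (s + t)) ∂V)) hs
    (ContinuousOn.mul (h.int.analytic.continuousOn.mono (fun u hu => lt_of_lt_of_le hb hu.1))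
      (hV.cont hs).neg.rexp) (fun u hu => by
      refine ((h.int.hasDerivAt (hb.trans hu)).mul (hV.deriv hu).neg.exp).congr_deriv ?_
      have h2 : Gt A B C r b u = ∫ t, 1 / (u + t) ∂V := by
        rw [← (hV.fubini hu).2]
        exact setIntegral_congr_fun measurableSet_Ioi (fun x hx => by simp only [hk x hx])
      rw [key u hu, h2]
      simp only [Pi.neg_apply]
      ring)
  have h3 : ∫ t, log (t / (0 + t)) ∂V = 0 := by
    refine integral_eq_zero_of_ae ?_
    filter_upwards [hV.1] with t ht
    rw [zero_add, div_self ht.ne', log_one, Pi.zero_apply]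
  simp only [h3, lap_zero, neg_zero, exp_zero, mul_one] at h1
  rw [zero_mul, neg_zero, zero_add]
  rw [exp_neg] at h1
  exact (mul_inv_eq_one₀ (exp_pos _).ne').1 h1

theorem Setup.ggc_of_le {P : Measure ℝ} {A B C r b : ℝ} (h : Setup P A B C r b) (hAC : A ≤ C)
    (hBC : B ≤ C) : IsGGC P := by
  obtain ⟨θ, hθ, hI, hc⟩ := cf_meas h.hA.le h.hB.le h.hC hAC hBC
  have hr := h.hr
  have hb := h.hb
  have hB := h.hB
  have hg1 : ∀ᵐ t ∂θ, Geo (fun k => t ^ k) 1 1 := by
    filter_upwards [hI] with t ht
    exact geo_pow le_rfl (by rw [abs_of_nonneg ht.1]; exact ht.2)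
  have hg : Geo (cf A B C) (2 * B) 1 := ⟨le_rfl, fun k => by
    rw [hc, abs_mul, abs_of_pos (by positivity)]
    have := (geo_integral θ (fun k t => t ^ k) hg1).2 k
    rw [one_mul] at this
    exact mul_le_mul_of_nonneg_left this (by positivity)⟩
  have m1 : Measurable (fun t : ℝ => b - r * √t) := by fun_prop
  have m2 : Measurable (fun t : ℝ => b + r * √t) := by fun_prop
  have := Measure.isProbabilityMeasure_map (μ := θ) m1.aemeasurable
  have := Measure.isProbabilityMeasure_map (μ := θ) m2.aemeasurable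
  set V : Measure ℝ := ENNReal.ofReal B • (θ.map (fun t => b - r * √t) + θ.map (fun t => b + r * √t))
    with hV
  have : IsFiniteMeasure V := Measure.smul_finite _ ENNReal.ofReal_ne_top
  have hsq : ∀ᵐ t ∂θ, 0 ≤ r * √t ∧ r * √t ≤ r := by
    filter_upwards [hI] with t ht
    exact ⟨by positivity, mul_le_of_le_one_right hr.le (Real.sqrt_le_one.2 ht.2)⟩
  have a1 : ∀ᵐ t ∂(θ.map (fun t => b - r * √t)), t ∈ Icc (b - r) (b + r) := by
    refine (ae_map_iff (p := fun t => t ∈ Icc (b - r) (b + r)) m1.aemeasurable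
      measurableSet_Icc).2 ?_
    filter_upwards [hsq] with t ht
    constructor <;> linarith [ht.1, ht.2]
  have a2 : ∀ᵐ t ∂(θ.map (fun t => b + r * √t)), t ∈ Icc (b - r) (b + r) := by
    refine (ae_map_iff (p := fun t => t ∈ Icc (b - r) (b + r)) m2.aemeasurable
      measurableSet_Icc).2 ?_
    filter_upwards [hsq] with t ht
    constructor <;> linarith [ht.1, ht.2]
  have aV : ∀ᵐ t ∂V, t ∈ Icc (b - r) (b + r) :=
    Measure.ae_smul_measure ((ae_add_measure_iff).2 ⟨a1, a2⟩) _
  have hT : Thor V := by
    refine ⟨aV.mono (fun t ht => by linarith [ht.1]), fun s hs => ?_⟩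
    refine Integrable.of_bound (mlog s).aestronglyMeasurable (log (s + (b + r)) - log (b - r)) ?_
    filter_upwards [aV] with t ht
    have ht0 : 0 < t := by linarith [ht.1]
    rw [Real.norm_eq_abs, abs_log_div hs ht0]
    have := log_le_log (show 0 < s + t by linarith) (show s + t ≤ s + (b + r) by linarith [ht.2])
    have := log_le_log (show 0 < b - r by linarith) ht.1
    linarith
  refine h.ggc_of_thor hT (fun x hx => ?_) (fun s hs => h.key_large hg (by linarith))
  have hb1 : ∀ {μ : Measure ℝ} [IsFiniteMeasure μ], (∀ᵐ t ∂μ, t ∈ Icc (b - r) (b + r)) →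
      Integrable (fun t => exp (-(x * t))) μ := by
    intro μ _ hμ
    refine Integrable.of_bound (by fun_prop) 1 ?_
    filter_upwards [hμ] with t ht
    rw [Real.norm_of_nonneg (exp_pos _).le, exp_le_one_iff, neg_nonpos]
    exact mul_nonneg hx.le (by linarith [ht.1])
  have i1 : Integrable (fun t => exp (-(x * (b - r * √t)))) θ :=
    (integrable_map_measure (by fun_prop) m1.aemeasurable).1 (hb1 a1)
  have i2 : Integrable (fun t => exp (-(x * (b + r * √t)))) θ :=
    (integrable_map_measure (by fun_prop) m2.aemeasurable).1 (hb1 a2)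
  rw [lap, hV, integral_smul_measure, integral_add_measure (hb1 a1) (hb1 a2),
    integral_map m1.aemeasurable (by fun_prop), integral_map m2.aemeasurable (by fun_prop),
    ENNReal.toReal_ofReal hB.le, ← integral_add i1 i2, kf, lev_eq, funext hc, Sr_mul,
    (Sr_integral θ (fun k t => t ^ k) (fun k => by fun_prop) hg1 0 (r * x)).2, smul_eq_mul,
    ← integral_const_mul, ← integral_const_mul, ← integral_const_mul]
  refine integral_congr_ae ?_
  filter_upwards [hI] with t ht
  have e := Sr_sq (√t) (r * x)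
  rw [Real.sq_sqrt ht.1] at e
  rw [e, cosh_eq, show -(x * (b - r * √t)) = -(b * x) + √t * (r * x) by ring,
    show -(x * (b + r * √t)) = -(b * x) + -(√t * (r * x)) by ring, exp_add, exp_add]
  ring

theorem Setup.thor_of_ggc {P : Measure ℝ} {A B C r b : ℝ} (h : Setup P A B C r b)
    (hG : IsGGC P) : ∃ V, Thor V ∧ ∀ x, 0 < x → kf A B C r b x = lap V x := by
  have := h.prob
  obtain ⟨a, -, U, hU⟩ := hG
  have hV : Thor (U.restrict (Ioi 0)) :=
    ⟨ae_restrict_mem measurableSet_Ioi, fun s hs => (hU s hs).1⟩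
  set V := U.restrict (Ioi 0)
  refine ⟨V, hV, fun x hx => ?_⟩
  obtain ⟨R, hg⟩ := cf_geo A B h.hC
  have hr := h.hr
  have hb := h.hb
  have hR := hg.1
  have hs1 : 0 < r * R := by positivity
  have h1 : ∀ s, r * R ≤ s → Gt A B C r b s = a + ∫ t, 1 / (s + t) ∂V := by
    intro s hs
    have hs0 : 0 < s := hs1.trans_le hs
    have d1 := h.int.hasDerivAt (show r - b < s by linarith)
    have d2 := (((hasDerivAt_id s).const_mul a).neg.add (hV.deriv hs0)).exp
    have ev : lap P =ᶠ[𝓝 s] fun s => exp (-(a * s) + ∫ t, log (t / (s + t)) ∂V) := by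
      filter_upwards [lt_mem_nhds hs0] with u hu
      exact (hU u hu.le).2
    have d3 := d1.unique (d2.congr_of_eventuallyEq ev)
    have hp := h.int.pos (show r - b < s by linarith)
    rw [h.key_large hg (by linarith)] at d3
    simp only [Pi.add_apply, Pi.neg_apply, id, mul_one] at d3
    rw [← ev.eq_of_nhds] at d3
    apply mul_right_cancel₀ hp.ne'
    linear_combination -d3
  have hi : ∀ s, r * R ≤ s → IntegrableOn (fun x => exp (-(s * x)) * kf A B C r b x) (Ioi 0) :=
    fun s hs => Gt_integrable hg hr (by linarith)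
  have h2 := zero_of_lt (f := fun x => exp (-(r * R * x)) * kf A B C r b x
      - exp (-(r * R * x)) * lap V x) (a := a)
    (ContinuousOn.sub (Continuous.continuousOn (by
      have := kf_continuous A B r b h.hC
      fun_prop)) (ContinuousOn.mul (by fun_prop) hV.expInt.analytic.continuousOn))
    ((hi _ le_rfl).sub (hV.fubini hs1).1) (fun n => by
      have hn : r * R ≤ n + r * R := by simp
      have e : ∀ x : ℝ, exp (-((n : ℝ) * x)) * (exp (-(r * R * x)) * kf A B C r b x
          - exp (-(r * R * x)) * lap V x) = exp (-((n + r * R) * x)) * kf A B C r b x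
          - exp (-((n + r * R) * x)) * lap V x := by
        intro x
        rw [show -((n + r * R) * x) = -(n * x) + -(r * R * x) by ring, exp_add]
        ring
      simp only [e]
      rw [integral_sub (hi _ hn) (hV.fubini (hs1.trans_le hn)).1, (hV.fubini (hs1.trans_le hn)).2]
      have := h1 _ hn
      rw [Gt] at this
      linarith) hx
  apply mul_left_cancel₀ (exp_pos (-(r * R * x))).ne'
  linarith

theorem even_moments {V : Measure ℝ} {X : ℝ → ℝ} {c : ℕ → ℝ} {K R : ℝ} (hg : Geo c K R)
    (hX : ∀ y, 0 < y → y ∈ interior (integrableExpSet X V))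
    (h : ∀ y, 0 < y → Sr 0 c y = ∫ t, exp (y * X t) ∂V) (j : ℕ) :
    ∀ y, 0 < y → Sr 0 (fun k => c (k + j)) y = ∫ t, X t ^ (2 * j) * exp (y * X t) ∂V := by
  have hgj : ∀ j, Geo (fun k => c (k + j)) (K * R ^ j) R := fun j =>
    ⟨hg.1, fun k => by rw [mul_assoc, ← pow_add, add_comm j]; exact hg.2 _⟩
  induction j with
  | zero => simpa using h
  | succ j ih =>
    have h1 : ∀ y, 0 < y → Sr 1 (fun k => c (k + (j + 1))) y
        = ∫ t, X t ^ (2 * j + 1) * exp (y * X t) ∂V := by
      intro y hy
      have d1 := (hgj j).hasDerivAt0 y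
      have d2 := hasDerivAt_integral_pow_mul_exp_real (hX y hy) (2 * j)
      have d3 := d1.unique (d2.congr_of_eventuallyEq (by
        filter_upwards [lt_mem_nhds hy] with u hu
        exact ih u hu))
      simpa only [add_assoc, add_comm 1 j] using d3
    intro y hy
    have d1 := (hgj (j + 1)).hasDerivAt 0 y
    have d2 := hasDerivAt_integral_pow_mul_exp_real (hX y hy) (2 * j + 1)
    exact d1.unique (d2.congr_of_eventuallyEq (by
      filter_upwards [lt_mem_nhds hy] with u hu
      exact h1 u hu))

theorem hankel_of_mgf {V : Measure ℝ} {X : ℝ → ℝ} {c : ℕ → ℝ} {K R : ℝ} (hg : Geo c K R)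
    (hX : ∀ y, 0 < y → y ∈ interior (integrableExpSet X V))
    (h : ∀ y, 0 < y → Sr 0 c y = ∫ t, exp (y * X t) ∂V) (j : ℕ) (l : ℝ) :
    0 ≤ c (j + 2) - 2 * l * c (j + 1) + l ^ 2 * c j := by
  have hgj : ∀ j, Geo (fun k => c (k + j)) (K * R ^ j) R := fun j =>
    ⟨hg.1, fun k => by rw [mul_assoc, ← pow_add, add_comm j]; exact hg.2 _⟩
  have hc : Continuous (fun y => Sr 0 (fun k => c (k + (j + 2))) y
      - 2 * l * Sr 0 (fun k => c (k + (j + 1))) y + l ^ 2 * Sr 0 (fun k => c (k + j)) y) := by
    have h1 := (hgj (j + 2)).continuous 0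
    have h2 := (hgj (j + 1)).continuous 0
    have h3 := (hgj j).continuous 0
    fun_prop
  have ht := (hc.tendsto 0).mono_left (nhdsWithin_le_nhds (s := Ioi (0 : ℝ)))
  simp only [(hgj _).at_zero, zero_add] at ht
  refine ge_of_tendsto ht ?_
  filter_upwards [self_mem_nhdsWithin] with y hy
  have i := fun n => integrable_pow_mul_exp_of_mem_interior_integrableExpSet (hX y hy) n
  rw [even_moments hg hX h _ y hy, even_moments hg hX h _ y hy, even_moments hg hX h _ y hy,
    ← integral_const_mul, ← integral_const_mul, ← integral_sub (i _) ((i _).const_mul _),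
    ← integral_add (by exact (i _).sub ((i _).const_mul _)) ((i _).const_mul _)]
  refine integral_nonneg (fun t => ?_)
  have : 0 ≤ (X t ^ j * (X t ^ 2 - l)) ^ 2 * exp (y * X t) := by positivity
  simp only [Pi.zero_apply]
  exact this.trans_eq (by ring)

theorem Setup.hankel {P : Measure ℝ} {A B C r b : ℝ} (h : Setup P A B C r b) (hG : IsGGC P)
    (j : ℕ) (l : ℝ) : 0 ≤ cf A B C (j + 2) - 2 * l * cf A B C (j + 1) + l ^ 2 * cf A B C j := by
  obtain ⟨V, hV, hk⟩ := h.thor_of_ggc hG
  obtain ⟨R, hg⟩ := cf_geo A B h.hC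
  have hr := h.hr
  have e : ∀ y t : ℝ, exp (y * ((b - t) / r)) = exp (b * (y / r)) * exp (-(y / r * t)) := by
    intro y t
    rw [← exp_add]
    congr 1
    field_simp
    ring
  refine hankel_of_mgf (V := V) (X := fun t => (b - t) / r) hg (fun y hy => ?_) (fun y hy => ?_) j l
  · refine interior_maximal (t := Ioi 0) (fun u hu => ?_) isOpen_Ioi hy
    have hu' : 0 < u := hu
    simp only [integrableExpSet, mem_ofPred_eq, e]
    exact (hV.expInt (u / r) (by positivity)).const_mul _
  · have h1 := hk (y / r) (by positivity)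
    rw [kf, lev_eq, mul_div_cancel₀ _ hr.ne', lap] at h1
    simp only [e]
    rw [integral_const_mul, ← h1, ← mul_assoc, ← exp_add]
    simp

theorem Setup.le_of_ggc {P : Measure ℝ} {A B C r b : ℝ} (h : Setup P A B C r b) (hG : IsGGC P) :
    A ≤ C ∧ (A < C → B ≤ C) :=
  ⟨hankel_A h.hA h.hB h.hC (h.hankel hG 0), fun hAC =>
    hankel_B h.hA h.hB h.hC hAC (h.hankel hG 1)⟩

end Pool.Agent.P.MP_ede858_pr
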