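import Mathlib
import Pool.Agent.P.MP_ede858_pr.Main
import Pool.Agent.P.MP_ede858_pr.Thor

set_option autoImplicit false

open Set Filter Topology MeasureTheory Real

namespace Pool.Agent.P.MP_ede858_pr

/-! The two Bessel families fit the setting. -/

/-- The Euler operator on power series. -/
noncomputable def th (F : PowerSeries ℝ) : PowerSeries ℝ :=
  PowerSeries.X * PowerSeries.derivative ℝ F

theorem coeff_th (F : PowerSeries ℝ) (k : ℕ) :
    PowerSeries.coeff k (th F) = k * PowerSeries.coeff k F := by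
  cases k with
  | zero => simp [th]
  | succ k =>
    rw [th, PowerSeries.coeff_succ_X_mul, PowerSeries.coeff_derivative]
    push_cast
    ring

theorem th_mul (F G : PowerSeries ℝ) : th (F * G) = th F * G + F * th G := by
  simp only [th, Derivation.leibniz, smul_eq_mul]
  ring

theorem th_add (F G : PowerSeries ℝ) : th (F + G) = th F + th G := by
  simp only [th, map_add]
  ring

theorem th_sub (F G : PowerSeries ℝ) : th (F - G) = th F - th G := by
  simp only [th, map_sub]
  ring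

theorem th_X : th PowerSeries.X = PowerSeries.X := by simp [th]

theorem th_C (a : ℝ) : th (PowerSeries.C a) = 0 := by simp [th]

theorem th_one : th 1 = 0 := by simp [th]

theorem co_rec {μ : ℝ} (hμ : -1 < μ) (k : ℕ) :
    co μ (k + 1) * (((k : ℝ) + 1) * ((k : ℝ) + μ + 1)) = co μ k := by
  rw [co_shift hμ k, ← co_succ hμ k]
  ring

/-- The coefficients of the square of the Bessel series. -/
noncomputable def dco (μ : ℝ) (n : ℕ) : ℝ :=
  ∑ p ∈ Finset.HasAntidiagonal.antidiagonal n, co μ p.1 * co μ p.2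

theorem dco_nonneg {μ : ℝ} (hμ : -1 < μ) (n : ℕ) : 0 ≤ dco μ n :=
  Finset.sum_nonneg (fun _ _ => mul_nonneg (co_pos hμ _).le (co_pos hμ _).le)

theorem dco_rec {μ : ℝ} (hμ : -1 < μ) (k : ℕ) :
    dco μ (k + 1) * (((k : ℝ) + 1) * ((k : ℝ) + μ + 1) * ((k : ℝ) + 2 * μ + 1))
      = 2 * (2 * k + 2 * μ + 1) * dco μ k := by
  set u : PowerSeries ℝ := PowerSeries.mk (co μ) with hu
  have hd : ∀ n, PowerSeries.coeff n (u * u) = dco μ n := by
    intro n
    rw [PowerSeries.coeff_mul, dco]
    simp only [hu, PowerSeries.coeff_mk]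
  have h1 : th (th u) = PowerSeries.X * u - PowerSeries.C μ * th u := by
    ext n
    rw [map_sub, PowerSeries.coeff_C_mul, coeff_th, coeff_th]
    cases n with
    | zero => simp
    | succ n =>
      rw [PowerSeries.coeff_succ_X_mul, hu, PowerSeries.coeff_mk, PowerSeries.coeff_mk,
        ← co_rec hμ n]
      push_cast
      ring
  have h2 : th (th (th (u * u))) + PowerSeries.C (3 * μ) * th (th (u * u))
      + PowerSeries.C (2 * μ ^ 2) * th (u * u)
      = PowerSeries.X * (PowerSeries.C 4 * th (u * u) + PowerSeries.C (4 * μ) * (u * u)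
        + PowerSeries.C 2 * (u * u)) := by
    have c2 : (PowerSeries.C 2 : PowerSeries ℝ) = 2 := rfl
    have c3 : (PowerSeries.C 3 : PowerSeries ℝ) = 3 := rfl
    have c4 : (PowerSeries.C 4 : PowerSeries ℝ) = 4 := rfl
    simp only [th_mul, th_add, th_sub, h1, th_X, th_C, map_mul, map_pow, c2, c3, c4]
    ring
  have h3 := congrArg (PowerSeries.coeff (k + 1)) h2
  simp only [map_add, PowerSeries.coeff_C_mul, PowerSeries.coeff_succ_X_mul, coeff_th, hd] at h3
  push_cast at h3
  linear_combination h3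

theorem hasSum_sq {μ : ℝ} (hμ : -1 < μ) (y : ℝ) :
    HasSum (fun n => dco μ n * y ^ n) (SS μ y ^ 2) := by
  have h1 := (summable_SS hμ y).norm
  have h2 := (summable_norm_sum_mul_antidiagonal_of_summable_norm h1 h1).of_norm
  have h3 := tsum_mul_tsum_eq_tsum_sum_antidiagonal_of_summable_norm h1 h1
  rw [sq, SS, h3]
  refine h2.hasSum.congr_fun (fun n => ?_)
  rw [dco, Finset.sum_mul]
  refine Finset.sum_congr rfl (fun p hp => ?_)
  rw [← Finset.HasAntidiagonal.mem_antidiagonal.1 hp, pow_add]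
  ring

theorem setup_phi {μ ν a b : ℝ} (hμ : -1 < μ) (hρ : 0 < μ + ν) (ha : 0 < a) (hb : a < b) :
    Setup (nlaw (fun x => x ^ (ν - 1) * exp (-b * x) * besselI μ (a * x)))
      ((μ + ν + 1) / 2) ((μ + ν) / 2) (μ + 1) a b := by
  refine setup_of_series (by linarith) (by linarith) (by linarith) ha hb
    (fun k => (a / 2) ^ μ * (co μ k * (a ^ 2 / 4) ^ k))
    (fun k => by have := co_pos hμ k; positivity) (by have := co_pos hμ 0; positivity) _
    (fun x => x ^ (ν - 1) * besselI μ (a * x)) (fun k => ?_) (fun x hx => ?_)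
    (fun x _ => by rw [neg_mul]; ring)
  · rw [← co_rec hμ k]
    ring
  · rw [besselI_eq μ (mul_pos ha hx)]
    refine (((summable_SS hμ ((a * x) ^ 2 / 4)).hasSum.mul_left ((a * x / 2) ^ μ)).mul_left
      (x ^ (ν - 1))).congr_fun (fun k => ?_)
    have e : (2 * ((μ + ν) / 2) + 2 * (k : ℝ) - 1) = (ν - 1) + μ + ((2 * k : ℕ) : ℝ) := by
      push_cast
      ring
    rw [e, rpow_add hx, rpow_add hx, rpow_natCast, show a * x / 2 = a / 2 * x by ring,
      mul_rpow (by positivity) hx.le, show (a * x) ^ 2 / 4 = a ^ 2 / 4 * x ^ 2 by ring, mul_pow,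
      ← pow_mul]
    ring

theorem setup_xi {μ a b : ℝ} (hμ : -1 / 4 < μ) (ha : 0 < a) (hb : 2 * a < b) :
    Setup (nlaw (fun x => x ^ (2 * μ) * exp (-b * x) * besselI μ (a * x) ^ 2))
      (μ + 1 / 2) (2 * μ + 1 / 2) (μ + 1) (2 * a) b := by
  have hμ' : -1 < μ := by linarith
  refine setup_of_series (by linarith) (by linarith) (by linarith) (by linarith) hb
    (fun k => ((a / 2) ^ μ) ^ 2 * (dco μ k * (a ^ 2 / 4) ^ k))
    (fun k => by have := dco_nonneg hμ' k; positivity) (by
      have := co_pos hμ' 0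
      have h2 : 0 < dco μ 0 := by
        simp only [dco, Finset.Nat.antidiagonal_zero, Finset.sum_singleton]
        positivity
      positivity) _
    (fun x => x ^ (2 * μ) * besselI μ (a * x) ^ 2) (fun k => ?_) (fun x hx => ?_)
    (fun x _ => by rw [neg_mul]; ring)
  · linear_combination ((a / 2) ^ μ) ^ 2 * (a ^ 2 / 4) ^ k * a ^ 2 * (2 * μ + 1 / 2 + k)
      * dco_rec hμ' k
  · rw [besselI_eq μ (mul_pos ha hx), mul_pow]
    refine (((hasSum_sq hμ' ((a * x) ^ 2 / 4)).mul_left (((a * x / 2) ^ μ) ^ 2)).mul_left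
      (x ^ (2 * μ))).congr_fun (fun k => ?_)
    have e : (2 * (2 * μ + 1 / 2) + 2 * (k : ℝ) - 1) = 2 * μ + μ + μ + ((2 * k : ℕ) : ℝ) := by
      push_cast
      ring
    rw [e, rpow_add hx, rpow_add hx, rpow_add hx, rpow_natCast, show a * x / 2 = a / 2 * x by ring,
      mul_rpow (by positivity) hx.le, show (a * x) ^ 2 / 4 = a ^ 2 / 4 * x ^ 2 by ring, mul_pow,
      mul_pow, ← pow_mul x]
    ring

theorem ggc_phi {μ ν a b : ℝ} (hμ : -1 < μ) (hρ : 0 < μ + ν) (ha : 0 < a) (hb : a < b) :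
    IsGGC (nlaw (fun x => x ^ (ν - 1) * exp (-b * x) * besselI μ (a * x))) ↔ ν ≤ μ + 1 := by
  have h := setup_phi hμ hρ ha hb
  exact ⟨fun hG => by linarith [(h.le_of_ggc hG).1],
    fun hν => h.ggc_of_le (by linarith) (by linarith)⟩

theorem ggc_xi {μ a b : ℝ} (hμ : -1 / 4 < μ) (ha : 0 < a) (hb : 2 * a < b) :
    IsGGC (nlaw (fun x => x ^ (2 * μ) * exp (-b * x) * besselI μ (a * x) ^ 2)) ↔ μ ≤ 1 / 2 := by
  have h := setup_xi hμ ha hb
  exact ⟨fun hG => by linarith [(h.le_of_ggc hG).2 (by linarith)],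
    fun hν => h.ggc_of_le (by linarith) (by linarith)⟩

end Pool.Agent.P.MP_ede858_pr
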