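import Mathlib
import Pool.Agent.P.MP_ede858_pr.Dens

set_option autoImplicit false

open Set Filter Topology MeasureTheory PowerSeries

namespace Pool.Agent.P.MP_ede858_pr

/-! Euler's transformation and a quadratic transformation, at the level of logarithmic
derivatives. -/

theorem FF_ode (a b : ℝ) {c : ℝ} (hc : 0 < c) :
    th (th (FF a b c)) + (C c - 1) * th (FF a b c)
      = X * (th (th (FF a b c)) + (C a + C b) * th (FF a b c) + C a * C b * FF a b c) := by
  have e1 : (C c - 1 : ℝ⟦X⟧) = C (c - 1) := by simp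
  rw [e1, ← map_mul, add_mul (C a)]
  ext k
  cases k with
  | zero => simp [th]
  | succ k =>
    simp only [map_add, coeff_succ_X_mul, coeff_C_mul, coeff_th, coeff_FF]
    push_cast
    linear_combination hyp_succ a b hc k

theorem th_FF (a b c : ℝ) : th (FF a b c) = C a * (FF (a + 1) b c - FF a b c) := by
  ext k
  rw [coeff_C_mul, map_sub, coeff_th, coeff_FF, coeff_FF, hyp_symm (a + 1), hyp_symm a]
  linear_combination -hyp_up b a c k

/-- The logarithmic derivative series. -/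
noncomputable def yy (a b c : ℝ) : ℝ⟦X⟧ := th (FF a b c) * (FF a b c)⁻¹

theorem yy_eq (a b c : ℝ) : yy a b c = C a * (WW a b c 0 - 1) := by
  rw [yy, th_FF, WW_zero]
  linear_combination -C a * FF_mul_inv a b c

theorem yy_symm (a b c : ℝ) : yy a b c = yy b a c := by rw [yy, yy, FF_symm]

theorem coeff_yy_succ (a b c : ℝ) (k : ℕ) :
    coeff (k + 1) (yy a b c) = a * coeff (k + 1) (WW a b c 0) := by
  rw [yy_eq, coeff_C_mul, map_sub, coeff_one]
  simp

theorem coeff_yy_zero (a b c : ℝ) : coeff 0 (yy a b c) = 0 := by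
  simp [yy, th]

theorem euler_Z (A B : ℝ) {c : ℝ} (hc : 0 < c) :
    (1 - X) * (th (FF A B c) * FF (c - A) (c - B) c - FF A B c * th (FF (c - A) (c - B) c))
      = C (A + B - c) * X * (FF A B c * FF (c - A) (c - B) c) := by
  have h1 := FF_ode A B hc
  have h2 := FF_ode (c - A) (c - B) hc
  set F := FF A B c
  set G := FF (c - A) (c - B) c
  set Z := (1 - X) * (th F * G - F * th G) - C (A + B - c) * X * (F * G) with hZ
  have h3 : th Z + C (c - 1) * Z = 0 := by
    simp only [hZ, th_mul, th_sub, th_X, th_C, th_one]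
    simp only [map_sub, map_add, map_one] at h1 h2 ⊢
    linear_combination G * h1 - F * h2
  have h4 : Z = 0 := by
    ext k
    cases k with
    | zero => simp [hZ, th]
    | succ k =>
      have h5 := congrArg (coeff (k + 1)) h3
      rw [map_add, coeff_th, coeff_C_mul, map_zero] at h5
      have h6 : (0 : ℝ) < ((k + 1 : ℕ) : ℝ) + (c - 1) := by
        push_cast
        have : (0 : ℝ) ≤ k := Nat.cast_nonneg k
        linarith
      rw [map_zero]
      apply mul_left_cancel₀ h6.ne'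
      linear_combination h5
  linear_combination h4

theorem euler_yy (A B : ℝ) {c : ℝ} (hc : 0 < c) (k : ℕ) :
    coeff (k + 1) (yy A B c) = (A + B - c) + coeff (k + 1) (yy (c - A) (c - B) c) := by
  have h1 : yy A B c - yy (c - A) (c - B) c
      = X * (C (A + B - c) + (yy A B c - yy (c - A) (c - B) c)) := by
    have hF := FF_mul_inv A B c
    have hG := FF_mul_inv (c - A) (c - B) c
    have hZ := euler_Z A B hc
    unfold yy
    set F := FF A B c
    set G := FF (c - A) (c - B) c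
    linear_combination F⁻¹ * G⁻¹ * hZ - (1 - X) * th F * F⁻¹ * hG + (1 - X) * th G * G⁻¹ * hF
      + C (A + B - c) * X * (G * G⁻¹ * hF + hG)
  have h2 : ∀ j, coeff (j + 1) (yy A B c - yy (c - A) (c - B) c) = A + B - c := by
    intro j
    induction j with
    | zero =>
      rw [h1, coeff_succ_X_mul, map_add, coeff_zero_C, map_sub, coeff_yy_zero, coeff_yy_zero]
      simp
    | succ j ih => rw [h1, coeff_succ_X_mul, map_add, ih, coeff_succ_C, zero_add]
  have h3 := h2 k
  rw [map_sub] at h3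
  linarith

theorem cf_succ (A B : ℝ) {c : ℝ} (hc : 0 < c) (k : ℕ) :
    cf A B c (k + 1) = 2 * (A + B - c) + 2 * coeff (k + 1) (yy (c - A) (c - B) c) := by
  have h := euler_yy A B hc k
  rw [yy_symm A B, coeff_yy_succ] at h
  rw [cf_eq]
  linarith

theorem WW_succ (a b : ℝ) {c : ℝ} (hc : 0 < c) (k : ℕ) :
    coeff (k + 1) (WW a b c 0) = b / c * coeff k (WW a b c 1) := by
  have h := (WW_frac a b hc).1
  have g1 := gg_odd a b c 0
  simp only [Nat.cast_zero, add_zero, mul_zero, zero_add] at g1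
  rw [one_mul, al, gg_zero, zero_add, g1, sub_zero, one_mul, mul_assoc] at h
  rw [h, map_add, coeff_C_mul, coeff_succ_X_mul, coeff_one]
  simp

theorem FF_Qn {a c : ℝ} (ha : 0 < a + 1) (hc : 0 < c) (b : ℝ) (hb : b = a - c + 1) :
    (1 + X) * FF (a + 1) b (c + 1) = FF a b c
      + C ((2 * c - a) * (a + 1) / (c * (c + 1))) * X * FF (a + 1 + 1) b (c + 1 + 1) := by
  ext k
  rw [mul_assoc, add_mul, one_mul, map_add, map_add, coeff_C_mul]
  cases k with
  | zero => simp [const_FF]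
  | succ k =>
    have h1 : 0 < c + 1 := by linarith
    rw [coeff_succ_X_mul, coeff_succ_X_mul, coeff_FF, coeff_FF, coeff_FF, coeff_FF, hyp_eq, hyp_eq,
      hyp_eq, hyp_eq, po_right (a + 1), po_right b, po_right (c + 1), po_left a, po_left c,
      po_up ha.ne', po_up h1.ne', Nat.factorial_succ]
    have := po_pos h1 k
    have h2 : 0 < c + 1 + k := by positivity
    subst hb
    push_cast
    field_simp
    ring

theorem FF_Q0 {μ : ℝ} (hμ : 0 < μ + 1) :
    (1 + X) * FF (1 / 2 + 1) (1 / 2 - μ + 1) (μ + 1) = FF (1 / 2) (1 / 2 - μ) (μ + 1)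
      + C (3 / (μ + 1)) * X * FF (1 / 2 + 1 + 1) (1 / 2 - μ + 1) (μ + 1 + 1) := by
  ext k
  rw [mul_assoc, add_mul, one_mul, map_add, map_add, coeff_C_mul]
  cases k with
  | zero => simp [const_FF]
  | succ k =>
    rw [coeff_succ_X_mul, coeff_succ_X_mul, coeff_FF, coeff_FF, coeff_FF, coeff_FF, hyp_eq, hyp_eq,
      hyp_eq, hyp_eq, po_right (1 / 2 + 1), po_right (1 / 2 - μ + 1), po_right (μ + 1),
      po_left (1 / 2), po_left (1 / 2 - μ), po_up (x := 1 / 2 + 1) (by norm_num), po_up hμ.ne',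
      Nat.factorial_succ]
    have := po_pos hμ k
    have h2 : 0 < μ + 1 + k := by positivity
    push_cast
    field_simp
    ring

theorem FF_Q1 {μ : ℝ} (hμ : 0 < μ + 1) :
    C 4 * th (FF (1 / 2) (1 / 2 - μ) (μ + 1)) + FF (1 / 2) (1 / 2 - μ) (μ + 1)
      = FF (1 / 2 + 1) (1 / 2 - μ + 1) (μ + 1) - X * FF (1 / 2 + 1) (1 / 2 - μ + 1) (μ + 1) := by
  ext k
  rw [map_add, map_sub, coeff_C_mul, coeff_th]
  cases k with
  | zero => simp [const_FF]
  | succ k =>
    rw [coeff_succ_X_mul, coeff_FF, coeff_FF, coeff_FF, hyp_eq, hyp_eq,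
      hyp_eq, po_right (1 / 2 + 1), po_right (1 / 2 - μ + 1), po_right (μ + 1),
      po_left (1 / 2), po_left (1 / 2 - μ), Nat.factorial_succ]
    have := po_pos hμ k
    have h2 : 0 < μ + 1 + k := by positivity
    push_cast
    field_simp
    ring

/-- The parameters of the fraction of the quadratic transformation. -/
noncomputable def gq (μ : ℝ) (n : ℕ) : ℝ := if n = 0 then 0 else (2 * n + 1) / (4 * (μ + n))

/-- The successive quotients of the quadratic transformation. -/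
noncomputable def Wq (μ : ℝ) (n : ℕ) : ℝ⟦X⟧ :=
  FF (1 / 2 + n + 1) (1 / 2 - μ + 1) (μ + n + 1) * (FF (1 / 2) (1 / 2 - μ) (μ + 1))⁻¹

theorem Wq_frac {μ : ℝ} (hμ : 0 < μ + 1) : IsFrac (gq μ) (1 + X) (C 4 * X) (Wq μ) := by
  constructor
  · have h := FF_Q0 hμ
    have e : C (al (gq μ) 0) * C 4 = (C (3 / (μ + 1)) : ℝ⟦X⟧) := by
      rw [← map_mul]
      congr 1
      simp only [al, gq, if_true, zero_add, one_ne_zero, if_false, Nat.cast_one]
      field_simp
      ring
    simp only [Wq, Nat.cast_zero, add_zero, Nat.cast_one]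
    linear_combination (FF (1 / 2) (1 / 2 - μ) (μ + 1))⁻¹ * h
      + FF_mul_inv (1 / 2) (1 / 2 - μ) (μ + 1)
      - X * FF (1 / 2 + 1 + 1) (1 / 2 - μ + 1) (μ + 1 + 1) * (FF (1 / 2) (1 / 2 - μ) (μ + 1))⁻¹ * e
  · intro n
    have hn : (0 : ℝ) ≤ n := Nat.cast_nonneg n
    have h := FF_Qn (a := 1 / 2 + n + 1) (c := μ + n + 1) (by positivity) (by linarith)
      (1 / 2 - μ + 1) (by ring)
    have e : C (al (gq μ) (n + 1)) * C 4 = (C ((2 * (μ + n + 1) - (1 / 2 + n + 1))
        * (1 / 2 + n + 1 + 1) / ((μ + n + 1) * (μ + n + 1 + 1))) : ℝ⟦X⟧) := by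
      rw [← map_mul]
      congr 1
      have h1 : 0 < μ + n + 1 := by linarith
      have h2 : 0 < μ + (n + 1) := by linarith
      have h3 : 0 < μ + (n + 1 + 1) := by linarith
      have h4 : 0 < μ + n + 1 + 1 := by linarith
      simp only [al, gq, Nat.succ_ne_zero, if_false]
      push_cast
      field_simp
      ring
    simp only [Wq]
    push_cast
    rw [show (1 / 2 + (n + 1) + 1 : ℝ) = 1 / 2 + n + 1 + 1 by ring,
      show (μ + (n + 1) + 1 : ℝ) = μ + n + 1 + 1 by ring,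
      show (1 / 2 + (n + 2) + 1 : ℝ) = 1 / 2 + n + 1 + 1 + 1 by ring,
      show (μ + (n + 2) + 1 : ℝ) = μ + n + 1 + 1 + 1 by ring]
    linear_combination (FF (1 / 2) (1 / 2 - μ) (μ + 1))⁻¹ * h
      - X * FF (1 / 2 + n + 1 + 1 + 1) (1 / 2 - μ + 1) (μ + n + 1 + 1 + 1)
        * (FF (1 / 2) (1 / 2 - μ) (μ + 1))⁻¹ * e

theorem xi_rep {μ : ℝ} (hμ : -1 / 4 < μ) :
    ∃ θ : Measure ℝ, IsProbabilityMeasure θ ∧ (∀ᵐ t ∂θ, t ∈ Icc (0 : ℝ) 1) ∧
      (∫ t, t ^ 6 ∂θ = jv (cd (prev 0 (gq μ))) (ce (prev 0 (gq μ))) (Polynomial.X ^ 6) 0) ∧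
      ∀ k, cf (μ + 1 / 2) (2 * μ + 1 / 2) (μ + 1) k = 4 * μ + ∫ t, (tau k).eval t ∂θ := by
  have h1 : 0 < μ + 1 := by linarith
  obtain ⟨θ, hθ, hI, hm, h⟩ := frac_cheb_meas (g := gq μ) (by simp [gq]) (fun n => by
    unfold gq
    split_ifs with hn
    · exact zero_le_one
    · have : (1 : ℝ) ≤ n := by exact_mod_cast Nat.one_le_iff_ne_zero.2 hn
      rw [div_le_one (by linarith)]
      linarith) (fun n => by
    unfold gq
    split_ifs with hn
    · exact le_rfl
    · have : (1 : ℝ) ≤ n := by exact_mod_cast Nat.one_le_iff_ne_zero.2 hn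
      exact div_nonneg (by linarith) (by linarith)) (Wq_frac h1)
  refine ⟨θ, hθ, hI, hm, fun k => ?_⟩
  cases k with
  | zero =>
    rw [cf_zero _ _ h1, tau_zero]
    simp
    ring
  | succ k =>
    have e : C 4 * yy (1 / 2) (1 / 2 - μ) (μ + 1) + 1 = Wq μ 0 - X * Wq μ 0 := by
      simp only [Wq, Nat.cast_zero, add_zero, yy]
      linear_combination (FF (1 / 2) (1 / 2 - μ) (μ + 1))⁻¹ * FF_Q1 h1
        - FF_mul_inv (1 / 2) (1 / 2 - μ) (μ + 1)
    have e2 := congrArg (coeff (k + 1)) e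
    rw [map_add, map_sub, coeff_C_mul, coeff_succ_X_mul, h k, coeff_one] at e2
    rw [cf_succ _ _ h1, show μ + 1 - (μ + 1 / 2) = 1 / 2 by ring,
      show μ + 1 - (2 * μ + 1 / 2) = 1 / 2 - μ by ring]
    simp only [Nat.succ_ne_zero, if_false, add_zero] at e2
    linarith

end Pool.Agent.P.MP_ede858_pr
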