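import Mathlib
import Pool.Agent.P.MP_ede858_pr.Eul

set_option autoImplicit false

open Set Filter Topology MeasureTheory Real

namespace Pool.Agent.P.MP_ede858_pr

/-! Positivity and growth of the canonical function. -/

/-- Positivity and growth bounds for `h = Sr 0 c` and its derivative. -/
def Good (c : ℕ → ℝ) : Prop :=
  ∃ M : ℝ, ∀ x, 0 ≤ x → 0 < Sr 0 c x ∧ |Sr 1 (fun k => c (k + 1)) x| ≤ M * Sr 0 c x ∧
    Sr 0 c x ≤ M * exp x

theorem cosh_le_exp {x : ℝ} (hx : 0 ≤ x) : cosh x ≤ exp x := by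
  rw [cosh_eq]
  have := exp_le_exp.2 (show -x ≤ x by linarith)
  linarith

theorem good_of_bounds {c : ℕ → ℝ} {m M : ℝ} (hm : 0 < m) (hM : 0 ≤ M)
    (h : ∀ x, 0 ≤ x → m * cosh x ≤ Sr 0 c x ∧ Sr 0 c x ≤ M * cosh x ∧
      |Sr 1 (fun k => c (k + 1)) x| ≤ M * sinh x) : Good c := by
  refine ⟨M / m + M, fun x hx => ?_⟩
  obtain ⟨h1, h2, h3⟩ := h x hx
  have hc := cosh_pos x
  have h0 : 0 < Sr 0 c x := lt_of_lt_of_le (by positivity) h1
  have hq : 0 ≤ M / m := by positivity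
  refine ⟨h0, ?_, ?_⟩
  · have h4 : M * sinh x ≤ M / m * (m * cosh x) := by
      rw [← mul_assoc, div_mul_cancel₀ _ hm.ne']
      exact mul_le_mul_of_nonneg_left (sinh_lt_cosh x).le hM
    have h5 := mul_le_mul_of_nonneg_left h1 hq
    nlinarith [mul_nonneg hM h0.le]
  · have h4 := mul_le_mul_of_nonneg_left (cosh_le_exp hx) hM
    nlinarith [mul_nonneg hq (exp_pos x).le]

theorem Sr_sq_one (u x : ℝ) : u * Sr 1 (fun k => (u ^ 2) ^ k) x = sinh (u * x) := by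
  rw [sinh_eq_tsum, Sr, ← tsum_mul_left]
  refine tsum_congr (fun k => ?_)
  rw [mul_pow, ← pow_mul]
  ring

theorem ae_geo {θ : Measure ℝ} {R : ℝ} (hR : 1 ≤ R) (hI : ∀ᵐ t ∂θ, t ∈ Icc (-R) 1) :
    ∀ᵐ t ∂θ, Geo (fun k => t ^ k) 1 R := by
  filter_upwards [hI] with t ht
  exact geo_pow hR (abs_le.2 ⟨ht.1, ht.2.trans hR⟩)

theorem good_of_le {A B C : ℝ} (hA : 0 < A) (hB : 0 < B) (hC : 0 < C) (hAC : A ≤ C)
    (hBC : B ≤ C) : Good (cf A B C) ∧
      ∀ x, 0 ≤ x → Sr 1 (fun k => cf A B C (k + 1)) x ≤ Sr 0 (cf A B C) x := by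
  obtain ⟨θ, hθ, hI, hc⟩ := cf_meas hA.le hB.le hC hAC hBC
  have hg : ∀ᵐ t ∂θ, Geo (fun k => t ^ k) 1 1 :=
    ae_geo le_rfl (hI.mono (fun t ht => ⟨by linarith [ht.1], ht.2⟩))
  have hg' : ∀ᵐ t ∂θ, Geo (fun k => t ^ (k + 1)) (1 * 1) 1 := hg.mono (fun t ht => ht.succ)
  have key : ∀ x, 0 ≤ x → 2 * B ≤ Sr 0 (cf A B C) x ∧ Sr 0 (cf A B C) x ≤ 2 * B * cosh x ∧
      0 ≤ Sr 1 (fun k => cf A B C (k + 1)) x ∧
      Sr 1 (fun k => cf A B C (k + 1)) x ≤ Sr 0 (cf A B C) x := by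
    intro x hx
    obtain ⟨i0, e0⟩ := Sr_integral θ (fun k t => t ^ k) (fun k => by fun_prop) hg 0 x
    obtain ⟨i1, e1⟩ := Sr_integral θ (fun k t => t ^ (k + 1)) (fun k => by fun_prop) hg' 1 x
    have hp : ∀ᵐ t ∂θ, 1 ≤ Sr 0 (fun k => t ^ k) x ∧ Sr 0 (fun k => t ^ k) x ≤ cosh x ∧
        0 ≤ Sr 1 (fun k => t ^ (k + 1)) x ∧
        Sr 1 (fun k => t ^ (k + 1)) x ≤ Sr 0 (fun k => t ^ k) x := by
      filter_upwards [hI] with t ht
      obtain ⟨u, hu, hu1, rfl⟩ : ∃ u, 0 ≤ u ∧ u ≤ 1 ∧ t = u ^ 2 :=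
        ⟨√t, Real.sqrt_nonneg _, Real.sqrt_le_one.2 ht.2, (Real.sq_sqrt ht.1).symm⟩
      have e : Sr 1 (fun k => (u ^ 2) ^ (k + 1)) x = u * sinh (u * x) := by
        rw [← Sr_sq_one, ← mul_assoc, ← sq, ← Sr_mul]
        simp only [pow_succ' (u ^ 2)]
      have h1 : 0 ≤ sinh (u * x) := sinh_nonneg_iff.2 (by positivity)
      rw [e, Sr_sq]
      refine ⟨one_le_cosh _, cosh_le_cosh.2 ?_, by positivity, ?_⟩
      · rw [abs_of_nonneg (by positivity), abs_of_nonneg hx]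
        exact mul_le_of_le_one_left hx hu1
      · exact (mul_le_of_le_one_left h1 hu1).trans (sinh_lt_cosh _).le
    have E0 : Sr 0 (cf A B C) x = 2 * B * ∫ t, Sr 0 (fun k => t ^ k) x ∂θ := by
      rw [funext hc, Sr_mul, e0]
    have E1 : Sr 1 (fun k => cf A B C (k + 1)) x
        = 2 * B * ∫ t, Sr 1 (fun k => t ^ (k + 1)) x ∂θ := by
      simp only [hc]
      rw [Sr_mul, e1]
    have b1 := integral_mono_ae (integrable_const (1 : ℝ)) i0 (hp.mono (fun t ht => ht.1))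
    have b2 := integral_mono_ae i0 (integrable_const (cosh x)) (hp.mono (fun t ht => ht.2.1))
    have b3 := integral_nonneg_of_ae (hp.mono (fun t ht => ht.2.2.1))
    have b4 := integral_mono_ae i1 i0 (hp.mono (fun t ht => ht.2.2.2))
    simp only [integral_const, probReal_univ, smul_eq_mul, mul_one, one_mul] at b1 b2
    rw [E0, E1]
    have hB2 : 0 < 2 * B := by positivity
    exact ⟨le_mul_of_one_le_right hB2.le b1, mul_le_mul_of_nonneg_left b2 hB2.le,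
      mul_nonneg hB2.le b3, mul_le_mul_of_nonneg_left b4 hB2.le⟩
  refine ⟨⟨2 * B + 1, fun x hx => ?_⟩, fun x hx => (key x hx).2.2.2⟩
  obtain ⟨h1, h2, h3, h4⟩ := key x hx
  have h0 : 0 < Sr 0 (cf A B C) x := lt_of_lt_of_le (by positivity) h1
  refine ⟨h0, ?_, ?_⟩
  · rw [abs_of_nonneg h3]
    nlinarith [mul_pos hB h0]
  · have := mul_le_mul_of_nonneg_left (cosh_le_exp hx) hB.le
    nlinarith [exp_pos x]

theorem rep_formula {c : ℕ → ℝ} {s m R Ω : ℝ} {θ : Measure ℝ} [IsProbabilityMeasure θ]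
    {ω : ℝ → ℝ} (hR : 1 ≤ R) (hI : ∀ᵐ t ∂θ, t ∈ Icc (-R) 1) (hω : Measurable ω)
    (hΩ : ∀ᵐ t ∂θ, |ω t| ≤ Ω) (h0 : c 0 = 2 * s - m)
    (hc : ∀ k, c (k + 1) = 2 * s - ∫ t, ω t * t ^ k ∂θ) (x : ℝ) :
    Integrable (fun t => ω t * Sr 2 (fun k => t ^ k) x) θ ∧
    Integrable (fun t => ω t * Sr 1 (fun k => t ^ k) x) θ ∧
    Sr 0 c x = 2 * s * cosh x - m - ∫ t, ω t * Sr 2 (fun k => t ^ k) x ∂θ ∧
    Sr 1 (fun k => c (k + 1)) x = 2 * s * sinh x - ∫ t, ω t * Sr 1 (fun k => t ^ k) x ∂θ := by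
  have hg : ∀ᵐ t ∂θ, Geo (fun k => -ω t * t ^ k) Ω R := by
    filter_upwards [ae_geo hR hI, hΩ] with t ht h1
    refine ⟨hR, fun k => ?_⟩
    have h2 := ht.2 k
    rw [one_mul] at h2
    rw [abs_mul, abs_neg]
    exact mul_le_mul h1 h2 (abs_nonneg _) ((abs_nonneg _).trans h1)
  have hg2 := geo_integral θ (fun k t => -ω t * t ^ k) hg
  have e : (fun k => c (k + 1)) = fun k => 2 * s + ∫ t, -ω t * t ^ k ∂θ := by
    funext k
    simp only [hc, neg_mul, integral_neg]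
    ring
  have key : ∀ i, Integrable (fun t => ω t * Sr i (fun k => t ^ k) x) θ ∧
      Sr i (fun k => c (k + 1)) x = 2 * s * Sr i (fun _ => 1) x
        - ∫ t, ω t * Sr i (fun k => t ^ k) x ∂θ := by
    intro i
    obtain ⟨i1, e1⟩ := Sr_integral θ (fun k t => -ω t * t ^ k) (fun k => by fun_prop) hg i x
    simp only [Sr_mul] at i1 e1
    refine ⟨i1.neg.congr (Eventually.of_forall (fun t => by simp)), ?_⟩
    rw [e, Sr_add (geo_const _) hg2, Sr_const, e1]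
    simp only [neg_mul, integral_neg]
    ring
  have hgc : Geo c (|c 0| + (|2 * s| + Ω)) R := by
    have hΩ0 := hg2.nonneg
    refine ⟨hR, fun k => ?_⟩
    cases k with
    | zero => simp only [pow_zero, mul_one]; linarith [abs_nonneg (2 * s)]
    | succ k =>
      have h1 := hg2.2 k
      have h2 := abs_add_le (2 * s) (∫ t, -ω t * t ^ k ∂θ)
      have h3 : R ^ k ≤ R ^ (k + 1) := pow_le_pow_right₀ hR (by omega)
      have h4 : 1 ≤ R ^ (k + 1) := one_le_pow₀ hR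
      rw [congrFun e k]
      nlinarith [abs_nonneg (c 0), abs_nonneg (2 * s), mul_le_mul_of_nonneg_left h3 hΩ0,
        mul_le_mul_of_nonneg_left h4 (abs_nonneg (2 * s))]
  refine ⟨(key 2).1, (key 1).1, ?_, ?_⟩
  · rw [hgc.split0, (key 2).2, Sr_one_two, h0]
    ring
  · rw [(key 1).2, Sr_one_one]

theorem good_of_rep {c : ℕ → ℝ} {s m R Ω L : ℝ} {θ : Measure ℝ} [IsProbabilityMeasure θ]
    {ω : ℝ → ℝ} (hR : 1 ≤ R) (hI : ∀ᵐ t ∂θ, t ∈ Icc (-R) 1) (hω : Measurable ω)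
    (hΩ : ∀ᵐ t ∂θ, |ω t| ≤ Ω) (h0 : c 0 = 2 * s - m)
    (hc : ∀ k, c (k + 1) = 2 * s - ∫ t, ω t * t ^ k ∂θ) (hm : 0 ≤ m) (hs : m < 2 * s)
    (hωm : ∀ᵐ t ∂θ, ω t ≤ m)
    (hL : ∀ x, 0 ≤ x → -(L * (cosh x - 1)) ≤ ∫ t, ω t * Sr 2 (fun k => t ^ k) x ∂θ) :
    Good c ∧ ∀ x, 0 ≤ x → Sr 0 c x ≤ 2 * s * cosh x - m + L * (cosh x - 1) := by
  have hΩ0 : 0 ≤ Ω := by
    obtain ⟨t, ht⟩ := hΩ.exists
    exact (abs_nonneg _).trans ht
  refine ⟨good_of_bounds (m := 2 * s - m) (M := 2 * s + Ω) (by linarith) (by linarith)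
    (fun x hx => ?_), fun x hx => ?_⟩
  · obtain ⟨i2, i1, e0, e1⟩ := rep_formula hR hI hω hΩ h0 hc x
    have hk : ∀ᵐ t ∂θ, _ := hI.mono (fun t ht => ker_two ht.2 hx)
    have b1 := integral_mono_ae i2 (integrable_const (m * (cosh x - 1))) (by
      filter_upwards [hk, hωm] with t ht h1
      exact (mul_le_mul_of_nonneg_right h1 ht.1).trans (mul_le_mul_of_nonneg_left ht.2.1 hm))
    have b2 := norm_integral_le_of_norm_le_const (μ := θ)
      (f := fun t => ω t * Sr 2 (fun k => t ^ k) x) (C := Ω * (cosh x - 1)) (by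
      filter_upwards [hk, hΩ] with t ht h1
      rw [Real.norm_eq_abs, abs_mul, abs_of_nonneg ht.1]
      exact mul_le_mul h1 ht.2.1 ht.1 hΩ0)
    have b3 := norm_integral_le_of_norm_le_const (μ := θ)
      (f := fun t => ω t * Sr 1 (fun k => t ^ k) x) (C := Ω * sinh x) (by
      filter_upwards [hk, hΩ] with t ht h1
      rw [Real.norm_eq_abs, abs_mul]
      exact mul_le_mul h1 ht.2.2.2 (abs_nonneg _) hΩ0)
    simp only [integral_const, probReal_univ, smul_eq_mul, mul_one, one_mul, Real.norm_eq_abs]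
      at b1 b2 b3
    have h1 := abs_le.1 b2
    have h2 := abs_le.1 b3
    have h3 : 0 ≤ 2 * s * sinh x := mul_nonneg (by linarith) (sinh_nonneg_iff.2 hx)
    rw [e0, e1]
    refine ⟨by linarith, by linarith, abs_le.2 ⟨by linarith, by linarith⟩⟩
  · obtain ⟨-, -, e0, -⟩ := rep_formula hR hI hω hΩ h0 hc x
    rw [e0]
    linarith [hL x hx]

theorem gg_phi {μ m : ℝ} (hμ : -1 < μ) (n : ℕ) :
    gg (-m / 2) ((1 - m) / 2) (μ + 1) (n + 1) = (n + 1 - m) / (2 * (μ + n + 1)) := by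
  obtain ⟨k, rfl | rfl⟩ := Nat.even_or_odd' n
  · have hk : (0 : ℝ) ≤ k := Nat.cast_nonneg k
    have h1 : 0 < μ + 1 + 2 * k := by linarith
    have h2 : 0 < μ + 2 * k + 1 := by linarith
    rw [gg_odd]
    push_cast
    field_simp
    ring
  · have hk : (0 : ℝ) ≤ k := Nat.cast_nonneg k
    have h1 : 0 < μ + 1 + 2 * k + 1 := by linarith
    have h2 : 0 < μ + (2 * k + 1) + 1 := by linarith
    rw [show 2 * k + 1 + 1 = 2 * k + 2 by ring, gg_even]
    push_cast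
    field_simp
    ring

theorem gg_phi_sign {μ m : ℝ} (hμ : -1 < μ) (n : ℕ) (h : m ≤ n + 1 ∨ (n : ℝ) + 2 ≤ m) :
    0 ≤ gg (-m / 2) ((1 - m) / 2) (μ + 1) (n + 1) * gg (-m / 2) ((1 - m) / 2) (μ + 1) (n + 2) := by
  have hn : (0 : ℝ) ≤ n := Nat.cast_nonneg n
  rw [gg_phi hμ n, gg_phi hμ (n + 1), div_mul_div_comm]
  push_cast
  refine div_nonneg ?_ (mul_nonneg (by linarith) (by linarith))
  rcases h with h | h
  · exact mul_nonneg (by linarith) (by linarith)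
  · exact mul_nonneg_of_nonpos_of_nonpos (by linarith) (by linarith)

theorem good_phi_big {μ ν : ℝ} (hμ : -1 < μ) (hρ : 0 < μ + ν) (hν : μ + 1 < ν) :
    Good (cf ((μ + ν + 1) / 2) ((μ + ν) / 2) (μ + 1)) ∧ ∀ x, 0 ≤ x →
      Sr 0 (cf ((μ + ν + 1) / 2) ((μ + ν) / 2) (μ + 1)) x ≤ 2 * (ν - 1 / 2) * cosh x - (ν - μ - 1)
        + (ν - μ - 1) * max ((ν - μ - 2) / (2 * (μ + 1))) 0 * (cosh x - 1) := by
  obtain ⟨m, rfl⟩ : ∃ m, ν = m + μ + 1 := ⟨ν - μ - 1, by ring⟩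
  have hm : 0 < m := by linarith
  have hC : 0 < μ + 1 := by linarith
  rw [show m + μ + 1 - μ - 1 = m by ring, show m + μ + 1 - μ - 2 = m - 1 by ring]
  set K := (m - 1) / (2 * (μ + 1)) with hK
  have hK' : (1 - m) / 2 / (μ + 1) = -K := by
    rw [hK]
    field_simp
    ring
  have h0 : cf ((μ + (m + μ + 1) + 1) / 2) ((μ + (m + μ + 1)) / 2) (μ + 1) 0
      = 2 * (m + μ + 1 - 1 / 2) - m := by
    rw [cf_zero _ _ hC]
    ring
  have hc : ∀ k, cf ((μ + (m + μ + 1) + 1) / 2) ((μ + (m + μ + 1)) / 2) (μ + 1) (k + 1)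
      = 2 * (m + μ + 1 - 1 / 2)
        - m * PowerSeries.coeff (k + 1) (WW (-m / 2) ((1 - m) / 2) (μ + 1) 0) := by
    intro k
    rw [cf_succ _ _ hC, show μ + 1 - (μ + (m + μ + 1) + 1) / 2 = -m / 2 by ring,
      show μ + 1 - (μ + (m + μ + 1)) / 2 = (1 - m) / 2 by ring, coeff_yy_succ]
    ring
  have hle := gg_le_one (a := -m / 2) (b := (1 - m) / 2) (by linarith) (by linarith) hC
  have hfl := Nat.floor_le hm.le
  have hfl' := Nat.lt_floor_add_one m
  obtain ⟨N, hN | hN⟩ := Nat.even_or_odd' ⌊m⌋₊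
  · rw [hN] at hfl hfl'
    push_cast at hfl hfl'
    obtain ⟨R, θ, hR, hθ, hI, hW⟩ := frac_even_meas (gg_zero _ _ _) hle (fun k => by
      refine gg_phi_sign hμ (2 * k) ?_
      push_cast
      rcases le_or_gt N k with h | h
      · have : (N : ℝ) ≤ k := by exact_mod_cast h
        left; linarith
      · have : (k : ℝ) + 1 ≤ N := by exact_mod_cast h
        right; linarith) (gg_bound _ _ hC) (WW_frac _ _ hC)
    have hm1 : ∫ t, t ∂θ = -K := by
      have h1 := hW 1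
      rw [WW_succ _ _ hC, hK'] at h1
      simp only [pow_one] at h1
      rw [← h1]
      have h2 := (WW_frac (-m / 2) ((1 - m) / 2) hC).2 0
      have h3 := (frac_low (WW_frac (-m / 2) ((1 - m) / 2) hC)).1
      rw [one_mul, mul_assoc] at h2
      rw [zero_add] at h2
      rw [h2, map_add, h3]
      simp
    refine good_of_rep (ω := fun t => m * t) (Ω := m * R) hR hI (by fun_prop) ?_ h0 (fun k => ?_)
      hm.le (by linarith) ?_ (fun x hx => ?_)
    · filter_upwards [hI] with t ht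
      rw [abs_mul, abs_of_pos hm]
      exact mul_le_mul_of_nonneg_left (abs_le.2 ⟨ht.1, ht.2.trans hR⟩) hm.le
    · rw [hc, hW, ← integral_const_mul]
      simp only [pow_succ', mul_assoc]
    · filter_upwards [hI] with t ht
      exact mul_le_of_le_one_right hm.le ht.2
    · have it : Integrable (fun t : ℝ => t) θ := Integrable.of_bound (by fun_prop) R (by
        filter_upwards [hI] with t ht
        exact abs_le.2 ⟨ht.1, ht.2.trans hR⟩)
      have i2 := (Sr_integral θ (fun k t => t ^ (k + 1)) (fun k => by fun_prop)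
        ((ae_geo hR hI).mono (fun t ht => ht.succ)) 2 x).1
      simp only [pow_succ', Sr_mul] at i2
      have b := integral_mono_ae (it.mul_const (x ^ 2 / 2)) i2
        (hI.mono (fun t ht => (ker_two ht.2 hx).2.2.1))
      rw [integral_mul_const, hm1] at b
      simp only [mul_assoc]
      rw [integral_const_mul]
      have h1 := half_sq_le x
      have h2 : K * (x ^ 2 / 2) ≤ max K 0 * (cosh x - 1) :=
        (mul_le_mul_of_nonneg_right (le_max_left K 0) (by positivity)).trans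
          (mul_le_mul_of_nonneg_left h1 (le_max_right K 0))
      nlinarith
  · rw [hN] at hfl hfl'
    push_cast at hfl hfl'
    have hN0 : (0 : ℝ) ≤ N := Nat.cast_nonneg N
    have hK0 : 0 ≤ K := div_nonneg (by linarith) (by linarith)
    obtain ⟨R, θ, hR, hθ, hI, hW⟩ := frac_odd_meas (gg_zero _ _ _) hle (fun k => by
      refine gg_phi_sign hμ (2 * k + 1) ?_
      push_cast
      rcases le_or_gt N k with h | h
      · have : (N : ℝ) ≤ k := by exact_mod_cast h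
        left; linarith
      · have : (k : ℝ) + 1 ≤ N := by exact_mod_cast h
        right; linarith) (gg_bound _ _ hC) (WW_frac _ _ hC)
    refine good_of_rep (ω := fun _ => -(m * K)) (Ω := m * K) hR hI (by fun_prop) ?_ h0
      (fun k => ?_) hm.le (by linarith) ?_ (fun x hx => ?_)
    · exact Eventually.of_forall (fun t => by rw [abs_neg, abs_of_nonneg (by positivity)])
    · rw [hc, WW_succ _ _ hC, hK', hW, integral_const_mul]
      ring
    · exact Eventually.of_forall (fun t => by nlinarith [mul_nonneg hm.le hK0])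
    · have i2 := (Sr_integral θ (fun k t => t ^ k) (fun k => by fun_prop) (ae_geo hR hI) 2 x).1
      have b := integral_mono_ae i2 (integrable_const (cosh x - 1))
        (hI.mono (fun t ht => (ker_two ht.2 hx).2.1))
      simp only [integral_const, probReal_univ, smul_eq_mul, one_mul] at b
      rw [integral_const_mul, max_eq_left hK0]
      nlinarith [mul_le_mul_of_nonneg_left b (mul_nonneg hm.le hK0)]

theorem dip_phi {μ ν : ℝ} (hμ : -1 < μ) (hρ : 0 < μ + ν) (hν : μ + 1 < ν) :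
    ∃ x, 0 ≤ x ∧ exp (-x) * Sr 0 (cf ((μ + ν + 1) / 2) ((μ + ν) / 2) (μ + 1)) x < ν - 1 / 2 := by
  have h := (good_phi_big hμ hρ hν).2
  set s := ν - 1 / 2 with hs
  set m := ν - μ - 1 with hm
  set L := max ((ν - μ - 2) / (2 * (μ + 1))) 0 with hL
  have hm0 : 0 < m := by linarith
  have hms : m < 2 * s := by linarith
  have key : ∀ u, 0 < u → u ≤ 1 → s * u ^ 2 - m * u + m * L * (1 - u) ^ 2 / 2 < 0 →
      ∃ x, 0 ≤ x ∧ exp (-x) * Sr 0 (cf ((μ + ν + 1) / 2) ((μ + ν) / 2) (μ + 1)) x < s := by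
    intro u hu hu1 hq
    have hx : 0 ≤ -log u := neg_nonneg.2 (log_nonpos hu.le hu1)
    refine ⟨-log u, hx, ?_⟩
    have h1 := mul_le_mul_of_nonneg_left (h _ hx) hu.le
    rw [cosh_eq, neg_neg, exp_log hu, exp_neg, exp_log hu] at h1
    rw [neg_neg, exp_log hu]
    have e : u * (2 * s * ((u⁻¹ + u) / 2) - m + m * L * ((u⁻¹ + u) / 2 - 1))
        = s + (s * u ^ 2 - m * u + m * L * (1 - u) ^ 2 / 2) := by
      field_simp
      ring
    linarith
  rcases le_or_gt ((ν - μ - 2) / (2 * (μ + 1))) 0 with hK | hK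
  · have hL0 : L = 0 := max_eq_right hK
    have hs0 : 0 < s := by linarith
    refine key (m / (2 * s)) (by positivity) ((div_le_one (by positivity)).2 hms.le) ?_
    rw [hL0]
    have e : s * (m / (2 * s)) ^ 2 - m * (m / (2 * s)) + m * 0 * (1 - m / (2 * s)) ^ 2 / 2
        = -(m ^ 2 / (4 * s)) := by
      field_simp
      ring
    rw [e, neg_lt_zero]
    positivity
  · have hL0 : L * (2 * (μ + 1)) = ν - μ - 2 := by
      rw [hL, max_eq_left hK.le, div_mul_cancel₀ _ (by linarith)]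
    have hL1 : 0 < L := lt_max_of_lt_left hK
    refine key (L / (1 + L)) (by positivity) ((div_le_one (by positivity)).2 (by linarith)) ?_
    have e : s * (L / (1 + L)) ^ 2 - m * (L / (1 + L)) + m * L * (1 - L / (1 + L)) ^ 2 / 2
        = -(L * (m * (1 + 2 * L) - 2 * s * L) / (2 * (1 + L) ^ 2)) := by
      field_simp
      ring
    have h1 : 0 < m * (1 + 2 * L) - 2 * s * L := by
      have h2 : (m * (1 + 2 * L) - 2 * s * L) * (2 * (μ + 1)) = μ + ν := by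
        rw [hm, hs]
        linear_combination (-(2 * μ + 1)) * hL0
      by_contra h3
      nlinarith [mul_nonneg (neg_nonneg.2 (not_lt.1 h3)) (show 0 ≤ 2 * (μ + 1) by linarith)]
    rw [e, neg_lt_zero]
    positivity

theorem xi_bounds {μ : ℝ} (hμ : -1 / 4 < μ) (k : ℕ) :
    4 * μ - 1 ≤ cf (μ + 1 / 2) (2 * μ + 1 / 2) (μ + 1) k ∧
      cf (μ + 1 / 2) (2 * μ + 1 / 2) (μ + 1) k ≤ 4 * μ + 1 := by
  obtain ⟨θ, hθ, hI, -, h⟩ := xi_rep hμ
  have b := norm_integral_le_of_norm_le_const (μ := θ) (f := fun t => (tau k).eval t) (C := 1)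
    (hI.mono (fun t ht => abs_tau_le k ht))
  simp only [probReal_univ, mul_one, Real.norm_eq_abs] at b
  rw [h]
  constructor <;> linarith [abs_le.1 b]

theorem good_xi_big {μ : ℝ} (hμ : 1 / 4 < μ) :
    Good (cf (μ + 1 / 2) (2 * μ + 1 / 2) (μ + 1)) ∧ ∀ x, 0 ≤ x →
      (4 * μ - 1) * Sr 1 (fun k => cf (μ + 1 / 2) (2 * μ + 1 / 2) (μ + 1) (k + 1)) x
        ≤ (4 * μ + 1) * Sr 0 (cf (μ + 1 / 2) (2 * μ + 1 / 2) (μ + 1)) x := by
  have hb := xi_bounds (show -1 / 4 < μ by linarith)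
  obtain ⟨R, hg⟩ := cf_geo (μ + 1 / 2) (2 * μ + 1 / 2) (show 0 < μ + 1 by linarith)
  have key : ∀ x, 0 ≤ x → (4 * μ - 1) * cosh x ≤ Sr 0 (cf (μ + 1 / 2) (2 * μ + 1 / 2) (μ + 1)) x ∧
      Sr 0 (cf (μ + 1 / 2) (2 * μ + 1 / 2) (μ + 1)) x ≤ (4 * μ + 1) * cosh x ∧
      |Sr 1 (fun k => cf (μ + 1 / 2) (2 * μ + 1 / 2) (μ + 1) (k + 1)) x|
        ≤ (4 * μ + 1) * sinh x := by
    intro x hx
    refine ⟨?_, ?_, ?_⟩
    · rw [← Sr_one_zero, ← Sr_const]
      exact Sr_mono (geo_const _) hg 0 hx (fun k => (hb k).1)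
    · rw [← Sr_one_zero, ← Sr_const]
      exact Sr_mono hg (geo_const _) 0 hx (fun k => (hb k).2)
    · rw [abs_of_nonneg (Sr_nonneg _ hx (fun k => by linarith [(hb (k + 1)).1])), ← Sr_one_one,
        ← Sr_const]
      exact Sr_mono hg.succ (geo_const _) 1 hx (fun k => (hb (k + 1)).2)
  refine ⟨good_of_bounds (by linarith) (by linarith) key, fun x hx => ?_⟩
  obtain ⟨h1, -, h3⟩ := key x hx
  have h4 := (le_abs_self _).trans h3
  have h5 := (sinh_lt_cosh x).le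
  have h6 : 0 ≤ 4 * μ - 1 := by linarith
  have h7 : 0 ≤ 4 * μ + 1 := by linarith
  nlinarith [mul_le_mul_of_nonneg_left h4 h6, mul_le_mul_of_nonneg_left h1 h7,
    mul_le_mul_of_nonneg_left h5 (mul_nonneg h6 h7)]

end Pool.Agent.P.MP_ede858_pr
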