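import Mathlib
import Pool.Agent.P.MP_ede858_pr.Good
import Pool.Agent.P.MP_ede858_pr.Cpp

set_option autoImplicit false

open Set Filter Topology MeasureTheory ProbabilityTheory Real

namespace Pool.Agent.P.MP_ede858_pr

/-! Self-decomposability in terms of the canonical function. -/

/-- The derivative of the canonical function. -/
noncomputable def kd (A B C r b x : ℝ) : ℝ :=
  exp (-(b * x)) * (r * Sr 1 (fun k => cf A B C (k + 1)) (r * x) - b * Sr 0 (cf A B C) (r * x))

theorem kf_deriv (A B r b : ℝ) {C : ℝ} (hC : 0 < C) (x : ℝ) :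
    HasDerivAt (kf A B C r b) (kd A B C r b x) x := by
  obtain ⟨R, hg⟩ := cf_geo A B hC
  have h1 := ((hasDerivAt_id x).const_mul b).neg.exp
  have h2 := (hg.hasDerivAt0 (r * x)).comp x ((hasDerivAt_id x).const_mul r)
  refine (h1.mul h2).congr_deriv ?_
  simp only [kd, id, Pi.neg_apply, Function.comp_apply]
  ring

theorem kd_continuous (A B r b : ℝ) {C : ℝ} (hC : 0 < C) : Continuous (kd A B C r b) := by
  obtain ⟨R, hg⟩ := cf_geo A B hC
  have h0 := hg.continuous 0
  have h1 := hg.succ.continuous 1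
  unfold kd
  fun_prop

theorem good_kf {A B C r b : ℝ} (hr : 0 < r) (hb : r < b) (hg : Good (cf A B C)) :
    ∃ M, 0 ≤ M ∧ ∀ x, 0 ≤ x → 0 < kf A B C r b x ∧ kf A B C r b x ≤ M * exp (-(b - r) * x) ∧
      |kd A B C r b x| ≤ M * exp (-(b - r) * x) := by
  obtain ⟨M, hM⟩ := hg
  have hM0 : 0 ≤ M := by
    have := (hM 0 le_rfl).1.trans_le (hM 0 le_rfl).2.2
    simpa using this.le
  have hb0 : 0 < b := hr.trans hb
  refine ⟨M + (r * M + b) * M, by positivity, fun x hx => ?_⟩
  obtain ⟨h1, h2, h3⟩ := hM (r * x) (by positivity)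
  have e : exp (-(b - r) * x) = exp (-(b * x)) * exp (r * x) := by
    rw [← exp_add]
    congr 1
    ring
  have hp := exp_pos (-(b * x))
  have hq := exp_pos (r * x)
  rw [e, kf, lev_eq, kd]
  refine ⟨by positivity, ?_, ?_⟩
  · have h4 : Sr 0 (cf A B C) (r * x) ≤ (M + (r * M + b) * M) * exp (r * x) := by
      have : 0 ≤ (r * M + b) * M * exp (r * x) := by positivity
      linarith
    nlinarith [mul_le_mul_of_nonneg_left h4 hp.le]
  · rw [abs_mul, abs_of_pos hp]
    have h4 : |r * Sr 1 (fun k => cf A B C (k + 1)) (r * x) - b * Sr 0 (cf A B C) (r * x)|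
        ≤ (r * M + b) * Sr 0 (cf A B C) (r * x) := by
      refine (abs_sub _ _).trans ?_
      rw [abs_mul, abs_mul, abs_of_pos hr, abs_of_pos hb0, abs_of_pos h1]
      nlinarith [mul_le_mul_of_nonneg_left h2 hr.le]
    have h5 : (r * M + b) * Sr 0 (cf A B C) (r * x) ≤ (M + (r * M + b) * M) * exp (r * x) := by
      have := mul_le_mul_of_nonneg_left h3 (show 0 ≤ r * M + b by positivity)
      have : 0 ≤ M * exp (r * x) := by positivity
      nlinarith
    nlinarith [mul_le_mul_of_nonneg_left (h4.trans h5) hp.le]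

theorem integrableOn_of_exp_bound {f : ℝ → ℝ} {M ε s : ℝ}
    (hm : AEStronglyMeasurable f (volume.restrict (Ioi 0)))
    (hf : ∀ x, 0 < x → |f x| ≤ M * exp (-ε * x)) (hs : -ε < s) :
    IntegrableOn (fun x => exp (-(s * x)) * f x) (Ioi 0) := by
  refine ((integrableOn_exp_mul_Ioi (show -(s + ε) < 0 by linarith) 0).const_mul M).mono'
    (AEStronglyMeasurable.mul (by fun_prop) hm) ?_
  filter_upwards [ae_restrict_mem measurableSet_Ioi] with x hx
  rw [Real.norm_eq_abs, abs_mul, abs_of_pos (exp_pos _),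
    show -(s + ε) * x = -(s * x) + -ε * x by ring, exp_add]
  nlinarith [mul_le_mul_of_nonneg_left (hf x hx) (exp_pos (-(s * x))).le]

theorem Setup.key_all {P : Measure ℝ} {A B C r b s : ℝ} (h : Setup P A B C r b)
    (hg : Good (cf A B C)) (hs : r - b < s) :
    ∫ x, x * exp (-(s * x)) ∂P = Gt A B C r b s * lap P s := by
  obtain ⟨M, -, hM⟩ := good_kf h.hr h.hb hg
  obtain ⟨R, hR⟩ := cf_geo A B h.hC
  have hc := kf_continuous A B r b h.hC
  have h0 : ∀ x, 0 < x → 0 ≤ kf A B C r b x := fun x hx => (hM x hx.le).1.le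
  have hE : ExpInt (law (kf A B C r b)) (r - b) := by
    intro u hu
    rw [law_integrable hc.aemeasurable h0]
    exact integrableOn_of_exp_bound (M := M) (ε := b - r) hc.aestronglyMeasurable
      (fun x hx => by rw [abs_of_nonneg (h0 x hx)]; exact (hM x hx.le).2.1) (by linarith)
  have hG : ∀ u, Gt A B C r b u = lap (law (kf A B C r b)) u :=
    fun u => (law_integral hc.aemeasurable h0 _).symm
  have hA : AnalyticOnNhd ℝ (fun u => deriv (lap P) u + lap (law (kf A B C r b)) u * lap P u)
      (Ioi (r - b)) := h.int.analytic.deriv.add (hE.analytic.mul h.int.analytic)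
  have h1 : r ≤ r * R := le_mul_of_one_le_right h.hr.le hR.1
  have hb0 : 0 < b := h.hr.trans h.hb
  have h2 := hA.eqOn_zero_of_preconnected_of_eventuallyEq_zero isPreconnected_Ioi
    (z₀ := r * R) (show r - b < r * R by linarith) (by
      filter_upwards [lt_mem_nhds (show r * R - b < r * R by linarith)] with u hu
      rw [(h.int.hasDerivAt (by linarith)).deriv, h.key_large hR (by linarith), hG]
      simp) hs
  simp only [Pi.zero_apply] at h2
  rw [(h.int.hasDerivAt hs).deriv, ← hG] at h2
  linarith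

theorem Setup.log_deriv {P : Measure ℝ} {A B C r b s : ℝ} (h : Setup P A B C r b)
    (hg : Good (cf A B C)) (hs : r - b < s) :
    HasDerivAt (fun u => log (lap P u)) (-Gt A B C r b s) s := by
  have := h.prob
  have hp := h.int.pos hs
  refine ((h.int.hasDerivAt hs).log hp.ne').congr_deriv ?_
  rw [h.key_all hg hs]
  field_simp

theorem Setup.sd_of_kd {P : Measure ℝ} {A B C r b : ℝ} (h : Setup P A B C r b)
    (hg : Good (cf A B C)) (hk : ∀ x, 0 < x → kd A B C r b x ≤ 0) : IsSD P := by
  have := h.prob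
  intro c hc0 hc1
  obtain ⟨M, hM0, hM⟩ := good_kf h.hr h.hb hg
  have hb : r - b < 0 := by linarith [h.hb]
  have hc := kf_continuous A B r b h.hC
  have hd := kf_deriv A B r b h.hC
  have hci : 1 < c⁻¹ := (one_lt_inv₀ hc0).2 hc1
  set n : ℝ → ℝ := fun x => (kf A B C r b x - kf A B C r b (c⁻¹ * x)) / x with hn
  have hnm : Measurable n := by
    have := hc.measurable
    fun_prop
  have hanti : AntitoneOn (kf A B C r b) (Ioi 0) :=
    antitoneOn_of_deriv_nonpos (convex_Ioi 0) hc.continuousOn
      (fun x _ => (hd x).differentiableAt.differentiableWithinAt) (fun x hx => by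
        rw [(hd x).deriv]
        exact hk x (interior_subset hx))
  have hle : ∀ x, 0 < x → x ≤ c⁻¹ * x := fun x hx => le_mul_of_one_le_left hx.le hci.le
  have hn0 : ∀ x, 0 < x → 0 ≤ n x := fun x hx =>
    div_nonneg (sub_nonneg.2 (hanti hx (hx.trans_le (hle x hx)) (hle x hx))) hx.le
  have hn1 : ∀ x, 0 < x → |n x| ≤ (c⁻¹ - 1) * M * exp (-(b - r) * x) := by
    intro x hx
    have h1 := norm_image_sub_le_of_norm_deriv_le_segment' (a := x) (b := c⁻¹ * x)
      (f := kf A B C r b) (C := M * exp (-(b - r) * x)) (fun y _ => (hd y).hasDerivWithinAt)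
      (fun y hy => ((hM y (hx.le.trans hy.1)).2.2).trans (mul_le_mul_of_nonneg_left
        (exp_le_exp.2 (by nlinarith [hy.1])) hM0)) (c⁻¹ * x) ⟨hle x hx, le_rfl⟩
    simp only [hn]
    rw [abs_div, abs_of_pos hx, div_le_iff₀ hx, abs_sub_comm]
    rw [Real.norm_eq_abs] at h1
    linarith
  have hE : ExpInt (law n) (r - b) := by
    intro u hu
    rw [law_integrable hnm.aemeasurable hn0]
    exact integrableOn_of_exp_bound hnm.aestronglyMeasurable hn1 (by linarith)
  have : IsFiniteMeasure (law n) := by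
    constructor
    rw [← elap_zero, elap_eq (hE 0 hb)]
    exact ENNReal.ofReal_lt_top
  obtain ⟨Q, hQ, hQ'⟩ := exists_compound (law n) ((law_pos n).mono (fun x hx => hx.le))
  have hki : ∀ u, r - b < u → IntegrableOn (fun x => exp (-(u * x)) * kf A B C r b x) (Ioi 0) :=
    fun u hu => integrableOn_of_exp_bound (M := M) (ε := b - r) hc.aestronglyMeasurable
      (fun x hx => by rw [abs_of_pos (hM x hx.le).1]; exact (hM x hx.le).2.1) (by linarith)
  have hN : ∀ u, 0 < u → ∫ x, x * exp (-(u * x)) ∂(law n)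
      = Gt A B C r b u - c * Gt A B C r b (c * u) := by
    intro u hu
    have hcu : r - b < c * u := hb.trans (by positivity)
    have e : ∀ x, exp (-(c * u * (c⁻¹ * x))) = exp (-(u * x)) := by
      intro x
      congr 2
      field_simp
    have i2 := (integrableOn_Ioi_comp_mul_left_iff
      (fun y => exp (-(c * u * y)) * kf A B C r b y) 0 (inv_pos.2 hc0)).2
      (by simpa using hki _ hcu)
    have e2 := integral_comp_mul_left_Ioi (fun y => exp (-(c * u * y)) * kf A B C r b y) 0
      (inv_pos.2 hc0)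
    simp only [e, inv_inv, mul_zero, smul_eq_mul] at i2 e2
    rw [law_integral hnm.aemeasurable hn0, Gt, Gt, ← e2, ← integral_sub (hki u (hb.trans hu)) i2]
    refine setIntegral_congr_fun measurableSet_Ioi (fun x hx => ?_)
    have hx' : x ≠ 0 := ne_of_gt hx
    simp only [hn]
    field_simp
  have hD : ∀ u, 0 ≤ u → HasDerivAt
      (fun u => log (lap P u) - log (lap P (c * u)) - lap (law n) u)
      (-Gt A B C r b u - -Gt A B C r b (c * u) * (c * 1) - -∫ x, x * exp (-(u * x)) ∂(law n)) u :=
    fun u hu => ((h.log_deriv hg (hb.trans_le hu)).sub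
      ((h.log_deriv hg (hb.trans_le (by positivity))).comp u
        ((hasDerivAt_id u).const_mul c))).sub (hE.hasDerivAt (hb.trans_le hu))
  refine ⟨Q, hQ, elap_unique (h.pos.mono (fun x hx => hx.le)) (fun s hs => ?_)⟩
  have h1 := eq_of_deriv_zero (F := fun u => log (lap P u) - log (lap P (c * u)) - lap (law n) u)
    hs (fun u hu => (hD u hu.1).continuousAt.continuousWithinAt) (fun u hu => by
      refine (hD u hu.le).congr_deriv ?_
      rw [hN u hu]
      ring)
  simp only [mul_zero, sub_self, zero_sub] at h1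
  have hcs : r - b < c * s := hb.trans_le (by positivity)
  have p1 := h.int.pos (hb.trans_le hs)
  have p2 := h.int.pos hcs
  rw [elap_conv, elap_map, hQ' s hs, elap_eq (h.int s (hb.trans_le hs)), elap_eq (h.int _ hcs),
    ← ENNReal.ofReal_mul p2.le]
  congr 1
  rw [← exp_log p1, ← exp_log p2, ← exp_add]
  congr 1
  linarith

theorem deriv_nonpos_of_left {φ : ℝ → ℝ} {d : ℝ} (h : HasDerivAt φ d 1) (h1 : φ 1 = 0)
    (h0 : ∀ c, 0 < c → c < 1 → 0 ≤ φ c) : d ≤ 0 := by
  refine le_of_tendsto (hasDerivAt_iff_tendsto_slope_left_right.1 h).1 ?_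
  filter_upwards [Ioo_mem_nhdsLT (zero_lt_one' ℝ)] with c hc
  rw [slope_def_field, h1, sub_zero]
  exact div_nonpos_of_nonneg_of_nonpos (h0 c hc.1 hc.2) (by linarith [hc.2])

theorem Setup.kd_of_sd {P : Measure ℝ} {A B C r b : ℝ} (h : Setup P A B C r b)
    (hg : Good (cf A B C)) (hS : IsSD P) {x0 : ℝ} (hx0 : 0 < x0) : kd A B C r b x0 ≤ 0 := by
  have := h.prob
  obtain ⟨M, hM0, hM⟩ := good_kf h.hr h.hb hg
  have hb : r - b < 0 := by linarith [h.hb]
  have hc := kf_continuous A B r b h.hC
  have hc' := kd_continuous A B r b h.hC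
  have hd := kf_deriv A B r b h.hC
  have hP0 : ∀ᵐ x ∂P, 0 ≤ x := h.pos.mono (fun x hx => hx.le)
  have hki : ∀ u, 0 ≤ u → IntegrableOn (fun x => exp (-(u * x)) * kf A B C r b x) (Ioi 0) :=
    fun u hu => integrableOn_of_exp_bound (M := M) (ε := b - r) hc.aestronglyMeasurable
      (fun x hx => by rw [abs_of_pos (hM x hx.le).1]; exact (hM x hx.le).2.1) (by linarith)
  have hdi : ∀ u, 0 ≤ u → IntegrableOn (fun x => exp (-(u * x)) * kd A B C r b x) (Ioi 0) :=
    fun u hu => integrableOn_of_exp_bound (M := M) (ε := b - r) hc'.aestronglyMeasurable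
      (fun x hx => (hM x hx.le).2.2) (by linarith)
  have hdi0 : IntegrableOn (kd A B C r b) (Ioi 0) := by simpa using hdi 0 le_rfl
  have hpos : ∀ c, 0 < c → c < 1 → ∀ p : Polynomial ℝ, (∀ y ∈ Icc (0 : ℝ) 1, 0 ≤ p.eval y) →
      0 ≤ ∑ n ∈ Finset.range (p.natDegree + 1), p.coeff n * (lap P n / lap P (c * n)) := by
    intro c hc0 hc1 p hp
    obtain ⟨Q, hQ, hPQ⟩ := hS c hc0 hc1
    have h1 : ∀ s, 0 ≤ s → elap P s = elap P (c * s) * elap Q s := by
      intro s _
      conv_lhs => rw [hPQ]
      rw [elap_conv, elap_map]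
    have hcs : ∀ s, 0 ≤ s → r - b < c * s := fun s hs => hb.trans_le (by positivity)
    have hQ0 : ∀ᵐ x ∂Q, 0 ≤ x := nonneg_of_elap ENNReal.one_ne_top (fun s hs => by
      have h2 := elap_anti hP0 (show c * s ≤ s by nlinarith)
      rw [h1 s hs] at h2
      have h3 : elap P (c * s) ≠ 0 := by
        rw [elap_eq (h.int _ (hcs s hs))]
        exact (ENNReal.ofReal_pos.2 (h.int.pos (hcs s hs))).ne'
      have h4 : elap P (c * s) ≠ ⊤ := by
        rw [elap_eq (h.int _ (hcs s hs))]
        exact ENNReal.ofReal_ne_top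
      rw [← ENNReal.mul_le_mul_iff_right h3 h4, mul_one]
      exact h2)
    have hQ1 : ∀ s, 0 ≤ s → lap P s / lap P (c * s) = lap Q s := by
      intro s hs
      have h2 := h1 s hs
      have p2 := h.int.pos (hcs s hs)
      have q0 : 0 ≤ lap Q s := integral_nonneg (fun _ => (exp_pos _).le)
      rw [elap_eq (h.int s (hb.trans_le hs)), elap_eq (h.int _ (hcs s hs)),
        elap_eq (integrable_exp_of_nonneg hQ0 hs), ← ENNReal.ofReal_mul p2.le,
        ENNReal.ofReal_eq_ofReal_iff (h.int.pos (hb.trans_le hs)).le (by positivity)] at h2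
      rw [h2]
      field_simp
    have e : ∀ (n : ℕ) (x : ℝ), exp (-x) ^ n = exp (-((n : ℝ) * x)) := by
      intro n x
      rw [← exp_nat_mul]
      ring_nf
    have h5 : 0 ≤ ∫ x, p.eval (exp (-x)) ∂Q := integral_nonneg_of_ae (by
      filter_upwards [hQ0] with x hx
      exact hp _ ⟨(exp_pos _).le, exp_le_one_iff.2 (by linarith)⟩)
    simp only [Polynomial.eval_eq_sum_range, e] at h5
    rw [integral_finsetSum _ (fun n _ =>
      (integrable_exp_of_nonneg hQ0 (Nat.cast_nonneg n)).const_mul _)] at h5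
    simp only [hQ1 _ (Nat.cast_nonneg _)]
    simpa only [integral_const_mul, lap] using h5
  have hibp : ∀ n : ℕ, ∫ x in Ioi 0, exp (-((n : ℝ) * x)) * kd A B C r b x
      = n * Gt A B C r b n - kf A B C r b 0 := by
    intro n
    have hn : (0 : ℝ) ≤ n := Nat.cast_nonneg n
    have t0 : Tendsto (fun x => exp (-((n : ℝ) * x)) * kf A B C r b x) atTop (𝓝 0) := by
      have t1 : Tendsto (fun x => M * exp (-(b - r) * x)) atTop (𝓝 (M * 0)) :=
        (tendsto_exp_atBot.comp (tendsto_id.const_mul_atTop_of_neg (by linarith))).const_mul M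
      rw [mul_zero] at t1
      refine squeeze_zero' ?_ ?_ t1
      · filter_upwards [eventually_ge_atTop 0] with x hx
        exact mul_nonneg (exp_pos _).le (hM x hx).1.le
      · filter_upwards [eventually_ge_atTop 0] with x hx
        refine le_trans (mul_le_of_le_one_left (hM x hx).1.le ?_) (hM x hx).2.1
        rw [exp_le_one_iff, neg_nonpos]
        positivity
    have h1 := integral_Ioi_of_hasDerivAt_of_tendsto' (a := 0)
      (f := fun x => exp (-((n : ℝ) * x)) * kf A B C r b x)
      (f' := fun x => exp (-((n : ℝ) * x)) * kd A B C r b x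
        - n * (exp (-((n : ℝ) * x)) * kf A B C r b x))
      (fun x _ => by
        refine (((hasDerivAt_id x).const_mul (n : ℝ)).neg.exp.mul (hd x)).congr_deriv ?_
        simp only [id, Pi.neg_apply]
        ring) ((hdi n hn).sub ((hki n hn).const_mul _)) t0
    rw [integral_sub (hdi n hn) ((hki n hn).const_mul _), integral_const_mul] at h1
    simp only [mul_zero, neg_zero, exp_zero, one_mul] at h1
    rw [Gt]
    linarith
  have := pos_transfer (f := fun x => -kd A B C r b x) hc'.neg.continuousOn hdi0.neg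
    (fun p hp hp1 => ?_) hx0
  · linarith
  have hs1 : ∑ n ∈ Finset.range (p.natDegree + 1), p.coeff n = 0 := by
    rw [Polynomial.eval_eq_sum_range] at hp1
    simpa using hp1
  have hD : HasDerivAt (fun c => ∑ n ∈ Finset.range (p.natDegree + 1),
      p.coeff n * (lap P n / lap P (c * n)))
      (∑ n ∈ Finset.range (p.natDegree + 1), p.coeff n * (n * Gt A B C r b n)) 1 := by
    refine HasDerivAt.fun_sum (fun n _ => HasDerivAt.const_mul _ ?_)
    have hn : r - b < (n : ℝ) := hb.trans_le (Nat.cast_nonneg n)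
    have p1 := h.int.pos hn
    have d1 : HasDerivAt (fun c : ℝ => lap P (c * n))
        ((-∫ x, x * exp (-((n : ℝ) * x)) ∂P) * (1 * n)) 1 := by
      have d0 := h.int.hasDerivAt hn
      rw [← one_mul (n : ℝ)] at d0
      simpa only [one_mul, Function.comp_def, id] using
        d0.comp (1 : ℝ) ((hasDerivAt_id (1 : ℝ)).mul_const (n : ℝ))
    refine ((hasDerivAt_const (1 : ℝ) (lap P n)).div d1 (by simpa using p1.ne')).congr_deriv ?_
    rw [h.key_all hg hn]
    simp only [one_mul]
    field_simp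
    ring
  have h6 := deriv_nonpos_of_left hD (by
    rw [← hs1]
    refine Finset.sum_congr rfl (fun n _ => ?_)
    have p1 := h.int.pos (hb.trans_le (Nat.cast_nonneg n))
    rw [one_mul, div_self p1.ne', mul_one]) (fun c h0 h1 => hpos c h0 h1 p hp)
  simp only [mul_neg]
  rw [integral_neg, poly_integral hdi0]
  simp only [hibp, mul_sub, Finset.sum_sub_distrib, ← Finset.sum_mul, hs1]
  linarith

theorem Setup.sd_iff {P : Measure ℝ} {A B C r b : ℝ} (h : Setup P A B C r b)
    (hg : Good (cf A B C)) : IsSD P ↔ ∀ y, 0 < y →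
      r * Sr 1 (fun k => cf A B C (k + 1)) y ≤ b * Sr 0 (cf A B C) y := by
  have hr := h.hr
  constructor
  · intro hS y hy
    have h1 := h.kd_of_sd hg hS (show 0 < y / r by positivity)
    rw [kd, mul_div_cancel₀ _ hr.ne'] at h1
    have h2 := nonpos_of_mul_nonpos_right h1 (exp_pos _)
    linarith
  · intro H
    refine h.sd_of_kd hg (fun x hx => ?_)
    exact mul_nonpos_of_nonneg_of_nonpos (exp_pos _).le (sub_nonpos.2 (H _ (by positivity)))

end Pool.Agent.P.MP_ede858_pr
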