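import Mathlib
import Pool.Agent.P.MP_ede858_pr.SD

set_option autoImplicit false

open Set Filter Topology MeasureTheory ProbabilityTheory Real

namespace Pool.Agent.P.MP_ede858_pr

/-! The threshold `kap`. -/

theorem lev_hasDerivAt (A B : ℝ) {C : ℝ} (hC : 0 < C) (x : ℝ) :
    HasDerivAt (lev A B C) (Sr 1 (fun k => cf A B C (k + 1)) x) x := by
  obtain ⟨R, hg⟩ := cf_geo A B hC
  exact hg.hasDerivAt0 x

theorem kap_isLUB {A B C : ℝ} (hC : 0 < C) (hg : Good (cf A B C)) :
    IsLUB {y : ℝ | ∃ x : ℝ, 0 < x ∧ y = deriv (lev A B C) x / lev A B C x} (kap A B C) := by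
  obtain ⟨M, hM⟩ := hg
  refine isLUB_csSup ⟨_, 1, one_pos, rfl⟩ ⟨M, ?_⟩
  rintro y ⟨x, hx, rfl⟩
  obtain ⟨h1, h2, -⟩ := hM x hx.le
  rw [(lev_hasDerivAt A B hC x).deriv, lev_eq, div_le_iff₀ h1]
  exact (le_abs_self _).trans h2

theorem kap_le_iff {A B C r b : ℝ} (hC : 0 < C) (hg : Good (cf A B C)) (hr : 0 < r) :
    kap A B C * r ≤ b ↔ ∀ y, 0 < y →
      r * Sr 1 (fun k => cf A B C (k + 1)) y ≤ b * Sr 0 (cf A B C) y := by
  rw [← le_div_iff₀ hr, isLUB_le_iff (kap_isLUB hC hg)]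
  obtain ⟨M, hM⟩ := hg
  constructor
  · intro h y hy
    have h1 := h ⟨y, hy, rfl⟩
    rw [(lev_hasDerivAt A B hC y).deriv, lev_eq, div_le_div_iff₀ (hM y hy.le).1 hr] at h1
    linarith
  · rintro h y ⟨x, hx, rfl⟩
    rw [(lev_hasDerivAt A B hC x).deriv, lev_eq, div_le_div_iff₀ (hM x hx.le).1 hr]
    linarith [h x hx]

theorem Setup.sd_iff_kap {P : Measure ℝ} {A B C r b : ℝ} (h : Setup P A B C r b)
    (hg : Good (cf A B C)) : IsSD P ↔ kap A B C * r ≤ b := by
  rw [h.sd_iff hg, kap_le_iff h.hC hg h.hr]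

theorem L0_tendsto {A B C : ℝ} (hA : 0 < A) (hB : 0 < B) (hC : 0 < C) (hs : 0 ≤ A + B - C) :
    Tendsto (fun u : ℝ => L0 A B C (u ^ 2)) (𝓝[<] 1) atTop := by
  have hp := hyp_pos hA hB hC
  have h1 : ∀ k : ℕ, hyp A B C 1 * (1 / ((k : ℝ) + 1)) ≤ hyp A B C (k + 1) := by
    intro k
    induction k with
    | zero => simp
    | succ k ih =>
      have hk : (0 : ℝ) ≤ k := Nat.cast_nonneg k
      have h2 := hyp_succ A B hC (k + 1)
      push_cast at h2 ⊢
      rw [mul_one_div, div_le_iff₀ (by positivity)] at ih ⊢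
      have h3 : 0 < C + (k + 1) := by positivity
      refine le_of_mul_le_mul_right ?_ h3
      have h4 : (k + 1) * (C + (k + 1)) ≤ (A + (k + 1)) * (B + (k + 1)) := by
        nlinarith [mul_pos hA hB, mul_nonneg hs (show (0 : ℝ) ≤ k + 1 by positivity)]
      have h5 := mul_le_mul_of_nonneg_left h4 (hp (k + 1)).le
      have h6 := mul_le_mul_of_nonneg_right ih h3.le
      nlinarith
  have h2 : Tendsto (fun N => ∑ k ∈ Finset.range N, hyp A B C (k + 1)) atTop atTop := by
    refine tendsto_atTop_mono (fun N => Finset.sum_le_sum (fun k _ => h1 k)) ?_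
    simp only [← Finset.mul_sum]
    exact tendsto_sum_range_one_div_nat_succ_atTop.const_mul_atTop (hp 1)
  rw [tendsto_atTop]
  intro T
  obtain ⟨N, hN⟩ := (h2.eventually_gt_atTop T).exists
  have h3 : Tendsto (fun u : ℝ => ∑ k ∈ Finset.range (N + 1), hyp A B C k * (u ^ 2) ^ k) (𝓝 1)
      (𝓝 (∑ k ∈ Finset.range (N + 1), hyp A B C k * ((1 : ℝ) ^ 2) ^ k)) :=
    Continuous.tendsto (by fun_prop) 1
  have h4 : T < ∑ k ∈ Finset.range (N + 1), hyp A B C k * ((1 : ℝ) ^ 2) ^ k := by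
    rw [Finset.sum_range_succ']
    simp only [one_pow, mul_one]
    linarith [hp 0]
  filter_upwards [nhdsWithin_le_nhds (h3.eventually (lt_mem_nhds h4)),
    Ioo_mem_nhdsLT (zero_lt_one' ℝ)] with u hu hu1
  refine hu.le.trans ?_
  exact (summable_hyp hA hB hC (sq_nonneg u) (pow_lt_one₀ hu1.1.le hu1.2 two_ne_zero)).sum_le_tsum
    _ (fun k _ => mul_nonneg (hp k).le (by positivity))

theorem L1_lower {A B C s : ℝ} (hA : 0 < A) (hB : 0 < B) (hC : 0 < C) (hs : s < A + B - C) :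
    ∃ C0, ∀ w, 0 ≤ w → w < 1 → 2 * s * L0 A B C w - C0 ≤ (1 - w) * L1 A B C w := by
  have hp := hyp_pos hA hB hC
  set v : ℕ → ℝ := fun k => 2 * (B + k) * hyp A B C k
    - prev 0 (fun j : ℕ => 2 * (B + j) * hyp A B C j) k - 2 * s * hyp A B C k with hv
  obtain ⟨N, hN⟩ : ∃ N : ℕ, ∀ k, N ≤ k → 0 ≤ v k := by
    obtain ⟨N, hN⟩ := exists_nat_ge ((C + s * A - A * B - A) / (A + B - C - s))
    refine ⟨N + 1, fun k hk => ?_⟩
    obtain ⟨j, rfl⟩ : ∃ j, k = j + 1 := ⟨k - 1, by omega⟩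
    have hj : (N : ℝ) ≤ j := by exact_mod_cast (by omega : N ≤ j)
    have hj0 : (0 : ℝ) ≤ j := Nat.cast_nonneg j
    have h1 := hyp_succ A B hC j
    have h2 : C + s * A - A * B - A ≤ j * (A + B - C - s) :=
      (div_le_iff₀ (by linarith)).1 (hN.trans hj)
    have h3 : 0 < A + j := by positivity
    refine le_of_mul_le_mul_right ?_ h3
    simp only [hv, prev_succ]
    push_cast
    have h4 := mul_nonneg (hp (j + 1)).le (sub_nonneg.2 h2)
    nlinarith
  refine ⟨∑ k ∈ Finset.range N, |v k|, fun w hw hw1 => ?_⟩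
  have s0 := (summable_hyp hA hB hC hw hw1).hasSum
  have s1 := (summable_hyp1 hA hB hC hw hw1).hasSum
  have s2 : HasSum (fun k => prev 0 (fun j : ℕ => 2 * (B + j) * hyp A B C j) k * w ^ k)
      (w * L1 A B C w) := by
    rw [← hasSum_nat_add_iff' 1]
    simp only [prev_succ, Finset.range_one, Finset.sum_singleton, prev_zero, zero_mul, sub_zero]
    exact (s1.mul_left w).congr_fun (fun k => by ring)
  have s3 : HasSum (fun k => v k * w ^ k)
      (L1 A B C w - w * L1 A B C w - 2 * s * L0 A B C w) :=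
    ((s1.sub s2).sub (s0.mul_left (2 * s))).congr_fun (fun k => by simp only [hv]; ring)
  have h5 := sum_le_hasSum (Finset.range N) (fun k hk =>
    mul_nonneg (hN k (by simpa using hk)) (pow_nonneg hw k)) s3
  have h6 : -∑ k ∈ Finset.range N, |v k| ≤ ∑ k ∈ Finset.range N, v k * w ^ k := by
    rw [← Finset.sum_neg_distrib]
    refine Finset.sum_le_sum (fun k _ => ?_)
    have h7 := neg_abs_le (v k * w ^ k)
    rw [abs_mul, abs_of_nonneg (pow_nonneg hw k)] at h7
    have h8 := mul_le_of_le_one_right (abs_nonneg (v k)) (pow_le_one₀ (n := k) hw hw1.le)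
    linarith
  linarith

theorem Setup.one_lt_kap {P : Measure ℝ} {A B C r b : ℝ} (h : Setup P A B C r b)
    (hg : Good (cf A B C)) {x0 : ℝ} (hx0 : 0 ≤ x0)
    (hdip : exp (-x0) * Sr 0 (cf A B C) x0 < A + B - C) : 1 < kap A B C := by
  have := h.prob
  by_contra hk
  have hle := (kap_le_iff (r := 1) (b := 1) h.hC hg one_pos).1 (by linarith [not_lt.1 hk])
  simp only [one_mul] at hle
  obtain ⟨R, hR⟩ := cf_geo A B h.hC
  obtain ⟨M', -, hM'⟩ := good_kf h.hr h.hb hg
  have hg' := hg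
  obtain ⟨M, hM⟩ := hg'
  have hr := h.hr
  set l := exp (-x0) * Sr 0 (cf A B C) x0 with hl
  have hl0 : 0 < l := mul_pos (exp_pos _) (hM x0 hx0).1
  have hM0 : 0 ≤ M := by
    have := (hM 0 le_rfl).1.trans_le (hM 0 le_rfl).2.2
    simpa using this.le
  have hd : ∀ y, HasDerivAt (fun y => exp (-y) * Sr 0 (cf A B C) y)
      (exp (-y) * (Sr 1 (fun k => cf A B C (k + 1)) y - Sr 0 (cf A B C) y)) y := fun y => by
    refine ((hasDerivAt_id y).neg.exp.mul (hR.hasDerivAt0 y)).congr_deriv ?_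
    simp only [id, Pi.neg_apply]
    ring
  have hanti : AntitoneOn (fun y => exp (-y) * Sr 0 (cf A B C) y) (Ici 0) :=
    antitoneOn_of_deriv_nonpos (convex_Ici 0)
      (fun y _ => (hd y).continuousAt.continuousWithinAt)
      (fun y _ => (hd y).differentiableAt.differentiableWithinAt) (fun y hy => by
        rw [interior_Ici] at hy
        rw [(hd y).deriv]
        exact mul_nonpos_of_nonneg_of_nonpos (exp_pos _).le (sub_nonpos.2 (hle y hy)))
  set D := M * exp (2 * x0) with hD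
  have hD0 : 0 ≤ D := by positivity
  have hb : ∀ y, 0 ≤ y → Sr 0 (cf A B C) y ≤ l * exp y + D * exp (-y) := by
    intro y hy
    rcases le_total x0 y with h1 | h1
    · have h2 : exp (-y) * Sr 0 (cf A B C) y ≤ l := hanti hx0 hy h1
      have h3 := mul_le_mul_of_nonneg_left h2 (exp_pos y).le
      rw [← mul_assoc, ← exp_add, add_neg_cancel, exp_zero, one_mul] at h3
      have : 0 ≤ D * exp (-y) := by positivity
      linarith
    · have h2 : M * exp y ≤ D * exp (-y) := by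
        rw [hD, mul_assoc, ← exp_add]
        exact mul_le_mul_of_nonneg_left (exp_le_exp.2 (by linarith)) hM0
      have : 0 ≤ l * exp y := by positivity
      linarith [(hM y hy).2.2]
  have hG : ∀ σ, r < σ → Gt A B C r b (σ - b) ≤ l / (σ - r) + D / (σ + r) := by
    intro σ hσ
    have n1 : -(σ - r) < 0 := by linarith
    have n2 : -(σ + r) < 0 := by linarith
    have i0 : IntegrableOn (fun x => exp (-((σ - b) * x)) * kf A B C r b x) (Ioi 0) :=
      integrableOn_of_exp_bound (M := M') (ε := b - r)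
        (kf_continuous A B r b h.hC).aestronglyMeasurable
        (fun x hx => by rw [abs_of_pos (hM' x hx.le).1]; exact (hM' x hx.le).2.1) (by linarith)
    have i1 := (integrableOn_exp_mul_Ioi n1 0).const_mul l
    have i2 := (integrableOn_exp_mul_Ioi n2 0).const_mul D
    have h1 : Gt A B C r b (σ - b)
        ≤ ∫ x in Ioi 0, (l * exp (-(σ - r) * x) + D * exp (-(σ + r) * x)) := by
      refine setIntegral_mono_on i0 (i1.add i2) measurableSet_Ioi (fun x hx => ?_)
      have hx' : 0 < x := hx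
      have h2 := mul_le_mul_of_nonneg_left (hb (r * x) (by positivity)) (exp_pos (-(σ * x))).le
      rw [kf, lev_eq, ← mul_assoc, ← exp_add, show -((σ - b) * x) + -(b * x) = -(σ * x) by ring,
        show -(σ - r) * x = -(σ * x) + r * x by ring,
        show -(σ + r) * x = -(σ * x) + -(r * x) by ring, exp_add, exp_add]
      linarith
    rw [integral_add i1 i2, integral_const_mul, integral_const_mul, integral_exp_mul_Ioi n1,
      integral_exp_mul_Ioi n2] at h1
    simp only [mul_zero, exp_zero, neg_div_neg_eq] at h1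
    simpa only [mul_one_div] using h1
  have hW : ∀ u, 0 < u → u < 1 → (1 - u ^ 2) * L1 A B C (u ^ 2)
      ≤ (l * (1 + u) + D * (1 - u)) * L0 A B C (u ^ 2) := by
    intro u hu hu1
    have hσ : r < r / u := (lt_div_iff₀ hu).2 (by nlinarith)
    have hs : r - b < r / u - b := by linarith
    have h1 := h.ser _ hs
    rw [h.key_all hg hs, sub_add_cancel, show r / (r / u) = u by field_simp] at h1
    have p1 := h.int.pos hs
    have h2 : r / u * Gt A B C r b (r / u - b) * L0 A B C (u ^ 2) = L1 A B C (u ^ 2) := by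
      apply mul_left_cancel₀ p1.ne'
      linear_combination h1
    have h3 := L0_pos h.hA h.hB h.hC (sq_nonneg u) (pow_lt_one₀ hu.le hu1 two_ne_zero)
    have h4 : 0 < 1 - u := by linarith
    have h5 : (1 - u ^ 2) * (r / u) * (l / (r / u - r) + D / (r / u + r))
        = l * (1 + u) + D * (1 - u) := by
      have e1 : r / u - r = r * (1 - u) / u := by field_simp
      have e2 : r / u + r = r * (1 + u) / u := by field_simp
      rw [e1, e2]
      field_simp
      ring
    have h6 : 0 ≤ (1 - u ^ 2) * (r / u) := mul_nonneg (by nlinarith) (by positivity)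
    have h7 := mul_le_mul_of_nonneg_right (mul_le_mul_of_nonneg_left (hG _ hσ) h6) h3.le
    rw [h5] at h7
    rw [← h2]
    linarith
  set s := (l + (A + B - C)) / 2 with hs
  have hls : l < s := by linarith
  obtain ⟨C0, hC0⟩ := L1_lower h.hA h.hB h.hC (show s < A + B - C by linarith)
  have t1 : Tendsto (fun u : ℝ => l * (1 + u) + D * (1 - u)) (𝓝 1) (𝓝 (l * (1 + 1) + D * (1 - 1))) :=
    Continuous.tendsto (by fun_prop) 1
  have t2 := (L0_tendsto h.hA h.hB h.hC (by linarith)).eventually_gt_atTop (C0 / (s - l))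
  have t3 : ∀ᶠ u in 𝓝[<] (1 : ℝ), l * (1 + u) + D * (1 - u) < l + s :=
    (t1.eventually (gt_mem_nhds (show l * (1 + 1) + D * (1 - 1) < l + s by linarith))).filter_mono
      nhdsWithin_le_nhds
  have t4 : ∀ᶠ u in 𝓝[<] (1 : ℝ), u ∈ Ioo (0 : ℝ) 1 := Ioo_mem_nhdsLT (zero_lt_one' ℝ)
  obtain ⟨u, ⟨h1, h2⟩, hu⟩ := ((t3.and t2).and t4).exists
  have hu1 : u ^ 2 < 1 := pow_lt_one₀ hu.1.le hu.2 two_ne_zero
  have h3 := L0_pos h.hA h.hB h.hC (sq_nonneg u) hu1
  have h4 := hW u hu.1 hu.2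
  have h5 := hC0 _ (sq_nonneg u) hu1
  have h6 := mul_le_mul_of_nonneg_right h1.le h3.le
  rw [div_lt_iff₀ (by linarith)] at h2
  nlinarith

theorem kap_le_one {A B C : ℝ} (hA : 0 < A) (hB : 0 < B) (hC : 0 < C) (hAC : A ≤ C)
    (hBC : B ≤ C) : kap A B C ≤ 1 := by
  obtain ⟨hg, h⟩ := good_of_le hA hB hC hAC hBC
  have := (kap_le_iff (r := 1) (b := 1) hC hg one_pos).2 (fun y hy => by
    simpa using h y hy.le)
  linarith

theorem good_phi {μ ν : ℝ} (hμ : -1 < μ) (hρ : 0 < μ + ν) :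
    Good (cf ((μ + ν + 1) / 2) ((μ + ν) / 2) (μ + 1)) := by
  rcases le_or_gt ν (μ + 1) with h | h
  · exact (good_of_le (by linarith) (by linarith) (by linarith) (by linarith) (by linarith)).1
  · exact (good_phi_big hμ hρ h).1

theorem good_xi {μ : ℝ} (hμ : -1 / 4 < μ) : Good (cf (μ + 1 / 2) (2 * μ + 1 / 2) (μ + 1)) := by
  rcases le_or_gt μ (1 / 2) with h | h
  · exact (good_of_le (by linarith) (by linarith) (by linarith) (by linarith) (by linarith)).1
  · exact (good_xi_big (by linarith)).1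

theorem one_lt_kap_phi {μ ν : ℝ} (hμ : -1 < μ) (hρ : 0 < μ + ν) :
    1 < kap ((μ + ν + 1) / 2) ((μ + ν) / 2) (μ + 1) ↔ μ + 1 < ν := by
  constructor
  · intro h
    by_contra h1
    have := kap_le_one (A := (μ + ν + 1) / 2) (B := (μ + ν) / 2) (C := μ + 1) (by linarith)
      (by linarith) (by linarith) (by linarith [not_lt.1 h1]) (by linarith [not_lt.1 h1])
    linarith
  · intro h
    obtain ⟨x, hx, hd⟩ := dip_phi hμ hρ h
    exact (setup_phi hμ hρ one_pos one_lt_two).one_lt_kap (good_phi hμ hρ) hx (by linarith)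

theorem kap_phi_two {μ : ℝ} (hμ : -1 < μ) :
    kap ((μ + (μ + 2) + 1) / 2) ((μ + (μ + 2)) / 2) (μ + 1)
      = (2 * μ + 3) / √((2 * μ + 3) ^ 2 - 1) := by
  have hC : 0 < μ + 1 := by linarith
  have hg := good_phi (ν := μ + 2) hμ (by linarith)
  obtain ⟨R, hR⟩ := cf_geo ((μ + (μ + 2) + 1) / 2) ((μ + (μ + 2)) / 2) hC
  set q := 2 * μ + 3 with hq
  have hq1 : 1 < q := by linarith
  have hc : (fun k => cf ((μ + (μ + 2) + 1) / 2) ((μ + (μ + 2)) / 2) (μ + 1) (k + 1))
      = fun _ => q := by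
    funext k
    rw [cf_succ _ _ hC, coeff_yy_succ, WW_succ _ _ hC]
    ring
  have h0 : ∀ x, lev ((μ + (μ + 2) + 1) / 2) ((μ + (μ + 2)) / 2) (μ + 1) x = q * cosh x - 1 := by
    intro x
    rw [lev_eq, hR.split0, hc, Sr_const, Sr_one_two, cf_zero _ _ hC]
    ring
  have h1 : ∀ x, deriv (lev ((μ + (μ + 2) + 1) / 2) ((μ + (μ + 2)) / 2) (μ + 1)) x
      = q * sinh x := by
    intro x
    rw [(lev_hasDerivAt _ _ hC x).deriv, hc, Sr_const, Sr_one_one]
  have hp : 0 < q ^ 2 - 1 := by nlinarith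
  set p := √(q ^ 2 - 1) with hp'
  have hp0 : 0 < p := Real.sqrt_pos.2 hp
  have hp2 : p ^ 2 = q ^ 2 - 1 := Real.sq_sqrt hp.le
  refine (kap_isLUB hC hg).unique (IsGreatest.isLUB ⟨⟨arsinh p, arsinh_pos_iff.2 hp0, ?_⟩, ?_⟩)
  · rw [h0, h1, sinh_arsinh, cosh_arsinh, hp2, show 1 + (q ^ 2 - 1) = q ^ 2 by ring,
      Real.sqrt_sq (by linarith), show q * q - 1 = p ^ 2 by rw [hp2]; ring]
    field_simp
  · rintro y ⟨x, hx, rfl⟩
    have c1 := one_le_cosh x
    have c2 := cosh_sq x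
    have h2 : 0 < q * cosh x - 1 := by nlinarith
    rw [h0, h1, div_le_div_iff₀ h2 hp0]
    have h3 : sinh x * p + 1 ≤ q * cosh x := by
      apply le_of_sq_le_sq _ (by linarith)
      rw [mul_pow q, c2]
      nlinarith [sq_nonneg (sinh x - p)]
    nlinarith

theorem kap_xi_le {μ : ℝ} (hμ : 1 / 4 < μ) :
    kap (μ + 1 / 2) (2 * μ + 1 / 2) (μ + 1) ≤ (4 * μ + 1) / (4 * μ - 1) := by
  obtain ⟨hg, h⟩ := good_xi_big hμ
  rw [le_div_iff₀ (by linarith)]
  exact (kap_le_iff (by linarith) hg (by linarith)).2 (fun y hy => h y hy.le)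

end Pool.Agent.P.MP_ede858_pr
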