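import Mathlib
import Pool.Agent.P.MP_ede858_pr.Kap

set_option autoImplicit false

open Set Filter Topology MeasureTheory Real

namespace Pool.Agent.P.MP_ede858_pr

/-! For the squared Bessel family the threshold exceeds one as soon as `μ > 1 / 2`. -/

theorem dip_xi_small {μ : ℝ} (h1 : 1 / 2 < μ) (h2 : μ ≤ 1) :
    ∃ x, 0 ≤ x ∧ exp (-x) * Sr 0 (cf (μ + 1 / 2) (2 * μ + 1 / 2) (μ + 1)) x < 2 * μ := by
  have hC : 0 < μ + 1 := by linarith
  obtain ⟨θ, hθ, hI, hW⟩ := frac_unit_meas (gg_zero (1 / 2 - μ) (1 / 2) (μ + 1))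
    (gg_le_one (by linarith) (by linarith) hC) (gg_nonneg (by linarith) (by linarith) hC)
    (WW_frac _ _ hC)
  have hI' : ∀ᵐ t ∂θ, t ∈ Icc (-1 : ℝ) 1 := hI.mono (fun t ht => ⟨by linarith [ht.1], ht.2⟩)
  have hm1 : ∫ t, t ∂θ = 1 / 2 / (μ + 1) := by
    have h3 := hW 1
    have g1 := gg_odd (1 / 2 - μ) (1 / 2) (μ + 1) 0
    simp only [Nat.cast_zero, add_zero, mul_zero, zero_add] at g1
    rw [(frac_low (WW_frac _ _ hC)).2.1, al, gg_zero, zero_add, g1] at h3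
    simp only [pow_one] at h3
    rw [← h3]
    ring
  have hp : 0 < (2 * μ - 1) * (1 / 2 / (μ + 1)) := mul_pos (by linarith) (by positivity)
  set p := (2 * μ - 1) * (1 / 2 / (μ + 1)) with hp'
  set x := 8 / p + 1 with hx
  have hx1 : 1 ≤ x := by have : 0 < 8 / p := by positivity
                         linarith
  have hx0 : 0 ≤ x := by linarith
  obtain ⟨-, -, e0, -⟩ := rep_formula (c := cf (μ + 1 / 2) (2 * μ + 1 / 2) (μ + 1)) (s := 2 * μ)
    (m := -1) (Ω := 2 * μ - 1) (ω := fun t => (2 * μ - 1) * t) le_rfl hI' (by fun_prop) (by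
      filter_upwards [hI'] with t ht
      rw [abs_mul, abs_of_pos (by linarith)]
      exact mul_le_of_le_one_right (by linarith) (abs_le.2 ht))
    (by rw [cf_zero _ _ hC]; ring) (fun k => by
      rw [cf_succ _ _ hC, show μ + 1 - (μ + 1 / 2) = 1 / 2 by ring,
        show μ + 1 - (2 * μ + 1 / 2) = 1 / 2 - μ by ring, yy_symm, coeff_yy_succ, hW]
      simp only [pow_succ', mul_assoc]
      rw [integral_const_mul]
      ring) x
  have it : Integrable (fun t : ℝ => t) θ := Integrable.of_bound (by fun_prop) 1 (by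
    filter_upwards [hI'] with t ht
    exact abs_le.2 ht)
  have i2 := (Sr_integral θ (fun k t => t ^ (k + 1)) (fun k => by fun_prop)
    ((ae_geo le_rfl hI').mono (fun t ht => ht.succ)) 2 x).1
  simp only [pow_succ', Sr_mul] at i2
  have b := integral_mono_ae (it.mul_const (x ^ 2 / 2)) i2
    (hI.mono (fun t ht => (ker_two ht.2 hx0).2.2.1))
  rw [integral_mul_const, hm1] at b
  simp only [mul_assoc] at e0
  rw [integral_const_mul] at e0
  have b2 := mul_le_mul_of_nonneg_left b (show 0 ≤ 2 * μ - 1 by linarith)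
  rw [← mul_assoc, ← hp'] at b2
  have b3 : 4 ≤ p * (x ^ 2 / 2) := by
    have e : p * x = 8 + p := by rw [hx]; field_simp
    nlinarith
  refine ⟨x, hx0, ?_⟩
  have e1 : exp (-x) * exp x = 1 := by rw [← exp_add]; simp
  have e2 : exp (-x) ≤ 1 := exp_le_one_iff.2 (by linarith)
  have e3 := exp_pos (-x)
  rw [e0, cosh_eq]
  have b4 : 2 * μ * exp (-x) + 1 - (2 * μ - 1) * ∫ t, t * Sr 2 (fun k => t ^ k) x ∂θ < 0 := by
    nlinarith
  have b5 := mul_neg_of_pos_of_neg e3 b4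
  nlinarith

theorem yy_conv (a b c : ℝ) (k : ℕ) :
    ∑ i ∈ Finset.range (k + 1), hyp a b c i * PowerSeries.coeff (k - i) (yy a b c)
      = k * hyp a b c k := by
  have h : FF a b c * yy a b c = th (FF a b c) := by
    rw [yy]
    linear_combination th (FF a b c) * FF_mul_inv a b c
  have h2 := congrArg (PowerSeries.coeff k) h
  rw [PowerSeries.coeff_mul, coeff_th, Finset.Nat.sum_antidiagonal_eq_sum_range_succ
    (fun i j => PowerSeries.coeff i (FF a b c) * PowerSeries.coeff j (yy a b c))] at h2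
  simpa only [coeff_FF] using h2

theorem hyp_succ' (a b : ℝ) {c : ℝ} (hc : 0 < c) (k : ℕ) :
    hyp a b c (k + 1) = hyp a b c k * ((a + k) * (b + k)) / ((c + k) * (k + 1)) := by
  rw [eq_div_iff (by positivity)]
  exact hyp_succ a b hc k

theorem dip_xi_mid {μ : ℝ} (h1 : 1 ≤ μ) (h2 : μ ≤ 22) :
    exp (-4) * Sr 0 (cf (μ + 1 / 2) (2 * μ + 1 / 2) (μ + 1)) 4 < 2 * μ := by
  have hC : 0 < μ + 1 := by linarith
  have p2 : 0 < μ + 2 := by linarith
  have p3 : 0 < μ + 3 := by linarith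
  have p4 : 0 < μ + 4 := by linarith
  have p5 : 0 < μ + 5 := by linarith
  set y : ℕ → ℝ := fun k => PowerSeries.coeff k (yy (1 / 2) (1 / 2 - μ) (μ + 1)) with hy
  set f := hyp (1 / 2) (1 / 2 - μ) (μ + 1) with hf
  have f0 : f 0 = 1 := hyp_zero _ _ _
  have f1 : f 1 = (1 - 2 * μ) / (4 * (μ + 1)) := by
    have := hyp_succ' (1 / 2) (1 / 2 - μ) hC 0
    rw [← hf, f0] at this
    rw [this]
    push_cast
    field_simp
    ring
  have f2 : f 2 = 3 * (1 - 2 * μ) * (3 - 2 * μ) / (32 * (μ + 1) * (μ + 2)) := by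
    have := hyp_succ' (1 / 2) (1 / 2 - μ) hC 1
    rw [← hf, f1] at this
    rw [this, show μ + 1 + ((1 : ℕ) : ℝ) = μ + 2 by push_cast; ring]
    push_cast
    field_simp
    ring
  have f3 : f 3 = 5 * (1 - 2 * μ) * (3 - 2 * μ) * (5 - 2 * μ)
      / (128 * (μ + 1) * (μ + 2) * (μ + 3)) := by
    have := hyp_succ' (1 / 2) (1 / 2 - μ) hC 2
    rw [← hf, f2] at this
    rw [this, show μ + 1 + ((2 : ℕ) : ℝ) = μ + 3 by push_cast; ring]
    push_cast
    field_simp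
    ring
  have f4 : f 4 = 35 * (1 - 2 * μ) * (3 - 2 * μ) * (5 - 2 * μ) * (7 - 2 * μ)
      / (2048 * (μ + 1) * (μ + 2) * (μ + 3) * (μ + 4)) := by
    have := hyp_succ' (1 / 2) (1 / 2 - μ) hC 3
    rw [← hf, f3] at this
    rw [this, show μ + 1 + ((3 : ℕ) : ℝ) = μ + 4 by push_cast; ring]
    push_cast
    field_simp
    ring
  have f5 : f 5 = 63 * (1 - 2 * μ) * (3 - 2 * μ) * (5 - 2 * μ) * (7 - 2 * μ) * (9 - 2 * μ)
      / (8192 * (μ + 1) * (μ + 2) * (μ + 3) * (μ + 4) * (μ + 5)) := by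
    have := hyp_succ' (1 / 2) (1 / 2 - μ) hC 4
    rw [← hf, f4] at this
    rw [this, show μ + 1 + ((4 : ℕ) : ℝ) = μ + 5 by push_cast; ring]
    push_cast
    field_simp
    ring
  have y0 : y 0 = 0 := coeff_yy_zero _ _ _
  have cv : ∀ k, ∑ i ∈ Finset.range (k + 1), f i * y (k - i) = k * f k :=
    yy_conv (1 / 2) (1 / 2 - μ) (μ + 1)
  have c1 := cv 1
  have c2 := cv 2
  have c3 := cv 3
  have c4 := cv 4
  have c5 := cv 5
  simp only [Finset.sum_range_succ, Finset.range_zero, Finset.sum_empty, zero_add, Nat.reduceSub,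
    Nat.sub_zero, f0, y0, one_mul, mul_zero, add_zero, Nat.cast_ofNat, Nat.cast_one]
    at c1 c2 c3 c4 c5
  have y1 : y 1 = (1 / 2 - μ) / (2 * (μ + 1)) := by
    rw [c1, f1]
    field_simp
    ring
  have y2 : y 2 = (7 / 8 - μ - 2 * μ ^ 2 + μ ^ 3) / (2 * (μ + 1) ^ 2 * (μ + 2)) := by
    rw [show y 2 = 2 * f 2 - f 1 * y 1 by linarith, f1, f2, y1]
    field_simp
    ring
  have y3 : y 3 = (39 / 16 - 1 / 2 * μ - 37 / 4 * μ ^ 2 - 3 / 2 * μ ^ 3 + 11 / 2 * μ ^ 4 - μ ^ 5)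
      / (2 * (μ + 1) ^ 3 * (μ + 2) * (μ + 3)) := by
    rw [show y 3 = 3 * f 3 - f 1 * y 2 - f 2 * y 1 by linarith, f1, f2, f3, y1, y2]
    field_simp
    ring
  have y4 : y 4 = (2373 / 128 + 2987 / 128 * μ - 147 / 2 * μ ^ 2 - 241 / 2 * μ ^ 3
      + 35 / 2 * μ ^ 4 + 143 / 2 * μ ^ 5 - 2 * μ ^ 6 - 9 * μ ^ 7 + μ ^ 8)
      / (2 * (μ + 1) ^ 4 * (μ + 2) ^ 2 * (μ + 3) * (μ + 4)) := by
    rw [show y 4 = 4 * f 4 - f 1 * y 3 - f 2 * y 2 - f 3 * y 1 by linarith, f1, f2, f3, f4, y1,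
      y2, y3]
    field_simp
    ring
  have y5 : y 5 = (22845 / 256 + 51049 / 256 * μ - 17313 / 64 * μ ^ 2 - 62037 / 64 * μ ^ 3
      - 6107 / 16 * μ ^ 4 + 10233 / 16 * μ ^ 5 + 1323 / 4 * μ ^ 6 - 679 / 4 * μ ^ 7 - 39 * μ ^ 8
      + 33 / 2 * μ ^ 9 - μ ^ 10)
      / (2 * (μ + 1) ^ 5 * (μ + 2) ^ 2 * (μ + 3) * (μ + 4) * (μ + 5)) := by
    rw [show y 5 = 5 * f 5 - f 1 * y 4 - f 2 * y 3 - f 3 * y 2 - f 4 * y 1 by linarith, f1, f2,
      f3, f4, f5, y1, y2, y3, y4]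
    field_simp
    ring
  have hc : ∀ k, cf (μ + 1 / 2) (2 * μ + 1 / 2) (μ + 1) (k + 1) = 4 * μ + 2 * y (k + 1) := by
    intro k
    rw [cf_succ _ _ hC, show μ + 1 - (μ + 1 / 2) = 1 / 2 by ring,
      show μ + 1 - (2 * μ + 1 / 2) = 1 / 2 - μ by ring]
    ring
  obtain ⟨R, hg⟩ := cf_geo (μ + 1 / 2) (2 * μ + 1 / 2) hC
  have hb := xi_bounds (show -1 / 4 < μ by linarith)
  have s1 := sum_le_hasSum (Finset.range 6) (fun k _ => by
    rw [← sub_div, ← sub_mul]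
    exact div_nonneg (mul_nonneg (sub_nonneg.2 (hb k).2) (by positivity)) (by positivity))
    (((geo_const (4 * μ + 1)).hasSum 0 4).sub (hg.hasSum 0 4))
  rw [Sr_const, Sr_one_zero] at s1
  simp only [Finset.sum_range_succ, Finset.range_zero, Finset.sum_empty, zero_add,
    cf_zero _ _ hC, hc 0, hc 1, hc 2, hc 3, hc 4] at s1
  norm_num [Nat.factorial] at s1
  have x1 : exp 4 < 54.5982 := by
    rw [show (4 : ℝ) = ((4 : ℕ) : ℝ) * 1 by norm_num, exp_nat_mul]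
    exact (pow_lt_pow_left₀ exp_one_lt_d9 (exp_pos _).le (by norm_num)).trans (by norm_num)
  have x2 : 54.598 < exp 4 := by
    rw [show (4 : ℝ) = ((4 : ℕ) : ℝ) * 1 by norm_num, exp_nat_mul]
    exact lt_trans (by norm_num) (pow_lt_pow_left₀ exp_one_gt_d9 (by norm_num) (by norm_num))
  have x3 : exp (-4) * exp 4 = 1 := by rw [← exp_add]; simp
  have x4 := exp_pos (-4)
  have x5 : exp (-4) < 0.018316 := by nlinarith
  have key : 2 * μ * 0.018316 + 27.3083 < 8 * (1 - 2 * y 1) + 32 / 3 * (1 - 2 * y 2)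
      + 256 / 45 * (1 - 2 * y 3) + 512 / 315 * (1 - 2 * y 4) + 4096 / 14175 * (1 - 2 * y 5) := by
    rw [← sub_pos, y1, y2, y3, y4, y5]
    obtain ⟨v, rfl⟩ : ∃ v, μ = v + 1 := ⟨μ - 1, by ring⟩
    have v0 : 0 ≤ v := by linarith
    have v1 : 0 ≤ 21 - v := by linarith
    have q : 0 ≤ (111050141089 / 28350000 : ℝ) + (14098743511 / 47250000 : ℝ) * v + (965588681 / 141750000 : ℝ) * v ^ 2 - (74394277 / 141750000 : ℝ) * v ^ 3 - (4579 / 125000 : ℝ) * v ^ 4 := by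
      nlinarith [mul_nonneg v0 v1, mul_nonneg (pow_nonneg v0 2) v1, mul_nonneg (pow_nonneg v0 3) v1]
    have q2 : 0 < ((5049594224 / 65625 : ℝ)
        + (131727075524 / 328125 : ℝ) * v
        + (29770980584 / 39375 : ℝ) * v ^ 2
        + (6461517672611 / 8859375 : ℝ) * v ^ 3
        + (3615031177832 / 8859375 : ℝ) * v ^ 4
        + (1645829292503 / 11812500 : ℝ) * v ^ 5
        + (524670690739 / 17718750 : ℝ) * v ^ 6 + v ^ 7 * ((111050141089 / 28350000 : ℝ) + (14098743511 / 47250000 : ℝ) * v + (965588681 / 141750000 : ℝ) * v ^ 2 - (74394277 / 141750000 : ℝ) * v ^ 3 - (4579 / 125000 : ℝ) * v ^ 4))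
        / ((v + 1 + 1) ^ 5 * (v + 1 + 2) ^ 2 * (v + 1 + 3) * (v + 1 + 4) * (v + 1 + 5)) := by
      positivity
    refine q2.trans_eq ?_
    field_simp
    ring
  have b4 : 2 * μ * exp (-4) + cosh 4 - (8 * (1 - 2 * y 1) + 32 / 3 * (1 - 2 * y 2)
      + 256 / 45 * (1 - 2 * y 3) + 512 / 315 * (1 - 2 * y 4) + 4096 / 14175 * (1 - 2 * y 5))
      < 0 := by
    rw [cosh_eq]
    nlinarith
  have b5 := mul_neg_of_pos_of_neg x4 b4
  have b6 := mul_le_mul_of_nonneg_left s1 x4.le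
  have b7 : exp (-4) * (4 * μ * cosh 4) = 2 * μ + 2 * μ * exp (-4) * exp (-4) := by
    rw [cosh_eq]
    linear_combination 2 * μ * x3
  nlinarith

end Pool.Agent.P.MP_ede858_pr
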