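import Mathlib
import Pool.Agent.P.MP_ede858_pr.Xi

set_option autoImplicit false

open Set Filter Topology MeasureTheory Real

namespace Pool.Agent.P.MP_ede858_pr

/-! The squared Bessel family for large `μ`. -/

theorem jv_mono {d e d' e' : ℕ → ℝ} (hd0 : ∀ k, 0 ≤ d k) (he0 : ∀ k, 0 ≤ e k)
    (hd : ∀ k, d k ≤ d' k) (he : ∀ k, e k ≤ e' k) (n : ℕ) : ∀ k,
    0 ≤ jv d e (Polynomial.X ^ n) k ∧ jv d e (Polynomial.X ^ n) k ≤ jv d' e' (Polynomial.X ^ n) k := by
  induction n with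
  | zero =>
    intro k
    rw [pow_zero, jv_one, jv_one]
    refine ⟨?_, le_rfl⟩
    unfold e0
    split_ifs <;> simp
  | succ n ih =>
    intro k
    rw [pow_succ', jv_X_mul, jv_X_mul, jac_apply, jac_apply]
    have h0 : 0 ≤ prev 0 (jv d e (Polynomial.X ^ n)) k ∧ prev 0 (jv d e (Polynomial.X ^ n)) k
        ≤ prev 0 (jv d' e' (Polynomial.X ^ n)) k := by
      cases k with
      | zero => simp
      | succ k => simpa using ih k
    have h1 := mul_le_mul (hd k) (ih k).2 (ih k).1 ((hd0 k).trans (hd k))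
    have h2 := mul_le_mul (he k) (ih (k + 1)).2 (ih (k + 1)).1 ((he0 k).trans (he k))
    have h3 := mul_nonneg (hd0 k) (ih k).1
    have h4 := mul_nonneg (he0 k) (ih (k + 1)).1
    constructor <;> linarith [h0.1, h0.2]

theorem al_gq {μ : ℝ} (hμ : 0 ≤ μ) (n : ℕ) :
    0 ≤ al (gq μ) n ∧ al (gq μ) n ≤ (2 * n + 3) * (1 / (4 * (μ + 1))) := by
  have hn : (0 : ℝ) ≤ n := Nat.cast_nonneg n
  have h0 : 0 ≤ gq μ n ∧ gq μ n ≤ 1 := by
    unfold gq
    split_ifs with h
    · exact ⟨le_rfl, zero_le_one⟩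
    · have : (1 : ℝ) ≤ n := by exact_mod_cast Nat.one_le_iff_ne_zero.2 h
      exact ⟨by positivity, (div_le_one (by positivity)).2 (by linarith)⟩
  have h1 : 0 ≤ gq μ (n + 1) ∧ gq μ (n + 1) ≤ (2 * n + 3) * (1 / (4 * (μ + 1))) := by
    simp only [gq, Nat.succ_ne_zero, if_false]
    push_cast
    refine ⟨by positivity, ?_⟩
    rw [mul_one_div, show 2 * ((n : ℝ) + 1) + 1 = 2 * n + 3 by ring]
    exact div_le_div_of_nonneg_left (by positivity) (by positivity) (by linarith)
  unfold al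
  exact ⟨mul_nonneg (by linarith [h0.2]) h1.1,
    (mul_le_of_le_one_left h1.1 (by linarith [h0.1])).trans h1.2⟩

theorem six_bound {μ : ℝ} (hμ : 0 ≤ μ) :
    jv (cd (prev 0 (gq μ))) (ce (prev 0 (gq μ))) (Polynomial.X ^ 6) 0 ≤ 599 / (μ + 1) ^ 6 := by
  set l := 1 / (4 * (μ + 1)) with hl
  have hl0 : 0 < l := by positivity
  have a := al_gq hμ
  have g0 : gq μ 0 = 0 := by simp [gq]
  have b0 : ∀ k, 0 ≤ al (prev 0 (gq μ)) k := by
    intro k
    cases k with
    | zero => rw [al_prev_zero g0]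
    | succ k => rw [al_prev_succ]; exact (a k).1
  have h := (jv_mono (d := cd (prev 0 (gq μ))) (e := ce (prev 0 (gq μ)))
    (d' := fun k => (prev 0 (fun j : ℕ => 4 * (j : ℝ) + 5) k + (4 * k + 3)) * l)
    (e' := fun k => (4 * k + 3) * l * ((4 * k + 5) * l))
    (fun k => add_nonneg (b0 _) (b0 _)) (fun k => mul_nonneg (b0 _) (b0 _)) (fun k => by
      have h1 := (a (2 * k)).2
      rw [cd, al_prev_succ, add_mul]
      push_cast at h1
      refine add_le_add ?_ (by linarith)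
      cases k with
      | zero => rw [Nat.mul_zero, al_prev_zero g0]; simp
      | succ k =>
        have h2 := (a (2 * k + 1)).2
        rw [show 2 * (k + 1) = 2 * k + 1 + 1 by ring, al_prev_succ, prev_succ]
        push_cast at h2
        linarith) (fun k => by
      have h1 := (a (2 * k)).2
      have h2 := (a (2 * k + 1)).2
      push_cast at h1 h2
      rw [ce, al_prev_succ, al_prev_succ]
      exact mul_le_mul (by linarith) (by linarith) (a _).1 (by positivity)) 6 0).2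
  refine h.trans ?_
  have e : jv (fun k => (prev 0 (fun j : ℕ => 4 * (j : ℝ) + 5) k + (4 * k + 3)) * l)
      (fun k => (4 * k + 3) * l * ((4 * k + 5) * l)) (Polynomial.X ^ 6) 0 = 2450304 * l ^ 6 := by
    simp only [pow_succ' Polynomial.X, jv_X_mul, pow_zero, jv_one, jac_apply, prev_zero, prev_succ,
      e0, Nat.succ_ne_zero, if_true, if_false]
    push_cast
    ring
  rw [e, hl, div_pow, mul_pow, one_pow, mul_one_div, div_le_div_iff₀ (by positivity)
    (by positivity)]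
  have : 0 < (μ + 1) ^ 6 := by positivity
  nlinarith

theorem Sr_tau {t : ℝ} (ht : t ∈ Icc (0 : ℝ) 1) (x : ℝ) :
    Sr 0 (fun k => (tau k).eval t) x = cosh (x * √t) * cos (x * √(1 - t)) := by
  have c0 := Real.sqrt_nonneg t
  have c1 : √t ≤ 1 := Real.sqrt_le_one.2 ht.2
  set φ := arccos √t with hφ
  have hc : cos φ = √t := cos_arccos (by linarith) c1
  have hs : sin φ = √(1 - t) := by rw [hφ, sin_arccos, Real.sq_sqrt ht.1]
  have ht2 : 2 * t - 1 = cos (2 * φ) := by rw [cos_two_mul, hc, Real.sq_sqrt ht.1]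
  have h1 : ∀ k : ℕ, (tau k).eval t = cos (((2 * k : ℕ) : ℝ) * φ) := by
    intro k
    unfold tau
    rw [Polynomial.eval_comp]
    simp only [Polynomial.eval_sub, Polynomial.eval_mul, Polynomial.eval_ofNat, Polynomial.eval_X,
      Polynomial.eval_one]
    rw [ht2, Polynomial.Chebyshev.T_real_cos]
    congr 1
    push_cast
    ring
  have h2 := Complex.hasSum_re (Complex.hasSum_cosh (x * Complex.exp (φ * Complex.I)))
  have h3 : (Complex.cosh (x * Complex.exp (φ * Complex.I))).re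
      = cosh (x * √t) * cos (x * √(1 - t)) := by
    rw [← hc, ← hs, Complex.exp_mul_I, mul_add, ← mul_assoc, Complex.cosh_add,
      Complex.cosh_mul_I, Complex.sinh_mul_I, ← Complex.ofReal_cos, ← Complex.ofReal_sin,
      ← Complex.ofReal_mul, ← Complex.ofReal_mul, ← Complex.ofReal_cosh, ← Complex.ofReal_sinh,
      ← Complex.ofReal_cos, ← Complex.ofReal_sin]
    simp only [Complex.add_re, Complex.mul_re, Complex.ofReal_re, Complex.ofReal_im,
      Complex.mul_im, Complex.I_re, Complex.I_im, mul_zero, zero_mul, sub_zero, add_zero, mul_one]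
  rw [← h3, ← h2.tsum_eq]
  refine tsum_congr (fun k => ?_)
  beta_reduce
  rw [h1, add_zero, mul_pow, ← Complex.exp_nat_mul, ← mul_assoc, ← Complex.ofReal_natCast,
    ← Complex.ofReal_mul, ← Complex.ofReal_pow, ← Complex.ofReal_natCast, Complex.div_ofReal_re,
    Complex.re_ofReal_mul, Complex.exp_ofReal_mul_I_re, mul_comm]

theorem dip_of_majorant {μ x β : ℝ} (hμ : 0 ≤ μ) (hβ : 0 ≤ β)
    (h : ∀ t ∈ Icc (0 : ℝ) 1, cosh (x * √t) * cos (x * √(1 - t)) ≤ -(1 / 2) + β * t ^ 6)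
    (h2 : β * (599 / (μ + 1) ^ 6) + 2 * μ * exp (-x) < 1 / 2) :
    exp (-x) * Sr 0 (cf (μ + 1 / 2) (2 * μ + 1 / 2) (μ + 1)) x < 2 * μ := by
  obtain ⟨θ, hθ, hI, h6, hc⟩ := xi_rep (show -1 / 4 < μ by linarith)
  have hg : ∀ᵐ t ∂θ, Geo (fun k => (tau k).eval t) 1 1 :=
    hI.mono (fun t ht => ⟨le_rfl, fun k => by simpa using abs_tau_le k ht⟩)
  obtain ⟨i0, e0⟩ := Sr_integral θ (fun k t => (tau k).eval t) (fun k => by fun_prop) hg 0 x
  have i6 : Integrable (fun t : ℝ => t ^ 6) θ := Integrable.of_bound (by fun_prop) 1 (by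
    filter_upwards [hI] with t ht
    rw [Real.norm_of_nonneg (pow_nonneg ht.1 6)]
    exact pow_le_one₀ ht.1 ht.2)
  have b := integral_mono_ae i0 ((integrable_const (-(1 / 2) : ℝ)).add (i6.const_mul β)) (by
    filter_upwards [hI] with t ht
    rw [Sr_tau ht]
    exact h t ht)
  simp only [Pi.add_apply] at b
  rw [integral_add (integrable_const _) (i6.const_mul β), integral_const_mul, h6] at b
  simp only [integral_const, probReal_univ, smul_eq_mul, one_mul] at b
  have b2 := mul_le_mul_of_nonneg_left (six_bound hμ) hβ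
  rw [funext hc, Sr_add (geo_const _) (geo_integral θ _ hg), Sr_const, Sr_one_zero, e0, cosh_eq]
  have e1 : exp (-x) * exp x = 1 := by rw [← exp_add]; simp
  have b4 : 2 * μ * exp (-x) + ∫ t, Sr 0 (fun k => (tau k).eval t) x ∂θ < 0 := by linarith
  have b5 := mul_neg_of_pos_of_neg (exp_pos (-x)) b4
  linear_combination b5 + 2 * μ * e1

theorem phase (n : ℕ) {t : ℝ} (ht : t ∈ Icc (0 : ℝ) 1) {x : ℝ} (hx : x = (2 * n + 1) * π + 1) :
    (x * (1 - √(1 - t)) ≤ 2 → cosh (x * √t) * cos (x * √(1 - t)) ≤ -(1 / 2)) ∧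
    (x * (1 - √(1 - t)) ≤ 1 + π / 2 → cosh (x * √t) * cos (x * √(1 - t)) ≤ 0) := by
  have hx0 : 0 ≤ x := by rw [hx]; positivity
  have s1 : √(1 - t) ≤ 1 := Real.sqrt_le_one.2 (by linarith [ht.1])
  have u1 : 0 ≤ x * (1 - √(1 - t)) := mul_nonneg hx0 (by linarith)
  have e : cos (x * √(1 - t)) = -cos (1 - x * (1 - √(1 - t))) := by
    rw [show x * √(1 - t) = 1 - x * (1 - √(1 - t)) + π + n * (2 * π) by linear_combination hx,
      cos_add_nat_mul_two_pi, cos_add_pi]
  have c1 := one_le_cosh (x * √t)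
  rw [e]
  set u := 1 - x * (1 - √(1 - t)) with hu
  constructor
  · intro h
    have h1 := one_sub_sq_div_two_le_cos (x := u)
    have h2 : u ^ 2 ≤ 1 := by
      rw [sq_le_one_iff_abs_le_one, abs_le]
      constructor <;> linarith
    nlinarith
  · intro h
    have h1 : 0 ≤ cos u := cos_nonneg_of_mem_Icc ⟨by linarith, by linarith [pi_gt_three]⟩
    nlinarith

theorem one_sub_sqrt_le {t : ℝ} (ht : t ∈ Icc (0 : ℝ) 1) : 1 - √(1 - t) ≤ t := by
  have : 1 - t ≤ √(1 - t) := Real.le_sqrt_of_sq_le (by nlinarith [ht.1, ht.2])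
  linarith

theorem dip_xi_second {μ : ℝ} (h1 : 22 ≤ μ) (h2 : μ ≤ 2000) :
    exp (-(3 * π + 1)) * Sr 0 (cf (μ + 1 / 2) (2 * μ + 1 / 2) (μ + 1)) (3 * π + 1) < 2 * μ := by
  have p1 := pi_gt_d4
  have p2 := pi_lt_d4
  set x := 3 * π + 1 with hx
  have x1 : 10.4245 < x := by linarith
  have x2 : x < 10.4248 := by linarith
  refine dip_of_majorant (β := 74000) (by linarith) (by norm_num) (fun t ht => ?_) ?_
  · obtain ⟨a1, a2⟩ := phase 1 ht (x := x) (by rw [hx]; norm_num)
    have t6 : 0 ≤ t ^ 6 := pow_nonneg ht.1 6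
    by_cases b1 : x * (1 - √(1 - t)) ≤ 2
    · linarith [a1 b1]
    have s0 := Real.sqrt_nonneg (1 - t)
    have s1 : √(1 - t) ≤ 1 := Real.sqrt_le_one.2 (by linarith [ht.1])
    by_cases b2 : x * (1 - √(1 - t)) ≤ 1 + π / 2
    · have t1 : 0.19 ≤ t := by nlinarith [one_sub_sqrt_le ht, not_le.1 b1]
      have t2 : (0.19 : ℝ) ^ 6 ≤ t ^ 6 := pow_le_pow_left₀ (by norm_num) t1 6
      norm_num at t2
      linarith [a2 b2]
    have s2 : √(1 - t) ≤ 0.7535 := by nlinarith [not_le.1 b2]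
    have s3 := Real.sq_sqrt (show 0 ≤ 1 - t by linarith [ht.2])
    have c0 := Real.sqrt_nonneg t
    have c1 : √t ≤ 1 := Real.sqrt_le_one.2 ht.2
    have c2 : 0.657 ≤ √t := Real.le_sqrt_of_sq_le (by nlinarith)
    have c3 : √t ^ 12 = t ^ 6 := by
      rw [show 12 = 2 * 6 by norm_num, pow_mul, Real.sq_sqrt ht.1]
    set c := √t
    have e1 : exp (c - 0.657) ≤ c / 0.657 := by
      have h3 := add_one_le_exp (-(c - 0.657))
      have h4 : exp (c - 0.657) * exp (-(c - 0.657)) = 1 := by rw [← exp_add]; simp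
      have h5 := exp_pos (c - 0.657)
      rw [le_div_iff₀ (by norm_num)]
      have h6 : 0.657 ≤ c * (-(c - 0.657) + 1) := by nlinarith
      nlinarith [mul_le_mul_of_nonneg_left h3 (mul_nonneg c0 h5.le)]
    have e2 : exp 6.85 ≤ 954 := by
      have h3 : exp 7 < 1096.64 := by
        rw [show (7 : ℝ) = ((7 : ℕ) : ℝ) * 1 by norm_num, exp_nat_mul]
        exact (pow_lt_pow_left₀ exp_one_lt_d9 (exp_pos _).le (by norm_num)).trans (by norm_num)
      have h4 := add_one_le_exp (0.15 : ℝ)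
      have h5 : exp 6.85 * exp 0.15 = exp 7 := by rw [← exp_add]; norm_num
      nlinarith [exp_pos 6.85]
    have e3 : exp (x * c) ≤ 954 * (t ^ 6 / 0.657 ^ 12) := by
      have h3 : exp (x * c) ≤ exp 6.85 * exp (c - 0.657) ^ 12 := by
        rw [← exp_nat_mul, ← exp_add]
        refine exp_le_exp.2 ?_
        push_cast
        nlinarith
      rw [← c3, ← div_pow]
      exact h3.trans (mul_le_mul e2 (pow_le_pow_left₀ (exp_pos _).le e1 12) (by positivity)
        (by norm_num))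
    have e4 : 1 ≤ t ^ 6 / 0.657 ^ 12 := by
      rw [← c3, ← div_pow]
      exact one_le_pow₀ ((one_le_div (by norm_num)).2 c2)
    have e5 : cosh (x * c) * cos (x * √(1 - t)) ≤ cosh (x * c) :=
      mul_le_of_le_one_right (cosh_pos _).le (cos_le_one _)
    have e6 : exp (-(x * c)) ≤ 1 := exp_le_one_iff.2 (neg_nonpos.2 (by positivity))
    have e7 : 478 * (t ^ 6 / 0.657 ^ 12) ≤ 74000 * t ^ 6 := by
      rw [← mul_div_assoc, div_le_iff₀ (by norm_num)]
      nlinarith
    rw [cosh_eq] at e5 ⊢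
    linarith
  · have a1 : 599 / (μ + 1) ^ 6 ≤ 599 / 23 ^ 6 :=
      div_le_div_of_nonneg_left (by norm_num) (by norm_num)
        (pow_le_pow_left₀ (by norm_num) (by linarith) 6)
    have a2 : 22026 < exp x := by
      have h3 : 22026 < exp 10 := by
        rw [show (10 : ℝ) = ((10 : ℕ) : ℝ) * 1 by norm_num, exp_nat_mul]
        exact lt_trans (by norm_num) (pow_lt_pow_left₀ exp_one_gt_d9 (by norm_num) (by norm_num))
      exact h3.trans (exp_lt_exp.2 (by linarith))
    have a3 : exp (-x) * exp x = 1 := by rw [← exp_add]; simp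
    have a4 := exp_pos (-x)
    have a5 : exp (-x) ≤ 1 / 22026 := by
      rw [le_div_iff₀ (by norm_num)]
      nlinarith
    have a6 : 2 * μ * exp (-x) ≤ 2 * 2000 * (1 / 22026) :=
      mul_le_mul (by linarith) a5 a4.le (by norm_num)
    norm_num at a1 a6 ⊢
    linarith

theorem dip_xi_large {μ : ℝ} (h1 : 2000 ≤ μ) :
    ∃ x, 0 ≤ x ∧ exp (-x) * Sr 0 (cf (μ + 1 / 2) (2 * μ + 1 / 2) (μ + 1)) x < 2 * μ := by
  have p1 := pi_gt_d4
  have p2 := pi_lt_d4
  have hμ : 0 < 14 * μ := by linarith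
  set L := log (14 * μ) with hL
  have eL : exp L = 14 * μ := exp_log hμ
  have L1 : 5 ≤ L := by
    rw [← exp_le_exp, eL]
    have h3 : exp 5 < 149 := by
      rw [show (5 : ℝ) = ((5 : ℕ) : ℝ) * 1 by norm_num, exp_nat_mul]
      exact (pow_lt_pow_left₀ exp_one_lt_d9 (exp_pos _).le (by norm_num)).trans (by norm_num)
    linarith
  have q0 : 0 ≤ (L - π - 1) / (2 * π) := div_nonneg (by linarith) (by positivity)
  have n1 := Nat.le_ceil ((L - π - 1) / (2 * π))
  have n2 := Nat.ceil_lt_add_one q0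
  set n := ⌈(L - π - 1) / (2 * π)⌉₊
  rw [div_le_iff₀ (by positivity)] at n1
  rw [← sub_lt_iff_lt_add, lt_div_iff₀ (by positivity)] at n2
  set x := (2 * (n : ℝ) + 1) * π + 1 with hx
  have x1 : L ≤ x := by linarith
  have x2 : x ≤ L + 7 := by linarith
  have x0 : 0 < x := by linarith
  have ex1 : 14 * μ ≤ exp x := eL ▸ exp_le_exp.2 x1
  have ex2 : exp x ≤ 15358 * μ := by
    have h3 : exp 7 < 1097 := by
      rw [show (7 : ℝ) = ((7 : ℕ) : ℝ) * 1 by norm_num, exp_nat_mul]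
      exact (pow_lt_pow_left₀ exp_one_lt_d9 (exp_pos _).le (by norm_num)).trans (by norm_num)
    have h4 := exp_le_exp.2 x2
    rw [exp_add L, eL] at h4
    nlinarith
  refine ⟨x, x0.le, dip_of_majorant (β := (exp x + 1) * (x / 2) ^ 6) (by linarith)
    (by positivity) (fun t ht => ?_) ?_⟩
  · obtain ⟨a1, -⟩ := phase n ht hx
    have t6 : 0 ≤ t ^ 6 := pow_nonneg ht.1 6
    by_cases b1 : x * (1 - √(1 - t)) ≤ 2
    · have : 0 ≤ (exp x + 1) * (x / 2) ^ 6 * t ^ 6 := by positivity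
      linarith [a1 b1]
    have t1 : 1 ≤ x / 2 * t := by nlinarith [one_sub_sqrt_le ht, not_le.1 b1]
    have t2 : 1 ≤ (x / 2 * t) ^ 6 := one_le_pow₀ t1
    have c1 : √t ≤ 1 := Real.sqrt_le_one.2 ht.2
    have e5 : cosh (x * √t) * cos (x * √(1 - t)) ≤ cosh (x * √t) :=
      mul_le_of_le_one_right (cosh_pos _).le (cos_le_one _)
    have e6 : cosh (x * √t) ≤ exp x :=
      (cosh_le_exp (by positivity)).trans (exp_le_exp.2 (mul_le_of_le_one_right x0.le c1))
    rw [mul_assoc, ← mul_pow]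
    nlinarith [exp_pos x]
  · have a1 := pow_div_factorial_le_exp x x0.le 6
    norm_num [Nat.factorial] at a1
    have a2 : (x / 2) ^ 6 ≤ 12 * (15358 * μ) := by
      rw [div_pow]
      linarith
    have a3 : (exp x + 1) * (x / 2) ^ 6 ≤ 15359 * μ * (12 * (15358 * μ)) :=
      mul_le_mul (by linarith) a2 (by positivity) (by positivity)
    have a4 : 599 / (μ + 1) ^ 6 ≤ 599 / (2000 ^ 4 * μ ^ 2) := by
      refine div_le_div_of_nonneg_left (by norm_num) (by positivity) ?_
      have h3 : (2000 : ℝ) ^ 4 ≤ (μ + 1) ^ 4 := pow_le_pow_left₀ (by norm_num) (by linarith) 4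
      have h4 : μ ^ 2 ≤ (μ + 1) ^ 2 := pow_le_pow_left₀ (by linarith) (by linarith) 2
      calc (2000 : ℝ) ^ 4 * μ ^ 2 ≤ (μ + 1) ^ 4 * (μ + 1) ^ 2 :=
            mul_le_mul h3 h4 (by positivity) (by positivity)
        _ = (μ + 1) ^ 6 := by ring
    have a5 := mul_le_mul a3 a4 (by positivity) (by positivity)
    have a6 : 15359 * μ * (12 * (15358 * μ)) * (599 / (2000 ^ 4 * μ ^ 2))
        = 15359 * 12 * 15358 * 599 / 2000 ^ 4 := by
      have : μ ≠ 0 := by linarith
      field_simp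
    have a7 : exp (-x) * exp x = 1 := by rw [← exp_add]; simp
    have a8 : 2 * μ * exp (-x) ≤ 1 / 7 := by
      nlinarith [mul_le_mul_of_nonneg_left ex1 (exp_pos (-x)).le]
    rw [a6] at a5
    norm_num at a5
    linarith

theorem one_lt_kap_xi {μ : ℝ} (hμ : -1 / 4 < μ) :
    1 < kap (μ + 1 / 2) (2 * μ + 1 / 2) (μ + 1) ↔ 1 / 2 < μ := by
  constructor
  · intro h
    by_contra h1
    have := kap_le_one (A := μ + 1 / 2) (B := 2 * μ + 1 / 2) (C := μ + 1) (by linarith)
      (by linarith) (by linarith) (by linarith) (by linarith [not_lt.1 h1])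
    linarith
  · intro h
    have hd : ∃ x, 0 ≤ x ∧
        exp (-x) * Sr 0 (cf (μ + 1 / 2) (2 * μ + 1 / 2) (μ + 1)) x < 2 * μ := by
      rcases le_total μ 1 with h1 | h1
      · exact dip_xi_small h h1
      rcases le_total μ 22 with h2 | h2
      · exact ⟨4, by norm_num, dip_xi_mid h1 h2⟩
      rcases le_total μ 2000 with h3 | h3
      · exact ⟨3 * π + 1, by positivity, dip_xi_second h2 h3⟩
      · exact dip_xi_large h3
    obtain ⟨x, hx, hd⟩ := hd
    exact (setup_xi hμ one_pos (show 2 * 1 < (3 : ℝ) by norm_num)).one_lt_kap (good_xi hμ) hx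
      (by linarith)

end Pool.Agent.P.MP_ede858_pr
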