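import Mathlib
import Pool.Agent.P.MP_ede858_pr.Xi2

set_option autoImplicit false

open Set Filter Topology MeasureTheory Real

namespace Pool.Agent.P.MP_ede858_pr

/-! The final statements. -/

theorem lev_facts {A B C : ℝ} (hC : 0 < C) (hg : Good (cf A B C)) :
    (∀ x, 0 ≤ x → 0 < lev A B C x) ∧ Differentiable ℝ (lev A B C) ∧
      IsLUB {y : ℝ | ∃ x : ℝ, 0 < x ∧ y = deriv (lev A B C) x / lev A B C x} (kap A B C) := by
  refine ⟨fun x hx => ?_, fun x => (lev_hasDerivAt A B hC x).differentiableAt, kap_isLUB hC hg⟩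
  obtain ⟨M, hM⟩ := hg
  exact (hM x hx).1

theorem lev_phi_three {μ : ℝ} (hμ : -1 < μ) (x : ℝ) :
    lev ((μ + (μ + 3) + 1) / 2) ((μ + (μ + 3)) / 2) (μ + 1) x
      = (2 * μ + 5) * cosh x - 2 * cos (x / √(2 * μ + 2)) := by
  have hC : 0 < μ + 1 := by linarith
  have hp : 0 < 2 * μ + 2 := by linarith
  have hW : WW (-1) (-1 / 2) (μ + 1) 1 = WW (-1) (-1 / 2) (μ + 1) 0 := by
    have h := (WW_frac (-1) (-1 / 2) hC).2 0
    have g2 := gg_even (-1) (-1 / 2) (μ + 1) 0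
    simp only [Nat.cast_zero, add_zero, mul_zero, zero_add, neg_add_cancel, zero_div] at g2
    simpa [al, g2] using h
  have h1 : ∀ k, PowerSeries.coeff k (WW (-1) (-1 / 2) (μ + 1) 0)
      = (-((1 / √(2 * μ + 2)) ^ 2)) ^ k := by
    intro k
    induction k with
    | zero => rw [(frac_low (WW_frac _ _ hC)).1, pow_zero]
    | succ k ih =>
      rw [WW_succ _ _ hC, hW, ih, pow_succ' _ k, div_pow, Real.sq_sqrt hp.le]
      congr 1
      field_simp
  have hc : cf ((μ + (μ + 3) + 1) / 2) ((μ + (μ + 3)) / 2) (μ + 1)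
      = fun k => (2 * μ + 5) + -2 * (-((1 / √(2 * μ + 2)) ^ 2)) ^ k := by
    funext k
    cases k with
    | zero => rw [cf_zero _ _ hC]; ring
    | succ k =>
      rw [cf_succ _ _ hC, show μ + 1 - (μ + (μ + 3) + 1) / 2 = -1 by ring,
        show μ + 1 - (μ + (μ + 3)) / 2 = -1 / 2 by ring, coeff_yy_succ, h1]
      ring
  have hg : Geo (fun k => -2 * (-((1 / √(2 * μ + 2)) ^ 2)) ^ k) 2
      (max 1 |(-((1 / √(2 * μ + 2)) ^ 2))|) := ⟨le_max_left _ _, fun k => by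
    rw [abs_mul, abs_pow, abs_neg (2 : ℝ), abs_two]
    exact mul_le_mul_of_nonneg_left (pow_le_pow_left₀ (abs_nonneg _) (le_max_right _ _) k)
      (by norm_num)⟩
  rw [lev_eq, hc, Sr_add (geo_const _) hg, Sr_const, Sr_one_zero, Sr_mul, Sr_neg_sq,
    one_div_mul_eq_div]
  ring

theorem sd_phi {μ ν a b : ℝ} (hμ : -1 < μ) (hρ : 0 < μ + ν) (ha : 0 < a) (hb : a < b) :
    IsSD (nlaw (fun x => x ^ (ν - 1) * exp (-b * x) * besselI μ (a * x)))
      ↔ kap ((μ + ν + 1) / 2) ((μ + ν) / 2) (μ + 1) * a ≤ b :=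
  (setup_phi hμ hρ ha hb).sd_iff_kap (good_phi hμ hρ)

theorem sd_xi {μ a b : ℝ} (hμ : -1 / 4 < μ) (ha : 0 < a) (hb : 2 * a < b) :
    IsSD (nlaw (fun x => x ^ (2 * μ) * exp (-b * x) * besselI μ (a * x) ^ 2))
      ↔ kap (μ + 1 / 2) (2 * μ + 1 / 2) (μ + 1) * (2 * a) ≤ b :=
  (setup_xi hμ ha hb).sd_iff_kap (good_xi hμ)

end Pool.Agent.P.MP_ede858_pr
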